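import Mathlib

/-!
# Square with coherence at points of countable cofinality
-/

open Cardinal

namespace Pool.Agent.Lib.MP_69a707_lc

/-- `β` is a limit (accumulation) point of `C`. -/
def IsAcc (C : Set Ordinal.{0}) (β : Ordinal.{0}) : Prop :=
  β ≠ 0 ∧ ∀ x < β, ∃ y ∈ C, x < y ∧ y < β

/-- `C` is a closed unbounded subset of the limit ordinal `α`. -/
structure IsClub (C : Set Ordinal.{0}) (α : Ordinal.{0}) : Prop where
  sub : ∀ x ∈ C, x < α
  unbdd : ∀ x < α, ∃ y ∈ C, x < y
  closed : ∀ β < α, IsAcc C β → β ∈ C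

/-- Jensen's square principle `□_κ`, with coherence demanded only at limit points of countable
cofinality: there is a sequence `⟨C_α : α < κ⁺ limit⟩` such that `C_α` is a closed unbounded subset
of `α` of order type at most `κ`, and `C_β = C_α ∩ β` whenever `β` is a limit point of `C_α` of
countable cofinality. -/
def SquareOmega (κ : Cardinal.{0}) : Prop :=
  ∃ C : Ordinal.{0} → Set Ordinal.{0}, ∀ α < (Order.succ κ).ord, Order.IsSuccLimit α →
    IsClub (C α) α ∧
    Ordinal.type (fun x y : C α => x < y) ≤ Ordinal.lift.{1} κ.ord ∧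
    ∀ β < α, IsAcc (C α) β → β.cof = ℵ₀ → C β = C α ∩ Set.Iio β

end Pool.Agent.Lib.MP_69a707_lc
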