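import Mathlib
import Pool.Agent.Lib.MP_69a707_lc.Defs

/-!
# Pair colourings of `ℵ_{ω+1}`, a level function from square, and the combinatorial core
-/

open Cardinal Set

universe u

namespace Pool.Agent.Lib.MP_69a707_lc

section PairColouring

variable {X : Type u}

theorem mk_biUnion_le_of {ι : Type u} {μ : Cardinal.{u}} (hμ : ℵ₀ ≤ μ) (f : ι → Set X)
    (hι : #ι ≤ μ) (hf : ∀ i, #(f i) ≤ μ) : #(⋃ i, f i) ≤ μ := by
  refine (mk_iUnion_le_sum_mk).trans ?_
  refine (sum_le_mk_mul_iSup _).trans ?_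
  calc #ι * ⨆ i, #(f i) ≤ μ * μ := mul_le_mul' hι (ciSup_le' hf)
    _ = μ := mul_eq_self hμ

/-- A small set of points to be avoided: any small set disjoint from it is missed by the values of
`F` at many points of `K`. -/
theorem exists_bad {μ : Cardinal.{u}} (hμ : ℵ₀ ≤ μ) (F : X → Set X) (hF : ∀ y, #(F y) ≤ μ)
    (K : Set X) (hK : Order.succ (Order.succ μ) ≤ #K) :
    ∃ B : Set X, #B ≤ μ ∧ ∀ Q : Set X, #Q ≤ μ → Disjoint Q B →
      μ < #{y : X | y ∈ K ∧ Disjoint (F y) Q} := by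
  classical
  by_contra hcon
  push Not at hcon
  choose Φ hΦ1 hΦ2 hΦ3 using hcon
  let ι := (Order.succ μ).ord.ToType
  let Ψ : Set X → Set X := fun B => if h : #B ≤ μ then Φ B h else ∅
  let Q : ι → Set X := WellFounded.fix (wellFounded_lt (α := ι))
    (fun ρ ih => Ψ (⋃ ρ' : Iio ρ, ih ρ'.1 ρ'.2))
  have hQ : ∀ ρ, Q ρ = Ψ (⋃ ρ' : Iio ρ, Q ρ'.1) := fun ρ => WellFounded.fix_eq _ _ _
  have hΨ : ∀ B, #(Ψ B) ≤ μ := by
    intro B
    by_cases h : #B ≤ μ
    · simp only [Ψ, dif_pos h]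
      exact hΦ1 B h
    · simp only [Ψ, dif_neg h]
      simp
  have hQc : ∀ ρ, #(Q ρ) ≤ μ := fun ρ => by rw [hQ]; exact hΨ _
  have hι : ∀ ρ : ι, #(Iio ρ) ≤ μ := fun ρ => Order.lt_succ_iff.mp (mk_Iio_toType_ord_lt ρ)
  have hU : ∀ ρ : ι, #(⋃ ρ' : Iio ρ, Q ρ'.1 : Set X) ≤ μ := fun ρ =>
    mk_biUnion_le_of hμ _ (hι ρ) fun i => hQc _
  have hQ' : ∀ ρ, Q ρ = Φ _ (hU ρ) := fun ρ => by
    rw [hQ]
    exact dif_pos (hU ρ)
  have hdis : ∀ ρ ρ' : ι, ρ' < ρ → Disjoint (Q ρ) (Q ρ') := by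
    intro ρ ρ' h
    have h1 := hΦ2 _ (hU ρ)
    rw [← hQ'] at h1
    exact h1.mono_right (subset_iUnion (fun ρ' : Iio ρ => Q ρ'.1) ⟨ρ', h⟩)
  have hsm : ∀ ρ, #{y : X | y ∈ K ∧ Disjoint (F y) (Q ρ)} ≤ μ := by
    intro ρ
    have h1 := hΦ3 _ (hU ρ)
    rw [← hQ'] at h1
    exact h1
  have hE : #(⋃ ρ, {y : X | y ∈ K ∧ Disjoint (F y) (Q ρ)}) ≤ Order.succ μ := by
    refine mk_biUnion_le_of (hμ.trans (Order.le_succ μ)) _ ?_ fun ρ => (hsm ρ).trans (Order.le_succ μ)
    rw [mk_ord_toType]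
  obtain ⟨y, hyK, hy⟩ : ∃ y ∈ K, y ∉ ⋃ ρ, {y : X | y ∈ K ∧ Disjoint (F y) (Q ρ)} := by
    by_contra hcon
    push Not at hcon
    have h1 : #K ≤ Order.succ μ := (mk_le_mk_of_subset hcon).trans hE
    exact absurd (hK.trans h1) (not_le.mpr (Order.lt_succ _))
  have hx : ∀ ρ, ∃ x, x ∈ F y ∧ x ∈ Q ρ := by
    intro ρ
    have h1 : ¬ Disjoint (F y) (Q ρ) := fun h => hy (mem_iUnion.mpr ⟨ρ, hyK, h⟩)
    obtain ⟨x, hx1, hx2⟩ := not_disjoint_iff.mp h1
    exact ⟨x, hx1, hx2⟩
  choose x hx1 hx2 using hx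
  have hinj : Function.Injective (fun ρ => (⟨x ρ, hx1 ρ⟩ : F y)) := by
    intro ρ ρ' h
    have h : x ρ = x ρ' := congrArg Subtype.val h
    by_contra hne
    rcases lt_or_gt_of_ne hne with h' | h'
    · exact disjoint_left.mp (hdis ρ' ρ h') (hx2 ρ') (h ▸ hx2 ρ)
    · exact disjoint_left.mp (hdis ρ ρ' h') (hx2 ρ) (h ▸ hx2 ρ')
  have h1 := mk_le_of_injective hinj
  have h2 : #ι = Order.succ μ := mk_ord_toType _
  rw [h2] at h1
  exact absurd (h1.trans (hF y)) (not_le.mpr (Order.lt_succ μ))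

/-- A free transversal of few large sets. -/
theorem exists_transversal {μ : Cardinal.{u}} (hμ : ℵ₀ ≤ μ) (F : X → Set X)
    (hF : ∀ y, #(F y) ≤ μ) {I : Type u} [LinearOrder I] [WellFoundedLT I] (hI : #I ≤ μ)
    (K : I → Set X) (hK : ∀ i, Order.succ (Order.succ μ) ≤ #(K i)) :
    ∃ y : I → X, (∀ i, y i ∈ K i) ∧ ∀ i j, i ≠ j → y i ∉ F (y j) := by
  classical
  rcases isEmpty_or_nonempty I with hem | ⟨⟨i₀⟩⟩
  · exact ⟨fun i => (hem.false i).elim, fun i => (hem.false i).elim, fun i => (hem.false i).elim⟩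
  have hμ2 : μ < Order.succ (Order.succ μ) := (Order.lt_succ μ).trans_le (Order.le_succ _)
  have hne : ∀ i, (K i).Nonempty := by
    intro i
    rw [nonempty_iff_ne_empty]
    rintro h
    have h1 := hK i
    rw [h] at h1
    simp only [mk_eq_zero, nonpos_iff_eq_zero] at h1
    exact absurd h1 (Order.bot_lt_succ _).ne'
  obtain ⟨x₀, -⟩ := hne i₀
  choose B hB1 hB2 using fun i => exists_bad hμ F hF (K i) (hK i)
  let BB : Set X := ⋃ i, B i
  have hBB : #BB ≤ μ := mk_biUnion_le_of hμ _ hI hB1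
  let P : (i : I) → ((j : I) → j < i → X) → X → Prop := fun i ih z =>
    z ∈ K i ∧ z ∉ BB ∧ (∀ j (h : j < i), ih j h ∉ F z) ∧ ∀ j (h : j < i), z ∉ F (ih j h)
  let y : I → X := WellFounded.fix (wellFounded_lt (α := I))
    (fun i ih => if h : ∃ z, P i ih z then h.choose else x₀)
  have hy : ∀ i, y i = if h : ∃ z, P i (fun j _ => y j) z then h.choose else x₀ :=
    fun i => WellFounded.fix_eq _ _ _
  have key : ∀ i, P i (fun j _ => y j) (y i) := by
    intro i
    induction i using WellFoundedLT.induction with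
    | ind i ih =>
      have hex : ∃ z, P i (fun j _ => y j) z := by
        let Q : Set X := ⋃ j : Iio i, {y j.1}
        have hIi : #(Iio i) ≤ μ := (mk_le_of_injective Subtype.val_injective).trans hI
        have hQ : #Q ≤ μ := mk_biUnion_le_of hμ _ hIi fun j => by
          rw [mk_singleton]
          exact one_le_aleph0.trans hμ
        have hQB : Disjoint Q (B i) := by
          rw [disjoint_left]
          intro z hz hzB
          obtain ⟨j, hj⟩ := mem_iUnion.mp hz
          rw [mem_singleton_iff] at hj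
          subst hj
          exact (ih j.1 j.2).2.1 (mem_iUnion.mpr ⟨i, hzB⟩)
        have h1 := hB2 i Q hQ hQB
        let R : Set X := BB ∪ ⋃ j : Iio i, F (y j.1)
        have hR : #R ≤ μ := by
          refine (mk_union_le _ _).trans ?_
          refine (add_le_add hBB (mk_biUnion_le_of hμ _ hIi fun j => hF _)).trans ?_
          rw [add_eq_self hμ]
        obtain ⟨z, hz1, hz2⟩ : ∃ z ∈ {y : X | y ∈ K i ∧ Disjoint (F y) Q}, z ∉ R := by
          by_contra hcon
          push Not at hcon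
          exact absurd (h1.trans_le ((mk_le_mk_of_subset hcon).trans hR)) (lt_irrefl _)
        refine ⟨z, hz1.1, fun h => hz2 (Or.inl h), fun j hj hzj => ?_, fun j hj hzj => ?_⟩
        · exact disjoint_left.mp hz1.2 hzj (mem_iUnion.mpr ⟨⟨j, hj⟩, rfl⟩)
        · exact hz2 (Or.inr (mem_iUnion.mpr ⟨⟨j, hj⟩, hzj⟩))
      rw [hy i, dif_pos hex]
      exact hex.choose_spec
  refine ⟨y, fun i => (key i).1, fun i j hij => ?_⟩
  rcases lt_or_gt_of_ne hij with h | h
  · exact (key j).2.2.1 i h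
  · exact (key i).2.2.2 j h

/-- The set mappings used for one colour. -/
theorem exists_setMapping [LinearOrder X] [WellFoundedLT X] {μ : Cardinal.{u}} (hμ : ℵ₀ ≤ μ)
    (G K : X → Set X) (hG : ∀ β, #(G β) ≤ μ) (hK : ∀ ξ, Order.succ (Order.succ μ) ≤ #(K ξ)) :
    ∃ F : X → Set X, (∀ β, F β ⊆ Iio β) ∧ (∀ β, ∀ α ∈ F β, Disjoint (F α) (F β)) ∧
      ∀ β, ∀ ξ ∈ G β, K ξ ⊆ Iio β → (K ξ ∩ F β).Nonempty := by
  classical
  let P : (β : X) → ((α : X) → α < β → Set X) → Set X → Prop := fun β ih Q =>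
    Q ⊆ Iio β ∧ #Q ≤ μ ∧ (∀ α (h : α < β), α ∈ Q → Disjoint (ih α h) Q) ∧
      ∀ ξ ∈ G β, K ξ ⊆ Iio β → (K ξ ∩ Q).Nonempty
  let F : X → Set X := WellFounded.fix (wellFounded_lt (α := X))
    (fun β ih => if h : ∃ Q, P β ih Q then h.choose else ∅)
  have hF : ∀ β, F β = if h : ∃ Q, P β (fun α _ => F α) Q then h.choose else ∅ :=
    fun β => WellFounded.fix_eq _ _ _
  have key : ∀ β, P β (fun α _ => F α) (F β) := by
    intro β
    induction β using WellFoundedLT.induction with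
    | ind β ih =>
      have hex : ∃ Q, P β (fun α _ => F α) Q := by
        let F' : X → Set X := fun y => if y < β then F y else ∅
        have hF' : ∀ y, #(F' y) ≤ μ := by
          intro y
          by_cases h : y < β
          · simp only [F', if_pos h]
            exact (ih y h).2.1
          · simp only [F', if_neg h]
            simp
        let I : Set X := {ξ | ξ ∈ G β ∧ K ξ ⊆ Iio β}
        have hI : #I ≤ μ := (mk_le_mk_of_subset fun ξ hξ => hξ.1).trans (hG β)
        obtain ⟨y, hy1, hy2⟩ := exists_transversal hμ F' hF' (I := I) hI (fun i => K i.1)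
          (fun i => hK i.1)
        refine ⟨range y, ?_, mk_range_le.trans hI, ?_, ?_⟩
        · rintro _ ⟨i, rfl⟩
          exact i.2.2 (hy1 i)
        · intro α hα hαQ
          obtain ⟨i, rfl⟩ := hαQ
          rw [disjoint_left]
          rintro _ hz ⟨j, rfl⟩
          by_cases hij : j = i
          · subst hij
            exact lt_irrefl _ ((ih _ hα).1 hz)
          · have := hy2 j i hij
            simp only [F', if_pos hα] at this
            exact this hz
        · intro ξ hξ hξ'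
          exact ⟨y ⟨ξ, hξ, hξ'⟩, hy1 ⟨ξ, hξ, hξ'⟩, mem_range_self _⟩
      rw [hF β, dif_pos hex]
      exact hex.choose_spec
  refine ⟨F, fun β => (key β).1, fun β α hα => ?_, fun β => (key β).2.2.2⟩
  exact (key β).2.2.1 α ((key β).1 hα) hα


theorem exists_le_aleph {c : Cardinal.{u}} {o : Ordinal.{u}} (ho : o ≠ 0) (h : c < aleph o) :
    ∃ i < o, c ≤ aleph i := by
  rcases lt_or_ge c ℵ₀ with h1 | h1
  · exact ⟨0, pos_iff_ne_zero.mpr ho, by rw [aleph_zero]; exact h1.le⟩
  · obtain ⟨i, rfl⟩ := mem_range_aleph_iff.mpr h1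
    exact ⟨i, aleph_lt_aleph.mp h, le_rfl⟩

/-- A set of cardinality at most `ℵ_ω` is the union of countably many smaller sets. -/
theorem exists_levels {S : Set X} (hS : #S ≤ aleph Ordinal.omega0) :
    ∃ G : ℕ → Set X, (∀ n : ℕ, #(G n) ≤ aleph n) ∧ ∀ x ∈ S, ∃ n, x ∈ G n := by
  classical
  have h1 : #S ≤ #((aleph Ordinal.omega0).ord.ToType) := by rwa [mk_ord_toType]
  obtain ⟨f⟩ := h1
  let r : S → Ordinal.{u} := fun x => Ordinal.typein (α := (aleph Ordinal.omega0).ord.ToType) (· < ·) (f x)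
  have hr : Function.Injective r := by
    intro x y h
    exact f.injective (Ordinal.typein_injective _ h)
  refine ⟨fun n => {x | ∃ h : x ∈ S, r ⟨x, h⟩ < (aleph n).ord}, fun n => ?_, fun x hx => ?_⟩
  · have : #{x | ∃ h : x ∈ S, r ⟨x, h⟩ < (aleph n).ord} ≤ #((aleph n).ord.ToType) := by
      refine ⟨⟨fun x => Ordinal.enum (α := (aleph n).ord.ToType) (· < ·)
        ⟨r ⟨x.1, x.2.1⟩, ?_⟩, ?_⟩⟩
      · show r ⟨x.1, x.2.1⟩ < Ordinal.type _
        rw [Ordinal.type_toType]
        exact x.2.2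
      · rintro ⟨x, hx1, hx2⟩ ⟨y, hy1, hy2⟩ h
        have h := (Ordinal.enum_inj).mp h
        have h : r ⟨x, hx1⟩ = r ⟨y, hy1⟩ := congrArg Subtype.val h
        have := hr h
        simp only [Subtype.mk.injEq] at this
        exact Subtype.ext this
    rwa [mk_ord_toType] at this
  · have h2 : r ⟨x, hx⟩ < (aleph Ordinal.omega0).ord := Ordinal.typein_lt_self _
    have h3 : (r ⟨x, hx⟩).card < aleph Ordinal.omega0 := by rwa [← lt_ord]
    obtain ⟨o, ho, h4⟩ := exists_le_aleph Ordinal.omega0_ne_zero h3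
    obtain ⟨n, rfl⟩ := Ordinal.lt_omega0.mp ho
    refine ⟨n + 1, hx, ?_⟩
    rw [lt_ord]
    refine h4.trans_lt ?_
    rw [aleph_lt_aleph]
    exact_mod_cast Nat.lt_succ_self n

/-- Erdős–Hajnal–Rado: if `2^ℵ_ω = ℵ_{ω+1}` there is a colouring of the pairs of `ℵ_{ω+1}` with
countably many colours whose nonzero classes are triangle-free, without `0`-homogeneous sets of full
cardinality. -/
theorem exists_pairColouring (hpow : (2 : Cardinal.{u}) ^ aleph Ordinal.omega0.{u} =
    aleph (Ordinal.omega0.{u} + 1)) (T : Type u) [LinearOrder T] [WellFoundedLT T]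
    (hT : #T = aleph (Ordinal.omega0.{u} + 1)) (hT' : ∀ β : T, #(Iio β) ≤ aleph Ordinal.omega0.{u}) :
    ∃ g : T → T → ℕ, (∀ α β γ, α < β → β < γ → ∀ n, n ≠ 0 → g α β = n → g α γ = n → g β γ ≠ n) ∧
      ∀ Z : Set T, (∀ x, ∃ z ∈ Z, x < z) → ∃ α ∈ Z, ∃ β ∈ Z, α < β ∧ g α β ≠ 0 := by
  classical
  set lam : Cardinal.{u} := aleph Ordinal.omega0.{u} with hlam
  have hlam0 : ℵ₀ ≤ lam := aleph0_le_aleph _
  have hsucc : aleph (Ordinal.omega0.{u} + 1) = Order.succ lam := by rw [hlam, ← succ_aleph]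
  rw [hsucc] at hpow hT
  -- enumeration of the subsets of cardinality at most `lam`
  have hcode : #{K : Set T // #K ≤ lam} ≤ #T := by
    refine (mk_bounded_set_le T lam).trans ?_
    rw [hT, max_eq_left (hlam0.trans (Order.le_succ _)), ← hpow, ← power_mul, mul_eq_self hlam0]
  obtain ⟨code⟩ := hcode
  have hbig : ∀ n : ℕ, Order.succ (Order.succ (aleph (n : Ordinal.{u}))) ≤ lam := by
    intro n
    rw [succ_aleph, succ_aleph, hlam, aleph_le_aleph]
    have : ((n : Ordinal.{u}) + 1 + 1) = ((n + 1 + 1 : ℕ) : Ordinal.{u}) := by push_cast; rfl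
    rw [this]
    exact (Ordinal.natCast_lt_omega0 _).le
  let K : T → Set T := fun ξ => if h : ∃ K : {K : Set T // #K ≤ lam}, code K = ξ ∧ lam ≤ #K.1 then
    h.choose.1 else univ
  have hK : ∀ ξ, lam ≤ #(K ξ) := by
    intro ξ
    by_cases h : ∃ K : {K : Set T // #K ≤ lam}, code K = ξ ∧ lam ≤ #K.1
    · simp only [K, dif_pos h]
      exact h.choose_spec.2
    · simp only [K, dif_neg h]
      rw [mk_univ, hT]
      exact Order.le_succ _
  have hKc : ∀ S : Set T, #S = lam → ∃ ξ, K ξ = S := by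
    intro S hS
    have h : ∃ K : {K : Set T // #K ≤ lam}, code K = code ⟨S, hS.le⟩ ∧ lam ≤ #K.1 :=
      ⟨⟨S, hS.le⟩, rfl, hS.ge⟩
    refine ⟨code ⟨S, hS.le⟩, ?_⟩
    simp only [K, dif_pos h]
    have := code.injective h.choose_spec.1
    rw [this]
  choose G hG1 hG2 using fun β : T => exists_levels (hT' β)
  choose F hF1 hF2 hF3 using fun n : ℕ => exists_setMapping (aleph0_le_aleph (n : Ordinal.{u}))
    (fun β => G β n) K (fun β => hG1 β n) (fun ξ => (hbig n).trans (hK ξ))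
  let g : T → T → ℕ := fun α β => if h : ∃ n, α ∈ F n β then Nat.find h + 1 else 0
  have hg : ∀ α β n, g α β = n + 1 → α ∈ F n β := by
    intro α β n h
    by_cases h1 : ∃ n, α ∈ F n β
    · simp only [g, dif_pos h1, Nat.add_right_cancel_iff] at h
      rw [← h]
      exact Nat.find_spec h1
    · simp only [g, dif_neg h1] at h
      omega
  refine ⟨g, ?_, ?_⟩
  · intro α β γ _ _ n hn h1 h2 h3
    obtain ⟨m, rfl⟩ := Nat.exists_eq_succ_of_ne_zero hn
    exact disjoint_left.mp (hF2 m γ β (hg _ _ _ h3)) (hg _ _ _ h1) (hg _ _ _ h2)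
  · intro Z hZ
    have hZc : lam ≤ #Z := by
      by_contra hcon
      push Not at hcon
      have h1 : (⋃ z : Z, Iic z.1) = Set.univ := by
        rw [eq_univ_iff_forall]
        intro x
        obtain ⟨z, hz, hxz⟩ := hZ x
        exact mem_iUnion.mpr ⟨⟨z, hz⟩, hxz.le⟩
      have h2 : #(⋃ z : Z, Iic z.1 : Set T) ≤ lam := by
        refine mk_biUnion_le_of hlam0 _ hcon.le fun z => ?_
        rw [← Iio_insert]
        refine (mk_insert_le).trans ?_
        refine (add_le_add (hT' _) (one_le_aleph0.trans hlam0)).trans ?_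
        rw [add_eq_self hlam0]
      rw [h1, mk_univ, hT] at h2
      exact absurd h2 (not_le.mpr (Order.lt_succ _))
    obtain ⟨S, hSZ, hS⟩ := le_mk_iff_exists_subset.mp hZc
    obtain ⟨ξ, hξ⟩ := hKc S hS
    -- `S` is bounded
    obtain ⟨b, hb⟩ : ∃ b, S ⊆ Iio b := by
      by_contra hcon
      push Not at hcon
      have h1 : (⋃ z : S, Iic z.1) = Set.univ := by
        rw [eq_univ_iff_forall]
        intro x
        obtain ⟨z, hz, hzx⟩ := not_subset.mp (hcon x)
        exact mem_iUnion.mpr ⟨⟨z, hz⟩, not_lt.mp hzx⟩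
      have h2 : #(⋃ z : S, Iic z.1 : Set T) ≤ lam := by
        refine mk_biUnion_le_of hlam0 _ hS.le fun z => ?_
        rw [← Iio_insert]
        refine (mk_insert_le).trans ?_
        refine (add_le_add (hT' _) (one_le_aleph0.trans hlam0)).trans ?_
        rw [add_eq_self hlam0]
      rw [h1, mk_univ, hT] at h2
      exact absurd h2 (not_le.mpr (Order.lt_succ _))
    obtain ⟨β, hβZ, hβ⟩ := hZ (max b ξ)
    obtain ⟨n, hn⟩ := hG2 β ξ ((le_max_right _ _).trans_lt hβ)
    obtain ⟨α, hα1, hα2⟩ := hF3 n β ξ hn (by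
      rw [hξ]
      exact hb.trans (Iio_subset_Iio ((le_max_left _ _).trans hβ.le)))
    rw [hξ] at hα1
    refine ⟨α, hSZ hα1, β, hβZ, hF1 n β hα2, ?_⟩
    have h1 : ∃ n, α ∈ F n β := ⟨n, hα2⟩
    simp only [g, dif_pos h1]
    omega

end PairColouring

/-- Normalised sequences, defined at all ordinals below `L`. -/
structure CSq (C : Ordinal.{0} → Set Ordinal.{0}) (L : Ordinal.{0}) (κ : Cardinal.{0}) : Prop where
  sub : ∀ α < L, ∀ x ∈ C α, x < α
  unb : ∀ α < L, ∀ x < α, ∃ y ∈ C α, x ≤ y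
  closed : ∀ α < L, ∀ β < α, IsAcc (C α) β → β ∈ C α
  small : ∀ α < L, ∀ a < α, #(C α ∩ Iio a : Set Ordinal.{0}) < Cardinal.lift.{1} κ
  coh : ∀ α < L, ∀ β < α, IsAcc (C α) β → β.cof = ℵ₀ → C β = C α ∩ Iio β

theorem SquareOmega.exists_csq {κ : Cardinal.{0}} (hκ : ℵ₀ ≤ κ) (h : SquareOmega κ) :
    ∃ C, CSq C (Order.succ κ).ord κ := by
  classical
  obtain ⟨C, hC⟩ := h
  let C' : Ordinal.{0} → Set Ordinal.{0} := fun α =>
    if Order.IsSuccLimit α then C α else {x | Order.succ x = α}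
  have hlim : ∀ α, Order.IsSuccLimit α → C' α = C α := fun α h => if_pos h
  have hnl : ∀ α, ¬ Order.IsSuccLimit α → C' α = {x | Order.succ x = α} := fun α h => if_neg h
  have hnacc : ∀ α β, ¬ Order.IsSuccLimit α → ¬ IsAcc (C' α) β := by
    intro α β h hacc
    rw [hnl α h] at hacc
    obtain ⟨y, hy, -, h2⟩ := hacc.2 0 (pos_iff_ne_zero.mpr hacc.1)
    obtain ⟨z, hz, h3, h4⟩ := hacc.2 y h2
    have : Order.succ y = Order.succ z :=
      (show Order.succ y = α from hy).trans (show Order.succ z = α from hz).symm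
    exact absurd (Order.succ_eq_succ_iff.mp this) h3.ne
  have hacclim : ∀ S : Set Ordinal.{0}, ∀ β, IsAcc S β → Order.IsSuccLimit β := by
    intro S β h
    rcases Ordinal.zero_or_succ_or_isSuccLimit β with h0 | ⟨b, hb⟩ | h0
    · exact absurd h0 h.1
    · exfalso
      have hb' : b < β := by rw [← hb]; exact Order.lt_succ b
      obtain ⟨y, -, h1, h2⟩ := h.2 b hb'
      rw [← hb] at h2
      exact absurd (Order.lt_succ_iff.mp h2) (not_le.mpr h1)
    · exact h0
  refine ⟨C', ?_, ?_, ?_, ?_, ?_⟩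
  · intro α hα x hx
    by_cases h : Order.IsSuccLimit α
    · rw [hlim α h] at hx
      exact (hC α hα h).1.sub x hx
    · rw [hnl α h] at hx
      have : Order.succ x = α := hx
      rw [← this]
      exact Order.lt_succ x
  · intro α hα x hx
    by_cases h : Order.IsSuccLimit α
    · rw [hlim α h]
      obtain ⟨y, hy, hxy⟩ := (hC α hα h).1.unbdd x hx
      exact ⟨y, hy, hxy.le⟩
    · rw [hnl α h]
      rcases Ordinal.zero_or_succ_or_isSuccLimit α with h0 | ⟨b, hb⟩ | h0
      · rw [h0] at hx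
        exact absurd hx (not_lt.mpr (zero_le))
      · refine ⟨b, ?_, ?_⟩
        · exact hb
        · rw [← hb] at hx
          exact Order.lt_succ_iff.mp hx
      · exact absurd h0 h
  · intro α hα β hβ hacc
    by_cases h : Order.IsSuccLimit α
    · rw [hlim α h] at hacc ⊢
      exact (hC α hα h).1.closed β hβ hacc
    · exact absurd hacc (hnacc α β h)
  · intro α hα a ha
    by_cases h : Order.IsSuccLimit α
    · rw [hlim α h]
      obtain ⟨hclub, htype, -⟩ := hC α hα h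
      obtain ⟨y, hy, hay⟩ := hclub.unbdd a ha
      have h1 : Ordinal.typein (fun x y : C α => x < y) ⟨y, hy⟩ < (Cardinal.lift.{1} κ).ord := by
        rw [← Cardinal.lift_ord]
        exact (Ordinal.typein_lt_type _ _).trans_le htype
      rw [lt_ord] at h1
      refine lt_of_le_of_lt ?_ h1
      rw [Ordinal.card_typein]
      refine ⟨⟨fun x => ⟨⟨x.1, x.2.1⟩, show x.1 < y from lt_trans x.2.2 hay⟩, ?_⟩⟩
      intro x y hxy
      have : x.1 = y.1 := congrArg (fun z => z.1.1) hxy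
      exact Subtype.ext this
    · rw [hnl α h]
      have hsub : ({x | Order.succ x = α} ∩ Iio a : Set Ordinal.{0}).Subsingleton := by
        intro x hx y hy
        exact Order.succ_eq_succ_iff.mp
          ((show Order.succ x = α from hx.1).trans (show Order.succ y = α from hy.1).symm)
      refine lt_of_le_of_lt (mk_le_one_iff_set_subsingleton.mpr hsub) ?_
      refine one_lt_aleph0.trans_le ?_
      rw [aleph0_le_lift]
      exact hκ
  · intro α hα β hβ hacc hcof
    by_cases h : Order.IsSuccLimit α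
    · rw [hlim α h] at hacc ⊢
      rw [hlim β (hacclim _ _ hacc)]
      exact (hC α hα h).2.2 β hβ hacc hcof
    · exact absurd hacc (hnacc α β h)

/-! ### The level function -/

/-- The index of the least aleph bounding the cardinality of `S`. -/
noncomputable def idx (S : Set Ordinal.{0}) : Ordinal.{0} :=
  sInf {i | #S ≤ Cardinal.lift.{1} (aleph i)}

theorem idx_mem {S : Set Ordinal.{0}} {Θ : Ordinal.{0}} (hΘ : Θ ≠ 0)
    (h : #S < Cardinal.lift.{1} (aleph Θ)) :
    #S ≤ Cardinal.lift.{1} (aleph (idx S)) ∧ idx S < Θ := by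
  obtain ⟨c, hc, hc'⟩ := Cardinal.lt_lift_iff.mp h
  have hex : ∃ i < Θ, c ≤ aleph i := by
    rcases lt_or_ge c ℵ₀ with h1 | h1
    · exact ⟨0, pos_iff_ne_zero.mpr hΘ, by rw [aleph_zero]; exact h1.le⟩
    · obtain ⟨i, rfl⟩ := mem_range_aleph_iff.mpr h1
      exact ⟨i, aleph_lt_aleph.mp hc, le_rfl⟩
  obtain ⟨i, hi, hci⟩ := hex
  have hmem : i ∈ {i | #S ≤ Cardinal.lift.{1} (aleph i)} := by
    show #S ≤ _
    rw [← hc', Cardinal.lift_le]
    exact hci
  exact ⟨csInf_mem ⟨i, hmem⟩, (csInf_le' hmem).trans_lt hi⟩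

/-- The first step of the walk from `c` to `a`. -/
noncomputable def nx (C : Ordinal.{0} → Set Ordinal.{0}) (c a : Ordinal.{0}) : Ordinal.{0} :=
  sInf {x | x ∈ C c ∧ a ≤ x}

open Classical in
/-- The level of `a` in `c`: the maximal weight along the walk from `c` to `a`. -/
noncomputable def lv (C : Ordinal.{0} → Set Ordinal.{0}) : Ordinal.{0} → Ordinal.{0} → Ordinal.{0} :=
  WellFounded.fix (wellFounded_lt (α := Ordinal.{0})) fun c ih a =>
    if h : a < c ∧ nx C c a < c then max (idx (C c ∩ Iio a)) (ih (nx C c a) h.2 a) else 0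

variable {C : Ordinal.{0} → Set Ordinal.{0}} {L Θ : Ordinal.{0}}

theorem lv_def (c a : Ordinal.{0}) : lv C c a =
    open Classical in
    if a < c ∧ nx C c a < c then max (idx (C c ∩ Iio a)) (lv C (nx C c a) a) else 0 := by
  rw [lv, WellFounded.fix_eq]
  simp only [dite_eq_ite]

theorem lv_of_le {c a : Ordinal.{0}} (h : c ≤ a) : lv C c a = 0 := by
  rw [lv_def, if_neg]
  exact fun h' => absurd h'.1 (not_lt.mpr h)

section

variable (hC : CSq C L (aleph Θ))
include hC

theorem nx_spec {c a : Ordinal.{0}} (hc : c < L) (ha : a < c) :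
    nx C c a ∈ C c ∧ a ≤ nx C c a ∧ nx C c a < c := by
  obtain ⟨y, hy, hay⟩ := hC.unb c hc a ha
  have h : nx C c a ∈ {x | x ∈ C c ∧ a ≤ x} := csInf_mem ⟨y, hy, hay⟩
  exact ⟨h.1, h.2, hC.sub c hc _ h.1⟩

omit hC in
theorem nx_le' {c a x : Ordinal.{0}} (hx : x ∈ C c) (hax : a ≤ x) : nx C c a ≤ x :=
  csInf_le' ⟨hx, hax⟩

theorem lv_eq {c a : Ordinal.{0}} (hc : c < L) (ha : a < c) :
    lv C c a = max (idx (C c ∩ Iio a)) (lv C (nx C c a) a) := by
  rw [lv_def, if_pos ⟨ha, (nx_spec hC hc ha).2.2⟩]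

theorem inter_nx {c a : Ordinal.{0}} (hc : c < L) (ha : a < c) :
    C c ∩ Iio (nx C c a) = C c ∩ Iio a := by
  ext x
  constructor
  · rintro ⟨h1, h2⟩
    refine ⟨h1, ?_⟩
    by_contra h3
    exact absurd (nx_le' h1 (not_lt.mp h3)) (not_le.mpr h2)
  · rintro ⟨h1, h2⟩
    exact ⟨h1, lt_of_lt_of_le h2 (nx_spec hC hc ha).2.1⟩

theorem lv_lt (hΘ : Θ ≠ 0) (c : Ordinal.{0}) : c < L → ∀ a, lv C c a < Θ := by
  induction c using WellFoundedLT.induction with
  | ind c ih =>
    intro hc a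
    rcases lt_or_ge a c with ha | ha
    · rw [lv_eq hC hc ha]
      exact max_lt (idx_mem hΘ (hC.small c hc a ha)).2
        (ih _ (nx_spec hC hc ha).2.2 ((nx_spec hC hc ha).2.2.trans hc) a)
    · rw [lv_of_le ha]
      exact pos_iff_ne_zero.mpr hΘ

omit hC in
/-- A set of ordinals all of whose proper initial segments are small. -/
theorem mk_le_succ_of_initial {μ : Cardinal.{1}} (S : Set Ordinal.{0})
    (hS : ∀ x ∈ S, #(S ∩ Iio x : Set Ordinal.{0}) ≤ μ) : #S ≤ Order.succ μ := by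
  by_contra hcon
  push Not at hcon
  have h1 : (Order.succ μ).ord < Ordinal.type (fun x y : S => x < y) := by
    by_contra h
    have h2 := Ordinal.card_le_card (not_lt.mp h)
    rw [Ordinal.card_type, card_ord] at h2
    exact absurd h2 (not_le.mpr hcon)
  let x := Ordinal.enum (fun x y : S => x < y) ⟨(Order.succ μ).ord, h1⟩
  have h2 : Ordinal.typein (fun x y : S => x < y) x = (Order.succ μ).ord :=
    Ordinal.typein_enum _ h1
  have h3 := congrArg Ordinal.card h2
  rw [card_ord, Ordinal.card_typein] at h3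
  have h4 : #{y : S // y < x} ≤ μ := by
    have h5 : #{y : S // y < x} ≤ #(S ∩ Iio x.1 : Set Ordinal.{0}) := by
      refine ⟨⟨fun y => ⟨y.1.1, y.1.2, y.2⟩, ?_⟩⟩
      intro y z hyz
      have hyz' := congrArg (fun w : (S ∩ Iio x.1 : Set Ordinal.{0}) => w.1) hyz
      exact Subtype.ext (Subtype.ext hyz')
    exact h5.trans (hS x.1 x.2)
  rw [h3] at h4
  exact absurd h4 (not_le.mpr (Order.lt_succ μ))

theorem lv_small (hΘ : Θ ≠ 0) (ζ : Ordinal.{0}) (c : Ordinal.{0}) : c < L →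
    #{a | a < c ∧ lv C c a ≤ ζ} ≤ Cardinal.lift.{1} (aleph (ζ + 1)) := by
  have hlift : Cardinal.lift.{1} (aleph (ζ + 1)) = Order.succ (Cardinal.lift.{1} (aleph ζ)) := by
    rw [← succ_aleph, Cardinal.lift_succ]
  have hinf : ℵ₀ ≤ Cardinal.lift.{1} (aleph (ζ + 1)) := by
    rw [aleph0_le_lift]
    exact aleph0_le_aleph _
  induction c using WellFoundedLT.induction with
  | ind c ih =>
    intro hc
    let S : Set Ordinal.{0} := {x | x ∈ C c ∧ #(C c ∩ Iio x : Set Ordinal.{0}) ≤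
      Cardinal.lift.{1} (aleph ζ)}
    have hS : #S ≤ Cardinal.lift.{1} (aleph (ζ + 1)) := by
      rw [hlift]
      refine mk_le_succ_of_initial S fun x hx => ?_
      refine (mk_le_mk_of_subset ?_).trans hx.2
      exact inter_subset_inter_left _ fun y hy => hy.1
    have hsub : {a | a < c ∧ lv C c a ≤ ζ} ⊆
        ⋃ x : S, ({x.1} ∪ {a | a < x.1 ∧ lv C x.1 a ≤ ζ}) := by
      rintro a ⟨ha, hle⟩
      rw [lv_eq hC hc ha] at hle
      obtain ⟨h1, h2, h3⟩ := nx_spec hC hc ha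
      have hxS : nx C c a ∈ S := by
        refine ⟨h1, ?_⟩
        rw [inter_nx hC hc ha]
        refine (idx_mem hΘ (hC.small c hc a ha)).1.trans ?_
        rw [Cardinal.lift_le, aleph_le_aleph]
        exact (le_max_left _ _).trans hle
      refine mem_iUnion.mpr ⟨⟨_, hxS⟩, ?_⟩
      rcases h2.eq_or_lt with h | h
      · exact Or.inl h
      · exact Or.inr ⟨h, (le_max_right _ _).trans hle⟩
    refine (mk_le_mk_of_subset hsub).trans ?_
    refine (mk_iUnion_le_sum_mk).trans ((sum_le_mk_mul_iSup _).trans ?_)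
    refine (mul_le_mul' hS (ciSup_le' fun x => ?_)).trans (mul_eq_self hinf).le
    refine (mk_union_le _ _).trans ?_
    rw [mk_singleton]
    have hx := hC.sub c hc x.1 x.2.1
    refine (add_le_add (one_le_aleph0.trans hinf) (ih x.1 hx (hx.trans hc))).trans ?_
    rw [add_eq_self hinf]

/-- Local coherence of the level function at points of countable cofinality. -/
theorem lv_local (γ : Ordinal.{0}) (hγ : Order.IsSuccLimit γ) (hcof : γ.cof = ℵ₀)
    (c : Ordinal.{0}) : c < L → γ < c →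
    ∃ γ' < γ, ∃ u, ∀ a, γ' ≤ a → a < γ → lv C c a = max u (lv C γ a) := by
  induction c using WellFoundedLT.induction with
  | ind c ih =>
    intro hc hγc
    obtain ⟨h1, h2, h3⟩ := nx_spec hC hc hγc
    have hγ0 : 0 < γ := hγ.bot_lt
    by_cases hacc : IsAcc (C c) γ
    · have hcoh := hC.coh c hc γ hγc hacc hcof
      refine ⟨0, hγ0, 0, fun a _ ha => ?_⟩
      rw [lv_eq hC hc (ha.trans hγc), lv_eq hC (hγc.trans hc) ha]
      have e1 : C γ ∩ Iio a = C c ∩ Iio a := by
        rw [hcoh, inter_assoc, Iio_inter_Iio, min_eq_right ha.le]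
      have e2 : nx C c a = nx C γ a := by
        obtain ⟨y, hy, hay, hyγ⟩ := hacc.2 a ha
        have hlt : nx C c a < γ := (nx_le' hy hay.le).trans_lt hyγ
        obtain ⟨n1, n2, -⟩ := nx_spec hC hc (ha.trans hγc)
        obtain ⟨m1, m2, -⟩ := nx_spec hC (hγc.trans hc) ha
        refine le_antisymm (nx_le' ?_ m2) (nx_le' ?_ n2)
        · rw [hcoh] at m1
          exact m1.1
        · rw [hcoh]
          exact ⟨n1, hlt⟩
      rw [e1, e2]
      simp
    · have hex : ∃ x₀ < γ, ∀ y ∈ C c, x₀ < y → γ ≤ y := by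
        by_contra hcon
        push Not at hcon
        exact hacc ⟨hγ0.ne', hcon⟩
      obtain ⟨x₀, hx₀, hgap⟩ := hex
      have hnx : ∀ a, x₀ < a → a < γ → nx C c a = nx C c γ := by
        intro a ha haγ
        obtain ⟨n1, n2, -⟩ := nx_spec hC hc (haγ.trans hγc)
        exact le_antisymm (nx_le' h1 (haγ.le.trans h2))
          (nx_le' n1 (hgap _ n1 (ha.trans_le n2)))
      have hint : ∀ a, x₀ < a → a < γ → C c ∩ Iio a = C c ∩ Iio γ := by
        intro a ha haγ
        rw [← inter_nx hC hc (haγ.trans hγc), hnx a ha haγ, inter_nx hC hc hγc]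
      rcases h2.eq_or_lt with heq | hlt
      · refine ⟨Order.succ x₀, hγ.succ_lt hx₀, idx (C c ∩ Iio γ), fun a ha haγ => ?_⟩
        have ha' : x₀ < a := (Order.lt_succ _).trans_le ha
        rw [lv_eq hC hc (haγ.trans hγc), hnx a ha' haγ, ← heq, hint a ha' haγ]
      · obtain ⟨γ', hγ', u, hu⟩ := ih _ h3 (h3.trans hc) hlt
        refine ⟨max (Order.succ x₀) γ', max_lt (hγ.succ_lt hx₀) hγ',
          max (idx (C c ∩ Iio γ)) u, fun a ha haγ => ?_⟩
        have ha' : x₀ < a := (Order.lt_succ _).trans_le ((le_max_left _ _).trans ha)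
        rw [lv_eq hC hc (haγ.trans hγc), hnx a ha' haγ, hint a ha' haγ,
          hu a ((le_max_right _ _).trans ha) haγ, max_assoc]

end

/-- Symmetrised colouring, `0` on the diagonal. -/
noncomputable def sy (g : Ordinal.{0} → Ordinal.{0} → ℕ) (p q : Ordinal.{0}) : ℕ :=
  open Classical in if p < q then g p q else if q < p then g q p else 0

theorem sy_of_lt {g : Ordinal.{0} → Ordinal.{0} → ℕ} {p q : Ordinal.{0}} (h : p < q) :
    sy g p q = g p q := by simp [sy, h]

theorem sy_comm (g : Ordinal.{0} → Ordinal.{0} → ℕ) (p q : Ordinal.{0}) :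
    sy g p q = sy g q p := by
  rcases lt_trichotomy p q with h | h | h
  · simp [sy, h, h.not_gt]
  · simp [h]
  · simp [sy, h, h.not_gt]

/-- The combinatorial core: no set of order type `ω_Θ` is `0`-homogeneous for both colourings. -/
theorem core {L Θ : Ordinal.{0}} {h : Ordinal.{0} → Ordinal.{0} → Ordinal.{0}}
    {g : Ordinal.{0} → Ordinal.{0} → ℕ}
    (hΘlim : Order.IsSuccLimit Θ)
    (hΘω : ∀ f : ℕ → Ordinal.{0}, (∀ n, f n < Θ) → ∃ b < Θ, ∀ n, f n ≤ b)
    (hΘreg : ∀ p < Θ, ∀ f : Ordinal.{0} → Ordinal.{0}, (∀ q ≤ p, f q < Θ) →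
      ∃ b < Θ, ∀ q ≤ p, f q ≤ b)
    (h1 : ∀ c < L, ∀ a, h c a < Θ)
    (h2 : ∀ c < L, ∀ ζ < Θ, #{a | a < c ∧ h c a ≤ ζ} ≤ Cardinal.lift.{1} (aleph (ζ + 1)))
    (h3 : ∀ γ, Order.IsSuccLimit γ → γ.cof = ℵ₀ → ∀ c < L, γ < c →
      ∃ γ' < γ, ∃ u, ∀ a, γ' ≤ a → a < γ → h c a = max u (h γ a))
    (hg : ∀ Z : Set Ordinal.{0}, (∀ z ∈ Z, z < Θ) → (∀ p < Θ, ∃ z ∈ Z, p < z) →
      ∃ p ∈ Z, ∃ q ∈ Z, p < q ∧ g p q ≠ 0)
    {x : Ordinal.{0} → Ordinal.{0}} {d : Ordinal.{0}} (hd : d < L)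
    (hx : ∀ ξ η, ξ < η → η < (aleph Θ).ord → x ξ < x η)
    (hxd : ∀ ξ < (aleph Θ).ord, x ξ < d)
    (f1 : ∀ ξ η ρ, ξ < η → η < ρ → ρ < (aleph Θ).ord → sy g (h (x ρ) (x ξ)) (h (x ρ) (x η)) = 0)
    (f4 : ∀ ξ η ρ, ξ < η → η < ρ → ρ < (aleph Θ).ord → sy g (h (x η) (x ξ)) (h (x ρ) (x ξ)) = 0) :
    False := by
  classical
  have hω : ∀ {i j : Ordinal.{0}}, i < j → (aleph i).ord < (aleph j).ord := fun h =>
    ord_lt_ord.mpr (aleph_lt_aleph.mpr h)
  have hωle : ∀ {i j : Ordinal.{0}}, i ≤ j → (aleph i).ord ≤ (aleph j).ord := fun h =>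
    ord_le_ord.mpr (aleph_le_aleph.mpr h)
  have hxle : ∀ ξ η, ξ ≤ η → η < (aleph Θ).ord → x ξ ≤ x η := by
    intro ξ η hle hη
    rcases hle.eq_or_lt with e | e
    · rw [e]
    · exact (hx ξ η e hη).le
  -- representatives of the blocks
  have S1 : ∀ j < Θ, ∃ ξ, (aleph (j + 1)).ord ≤ ξ ∧ ξ < (aleph (j + 1 + 1)).ord ∧ j < h d (x ξ) := by
    intro j hj
    by_contra hcon
    push Not at hcon
    have hj2 : j + 1 + 1 < Θ := by
      have := hΘlim.succ_lt (hΘlim.succ_lt hj)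
      simpa using this
    have hadd : ∀ ξ < (aleph (j + 1 + 1)).ord, (aleph (j + 1)).ord + ξ < (aleph (j + 1 + 1)).ord := by
      intro ξ hξ
      exact (Ordinal.isPrincipal_add_ord (aleph0_le_aleph _)) (hω (by simp)) hξ
    have hle : #(Iio (aleph (j + 1 + 1)).ord) ≤ #{a | a < d ∧ h d a ≤ j} := by
      refine ⟨⟨fun ξ => ⟨x ((aleph (j + 1)).ord + ξ.1), ?_, ?_⟩, ?_⟩⟩
      · exact hxd _ ((hadd ξ.1 ξ.2).trans (hω hj2))
      · exact hcon _ (le_self_add) (hadd ξ.1 ξ.2)
      · intro ξ η he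
        have he' := congrArg (fun w : ({a | a < d ∧ h d a ≤ j} : Set Ordinal.{0}) => w.1) he
        have he' : x ((aleph (j + 1)).ord + ξ.1) = x ((aleph (j + 1)).ord + η.1) := he'
        refine Subtype.ext ?_
        rcases lt_trichotomy ξ.1 η.1 with h' | h' | h'
        · have := hx _ _ ((add_lt_add_iff_left (aleph (j + 1)).ord).mpr h')
            ((hadd η.1 η.2).trans (hω hj2))
          exact absurd he' this.ne
        · exact h'
        · have := hx _ _ ((add_lt_add_iff_left (aleph (j + 1)).ord).mpr h')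
            ((hadd ξ.1 ξ.2).trans (hω hj2))
          exact absurd he' this.ne'
    rw [mk_Iio_ordinal, card_ord] at hle
    have := hle.trans (h2 d hd j hj)
    rw [Cardinal.lift_le, aleph_le_aleph] at this
    exact absurd this (not_le.mpr (by simp))
  choose! X hX1 hX2 hX3 using S1
  -- rows are bounded
  have S2 : ∀ ξ < (aleph Θ).ord, ∃ s < Θ, ∀ η, ξ < η → η < (aleph Θ).ord → h (x η) (x ξ) ≤ s := by
    intro ξ hξ
    by_contra hcon
    push Not at hcon
    obtain ⟨p, ⟨η, hη1, hη2, hp⟩, q, ⟨η', hη1', hη2', hq⟩, hpq, hne⟩ :=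
      hg {p | ∃ η, ξ < η ∧ η < (aleph Θ).ord ∧ h (x η) (x ξ) = p} (by
        rintro p ⟨η, hη1, hη2, rfl⟩
        exact h1 _ ((hxd _ hη2).trans hd) _) (by
        intro p hp
        obtain ⟨η, hη1, hη2, hη3⟩ := hcon p hp
        exact ⟨_, ⟨η, hη1, hη2, rfl⟩, hη3⟩)
    rcases lt_trichotomy η η' with hlt | heq | hgt
    · have := f4 ξ η η' hη1 hlt hη2'
      rw [hp, hq, sy_of_lt hpq] at this
      exact hne this
    · rw [heq, hq] at hp
      exact absurd hp hpq.ne'
    · have := f4 ξ η' η hη1' hgt hη2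
      rw [hp, hq, sy_comm, sy_of_lt hpq] at this
      exact hne this
  choose! s hs1 hs2 using S2
  have hXκ : ∀ j < Θ, X j < (aleph Θ).ord := fun j hj => by
    have hj2 : j + 1 + 1 < Θ := by
      have := hΘlim.succ_lt (hΘlim.succ_lt hj)
      simpa using this
    exact (hX2 j hj).trans (hω hj2)
  let P : Ordinal.{0} → Ordinal.{0} → Prop := fun i e =>
    ∀ ξ, (aleph e).ord ≤ ξ → ξ < (aleph i).ord → e < h d (x ξ) →
      h (x (aleph i).ord) (x ξ) = h d (x ξ)
  have S3 : ∀ (i : Ordinal.{0}) (f : ℕ → Ordinal.{0}), i < Θ → StrictMono f → (∀ n, f n < i) →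
      (∀ j < i, ∃ n, j < f n) → (∀ j < i, s (X j) < i ∧ h d (x (X j)) < i) → ∃ e < i, P i e := by
    intro i f hi hf hfi hcf hcl
    let γ : Ordinal.{0} := ⨆ n, x (aleph (f n)).ord
    have hbdd : BddAbove (range fun n => x (aleph (f n)).ord) := Ordinal.bddAbove_of_small
    have hiκ : (aleph i).ord < (aleph Θ).ord := hω hi
    have hfκ : ∀ n, (aleph (f n)).ord < (aleph i).ord := fun n => hω (hfi n)
    have hltγ : ∀ ξ < (aleph i).ord, x ξ < γ := by
      intro ξ hξ
      have hex : ∃ n, ξ < (aleph (f n)).ord := by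
        have hc : ξ.card < aleph i := lt_ord.mp hξ
        have hi0 : i ≠ 0 := (pos_iff_ne_zero).mp ((zero_le).trans_lt (hfi 0))
        have : ∃ k < i, ξ.card ≤ aleph k := by
          rcases lt_or_ge ξ.card ℵ₀ with h' | h'
          · exact ⟨0, pos_iff_ne_zero.mpr hi0, by rw [aleph_zero]; exact h'.le⟩
          · obtain ⟨k, hk⟩ := mem_range_aleph_iff.mpr h'
            rw [← hk] at hc ⊢
            exact ⟨k, aleph_lt_aleph.mp hc, le_rfl⟩
        obtain ⟨k, hk, hck⟩ := this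
        obtain ⟨n, hn⟩ := hcf k hk
        exact ⟨n, lt_ord.mpr (hck.trans_lt (aleph_lt_aleph.mpr hn))⟩
      obtain ⟨n, hn⟩ := hex
      exact (hx _ _ hn ((hfκ n).trans hiκ)).trans_le (le_ciSup hbdd n)
    have hγc : γ ≤ x (aleph i).ord := ciSup_le' fun n => (hx _ _ (hfκ n) hiκ).le
    have hγd : γ < d := hγc.trans_lt (hxd _ hiκ)
    have hγex : ∀ y < γ, ∃ n, y < x (aleph (f n)).ord := fun y hy => exists_lt_of_lt_ciSup' hy
    have hγlim : Order.IsSuccLimit γ := by
      rcases Ordinal.zero_or_succ_or_isSuccLimit γ with h0 | ⟨b, hb⟩ | h0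
      · have := hltγ (aleph (f 0)).ord (hfκ 0)
        rw [h0] at this
        exact absurd this (not_lt.mpr (zero_le))
      · exfalso
        obtain ⟨n, hn⟩ := hγex b (by rw [← hb]; exact Order.lt_succ b)
        have := hltγ _ (hfκ n)
        rw [← hb] at this
        exact absurd (Order.lt_succ_iff.mp this) (not_le.mpr hn)
      · exact h0
    have hγcof : γ.cof = ℵ₀ := by
      have hm : StrictMono fun n => x (aleph (f n)).ord := by
        intro m n hmn
        exact hx _ _ (hω (hf hmn)) ((hfκ n).trans hiκ)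
      have e := Ordinal.cof_iSup hm
      rw [Order.cof_eq_aleph0] at e
      exact e
    -- coherence with `d` and with `x (ω_i)`
    obtain ⟨γ₁, hγ₁, v, hv⟩ := h3 γ hγlim hγcof d hd hγd
    have hcc : ∃ γ' < γ, ∃ u, ∀ a, γ' ≤ a → a < γ → h (x (aleph i).ord) a = max u (h γ a) := by
      rcases hγc.eq_or_lt with e | e
      · refine ⟨0, hγlim.bot_lt, 0, fun a _ _ => ?_⟩
        rw [← e]
        simp
      · exact h3 γ hγlim hγcof _ ((hxd _ hiκ).trans hd) e
    obtain ⟨γ₂, hγ₂, u, hu⟩ := hcc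
    obtain ⟨n, hn⟩ := hγex (max γ₁ γ₂) (max_lt hγ₁ hγ₂)
    -- the test point
    have hj : f n < i := hfi n
    have hXi : X (f n) < (aleph i).ord := by
      refine (hX2 _ (hj.trans hi)).trans ?_
      apply hω
      have hilim : Order.IsSuccLimit i := by
        rcases Ordinal.zero_or_succ_or_isSuccLimit i with h0 | ⟨b, hb⟩ | h0
        · rw [h0] at hj
          exact absurd hj (not_lt.mpr (zero_le))
        · exfalso
          obtain ⟨m, hm⟩ := hcf b (by rw [← hb]; exact Order.lt_succ b)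
          have := hfi m
          rw [← hb] at this
          exact absurd (Order.lt_succ_iff.mp this) (not_le.mpr hm)
        · exact h0
      have := hilim.succ_lt (hilim.succ_lt hj)
      simpa using this
    have hXγ : x (X (f n)) < γ := hltγ _ hXi
    have hXn : (aleph (f n)).ord ≤ X (f n) :=
      (hωle (le_self_add)).trans (hX1 _ (hj.trans hi))
    have hge : max γ₁ γ₂ ≤ x (X (f n)) :=
      hn.le.trans (hxle _ _ hXn (hXκ _ (hj.trans hi)))
    have hvlt : v < i := by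
      have e := hv _ ((le_max_left _ _).trans hge) hXγ
      have e' := (hcl _ hj).2
      rw [e] at e'
      exact (le_max_left _ _).trans_lt e'
    have hult : u < i := by
      have e := hu _ ((le_max_right _ _).trans hge) hXγ
      have e' := (hs2 (X (f n)) (hXκ _ (hj.trans hi)) (aleph i).ord hXi hiκ).trans_lt (hcl _ hj).1
      rw [e] at e'
      exact (le_max_left _ _).trans_lt e'
    refine ⟨max (f n) (max u v), max_lt hj (max_lt hult hvlt), ?_⟩
    intro ξ hξ1 hξ2 hξ3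
    have hξγ : x ξ < γ := hltγ ξ hξ2
    have hξge : max γ₁ γ₂ ≤ x ξ :=
      hn.le.trans (hxle _ _ ((hωle (le_max_left _ _)).trans hξ1) (hξ2.trans hiκ))
    have ev := hv _ ((le_max_left _ _).trans hξge) hξγ
    have eu := hu _ ((le_max_right _ _).trans hξge) hξγ
    have hvξ : v < h d (x ξ) := ((le_max_right _ _).trans (le_max_right _ _)).trans_lt hξ3
    have huξ : u < h d (x ξ) := ((le_max_left _ _).trans (le_max_right _ _)).trans_lt hξ3
    have e1 : h γ (x ξ) = h d (x ξ) := by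
      rw [ev] at hvξ ⊢
      rcases le_total v (h γ (x ξ)) with h' | h'
      · rw [max_eq_right h']
      · rw [max_eq_left h'] at hvξ
        exact absurd hvξ (lt_irrefl _)
    rw [eu, e1, max_eq_right huξ.le]
  -- a fixed bound for the exceptions
  have S4 : ∃ e < Θ, ∀ b < Θ, ∃ i, b < i ∧ i < Θ ∧ P i e := by
    by_contra hcon
    push Not at hcon
    choose! b hb1 hb2 using hcon
    have hΨ : ∀ p < Θ, ∃ q < Θ, p < q ∧ ∀ r ≤ p, b r ≤ q ∧ s (X r) < q ∧ h d (x (X r)) < q := by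
      intro p hp
      obtain ⟨B, hB, hB'⟩ := hΘreg p hp (fun r => max (b r) (max (s (X r)) (h d (x (X r))))) (by
        intro q hq
        have hqΘ := hq.trans_lt hp
        exact max_lt (hb1 q hqΘ) (max_lt (hs1 _ (hXκ q hqΘ)) (h1 d hd _)))
      refine ⟨Order.succ (max p B), hΘlim.succ_lt (max_lt hp hB), ?_, ?_⟩
      · exact Order.lt_succ_of_le (le_max_left _ _)
      · intro r hr
        have := hB' r hr
        refine ⟨?_, ?_, ?_⟩
        · exact (((le_max_left _ _).trans this).trans (le_max_right _ _)).trans (Order.le_succ _)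
        · exact Order.lt_succ_of_le
            ((((le_max_left _ _).trans (le_max_right _ _)).trans this).trans (le_max_right _ _))
        · exact Order.lt_succ_of_le
            ((((le_max_right _ _).trans (le_max_right _ _)).trans this).trans (le_max_right _ _))
    choose! Ψ hΨ1 hΨ2 hΨ3 using hΨ
    let f : ℕ → Ordinal.{0} := fun n => Ψ^[n] 0
    have hf0 : ∀ n, f n < Θ := by
      intro n
      induction n with
      | zero => exact hΘlim.bot_lt
      | succ n ih =>
        simp only [f, Function.iterate_succ_apply']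
        exact hΨ1 _ ih
    have hfs : ∀ n, f (n + 1) = Ψ (f n) := fun n => by
      simp only [f, Function.iterate_succ_apply']
    have hf : StrictMono f := strictMono_nat_of_lt_succ fun n => by
      rw [hfs]
      exact hΨ2 _ (hf0 n)
    obtain ⟨B, hB, hB'⟩ := hΘω f hf0
    have hbdd : BddAbove (range f) := ⟨B, by rintro _ ⟨n, rfl⟩; exact hB' n⟩
    let i : Ordinal.{0} := ⨆ n, f n
    have hi : i < Θ := (ciSup_le' hB').trans_lt hB
    have hfi : ∀ n, f n < i := fun n =>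
      (hf (Nat.lt_succ_self n)).trans_le (le_ciSup hbdd (n + 1))
    have hcf : ∀ j < i, ∃ n, j < f n := fun j hj => exists_lt_of_lt_ciSup' hj
    obtain ⟨e, he, hPe⟩ := S3 i f hi hf hfi hcf (by
      intro j hj
      obtain ⟨n, hn⟩ := hcf j hj
      have := hΨ3 (f n) (hf0 n) j hn.le
      rw [← hfs] at this
      exact ⟨this.2.1.trans (hfi _), this.2.2.trans (hfi _)⟩)
    obtain ⟨n, hn⟩ := hcf e he
    have := (hΨ3 (f n) (hf0 n) e hn.le).1
    rw [← hfs] at this
    exact hb2 e (he.trans hi) i (this.trans_lt (hfi _)) hi hPe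
  obtain ⟨e, he, hPe⟩ := S4
  -- the levels in `d` form a homogeneous set
  obtain ⟨p, ⟨j, hj1, hj2, rfl⟩, q, ⟨k, hk1, hk2, rfl⟩, hpq, hne⟩ :=
    hg {p | ∃ j, e < j ∧ j < Θ ∧ h d (x (X j)) = p} (by
      rintro p ⟨j, hj1, hj2, rfl⟩
      exact h1 d hd _) (by
      intro p hp
      have hm : max e p < Θ := max_lt he hp
      have hm' : Order.succ (max e p) < Θ := hΘlim.succ_lt hm
      refine ⟨_, ⟨Order.succ (max e p), Order.lt_succ_of_le (le_max_left _ _), hm', rfl⟩, ?_⟩
      exact (Order.lt_succ_of_le (le_max_right _ _)).trans (hX3 _ hm'))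
  obtain ⟨i, hi1, hi2, hPi⟩ := hPe (Order.succ (Order.succ (max j k)))
    (hΘlim.succ_lt (hΘlim.succ_lt (max_lt hj2 hk2)))
  have hiκ : (aleph i).ord < (aleph Θ).ord := hω hi2
  have hval : ∀ r, e < r → r < Θ → r ≤ max j k →
      h (x (aleph i).ord) (x (X r)) = h d (x (X r)) ∧ X r < (aleph i).ord := by
    intro r hr1 hr2 hr3
    have hXr : X r < (aleph i).ord := by
      refine (hX2 r hr2).trans (hω ?_)
      refine lt_of_le_of_lt ?_ hi1
      have : r + 1 + 1 = Order.succ (Order.succ r) := by simp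
      rw [this]
      exact Order.succ_le_succ (Order.succ_le_succ hr3)
    refine ⟨hPi _ ?_ hXr (hr1.trans (hX3 r hr2)), hXr⟩
    exact (hωle (hr1.le.trans (le_self_add))).trans (hX1 r hr2)
  obtain ⟨ej, hXj⟩ := hval j hj1 hj2 (le_max_left _ _)
  obtain ⟨ek, hXk⟩ := hval k hk1 hk2 (le_max_right _ _)
  rcases lt_trichotomy (X j) (X k) with hlt | heq | hgt
  · have := f1 (X j) (X k) (aleph i).ord hlt hXk hiκ
    rw [ej, ek, sy_of_lt hpq] at this
    exact hne this
  · rw [heq] at hpq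
    exact absurd hpq (lt_irrefl _)
  · have := f1 (X k) (X j) (aleph i).ord hgt hXj hiκ
    rw [ej, ek, sy_comm, sy_of_lt hpq] at this
    exact hne this

theorem sy_tri {g : Ordinal.{0} → Ordinal.{0} → ℕ}
    (hg : ∀ a b c, a < b → b < c → ∀ n, n ≠ 0 → g a b = n → g a c = n → g b c ≠ n)
    {m : ℕ} (hm : m ≠ 0) {p q r : Ordinal.{0}} (h1 : sy g p q = m) (h2 : sy g p r = m)
    (h3 : sy g q r = m) : False := by
  rcases lt_trichotomy p q with a | a | a
  · rcases lt_trichotomy q r with b | b | b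
    · rw [sy_of_lt a] at h1
      rw [sy_of_lt b] at h3
      rw [sy_of_lt (a.trans b)] at h2
      exact hg p q r a b m hm h1 h2 h3
    · rw [b] at h3
      simp [sy] at h3
      exact hm h3.symm
    · rcases lt_trichotomy p r with c | c | c
      · rw [sy_of_lt a] at h1
        rw [sy_comm, sy_of_lt b] at h3
        rw [sy_of_lt c] at h2
        exact hg p r q c b m hm h2 h1 h3
      · rw [c] at h2
        simp [sy] at h2
        exact hm h2.symm
      · rw [sy_of_lt a] at h1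
        rw [sy_comm, sy_of_lt b] at h3
        rw [sy_comm, sy_of_lt c] at h2
        exact hg r p q c a m hm h2 h3 h1
  · rw [a] at h1
    simp [sy] at h1
    exact hm h1.symm
  · rcases lt_trichotomy p r with b | b | b
    · rw [sy_comm, sy_of_lt a] at h1
      rw [sy_of_lt (a.trans b)] at h3
      rw [sy_of_lt b] at h2
      exact hg q p r a b m hm h1 h3 h2
    · rw [b] at h2
      simp [sy] at h2
      exact hm h2.symm
    · rcases lt_trichotomy q r with c | c | c
      · rw [sy_comm, sy_of_lt a] at h1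
        rw [sy_of_lt c] at h3
        rw [sy_comm, sy_of_lt b] at h2
        exact hg q r p c b m hm h3 h1 h2
      · rw [c] at h3
        simp [sy] at h3
        exact hm h3.symm
      · rw [sy_comm, sy_of_lt a] at h1
        rw [sy_comm, sy_of_lt c] at h3
        rw [sy_comm, sy_of_lt b] at h2
        exact hg r q p c a m hm h3 h2 h1

/-- The triple colouring obtained from a pair colouring `g` and a level function `h`
(`h c a` is the level of `a` in `c`). -/
noncomputable def tc (g : Ordinal.{0} → Ordinal.{0} → ℕ) (h : Ordinal.{0} → Ordinal.{0} → Ordinal.{0})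
    (a b c : Ordinal.{0}) : ℕ :=
  if sy g (h c a) (h c b) ≠ 0 then 2 * sy g (h c a) (h c b)
  else if sy g (h b a) (h c a) ≠ 0 then 2 * sy g (h b a) (h c a) + 1 else 0

theorem tc_eq_zero {g : Ordinal.{0} → Ordinal.{0} → ℕ}
    {h : Ordinal.{0} → Ordinal.{0} → Ordinal.{0}} {a b c : Ordinal.{0}} (H : tc g h a b c = 0) :
    sy g (h c a) (h c b) = 0 ∧ sy g (h b a) (h c a) = 0 := by
  unfold tc at H
  split_ifs at H with h1 h2
  · omega
  · exact ⟨not_not.mp h1, not_not.mp h2⟩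

theorem tc_eq {g : Ordinal.{0} → Ordinal.{0} → ℕ}
    {h : Ordinal.{0} → Ordinal.{0} → Ordinal.{0}} {a b c : Ordinal.{0}} {n : ℕ} (hn : n ≠ 0)
    (H : tc g h a b c = n) :
    (n % 2 = 0 → sy g (h c a) (h c b) = n / 2) ∧ (n % 2 = 1 → sy g (h b a) (h c a) = n / 2) := by
  unfold tc at H
  split_ifs at H with h1 h2
  · constructor
    · intro _
      omega
    · intro h3
      omega
  · constructor
    · intro h3
      omega
    · intro _
      omega
  · exact absurd H.symm hn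

/-- There are no homogeneous `4`-sets in the nonzero classes. -/
theorem tc_four {g : Ordinal.{0} → Ordinal.{0} → ℕ}
    {h : Ordinal.{0} → Ordinal.{0} → Ordinal.{0}}
    (hg : ∀ a b c, a < b → b < c → ∀ n, n ≠ 0 → g a b = n → g a c = n → g b c ≠ n)
    {x y z w : Ordinal.{0}} {n : ℕ} (hn : n ≠ 0)
    (h1 : tc g h x y z = n) (h2 : tc g h x y w = n) (h3 : tc g h x z w = n)
    (h4 : tc g h y z w = n) : False := by
  have hn2 : n / 2 ≠ 0 ∨ n = 1 := by omega
  rcases hn2 with hn2 | hn2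
  · rcases Nat.mod_two_eq_zero_or_one n with hp | hp
    · exact sy_tri hg hn2 ((tc_eq hn h2).1 hp) ((tc_eq hn h3).1 hp) ((tc_eq hn h4).1 hp)
    · exact sy_tri hg hn2 ((tc_eq hn h1).2 hp) ((tc_eq hn h2).2 hp) ((tc_eq hn h3).2 hp)
  · subst hn2
    unfold tc at h1
    split_ifs at h1 with a b
    · omega
    · omega

/-- The ordinal of an element of `L.ToType`. -/
noncomputable def vl {L : Ordinal.{0}} (a : L.ToType) : Ordinal.{0} :=
  Ordinal.typein (α := L.ToType) (· < ·) a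

theorem vl_lt {L : Ordinal.{0}} (a : L.ToType) : vl a < L := Ordinal.typein_lt_self a

theorem vl_lt_vl {L : Ordinal.{0}} {a b : L.ToType} : vl a < vl b ↔ a < b :=
  Ordinal.typein_lt_typein (α := L.ToType) (· < ·)

open Classical in
/-- The colouring of the finite subsets of `L.ToType` given by a function of triples. -/
noncomputable def col {L : Ordinal.{0}} (F : Ordinal.{0} → Ordinal.{0} → Ordinal.{0} → ℕ)
    (s : Finset L.ToType) : Option ℕ :=
  if h : s.card = 3 then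
    (if F (vl (s.orderEmbOfFin h 0)) (vl (s.orderEmbOfFin h 1)) (vl (s.orderEmbOfFin h 2)) = 0
      then none
      else some (F (vl (s.orderEmbOfFin h 0)) (vl (s.orderEmbOfFin h 1))
        (vl (s.orderEmbOfFin h 2))))
  else none

theorem card_triple {L : Ordinal.{0}} {a b c : L.ToType} (hab : a < b) (hbc : b < c) :
    ({a, b, c} : Finset L.ToType).card = 3 := by
  classical
  rw [Finset.card_eq_three]
  exact ⟨a, b, c, hab.ne, (hab.trans hbc).ne, hbc.ne, rfl⟩

theorem col_triple {L : Ordinal.{0}} (F : Ordinal.{0} → Ordinal.{0} → Ordinal.{0} → ℕ)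
    {a b c : L.ToType} (hab : a < b) (hbc : b < c) :
    col F {a, b, c} = if F (vl a) (vl b) (vl c) = 0 then none else some (F (vl a) (vl b) (vl c)) := by
  classical
  have h := card_triple hab hbc
  have e : (![a, b, c] : Fin 3 → L.ToType) = ({a, b, c} : Finset L.ToType).orderEmbOfFin h := by
    apply Finset.orderEmbOfFin_unique
    · intro i
      fin_cases i <;> simp
    · intro i j hij
      fin_cases i <;> fin_cases j <;> simp_all
      all_goals exact hab.trans hbc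
  rw [col, dif_pos h, ← e]
  rfl

theorem col_four {L : Ordinal.{0}} (F : Ordinal.{0} → Ordinal.{0} → Ordinal.{0} → ℕ) (n : ℕ)
    (hF : ∀ x y z w : Ordinal.{0}, n ≠ 0 → F x y z = n → F x y w = n → F x z w = n →
      F y z w = n → False) (H : Finset L.ToType) (hH : H.card = 4) :
    ¬ ∀ s : Finset L.ToType, s.card = 3 → s ⊆ H → col F s = some n := by
  classical
  intro hs
  have key : ∀ a b c : L.ToType, a < b → b < c → a ∈ H → b ∈ H → c ∈ H →
      F (vl a) (vl b) (vl c) = n ∧ n ≠ 0 := by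
    intro a b c hab hbc ha hb hc
    have h1 := hs {a, b, c} (card_triple hab hbc) (by
      intro t ht
      simp only [Finset.mem_insert, Finset.mem_singleton] at ht
      rcases ht with rfl | rfl | rfl
      · exact ha
      · exact hb
      · exact hc)
    rw [col_triple F hab hbc] at h1
    split_ifs at h1 with h2
    rw [Option.some.injEq] at h1
    exact ⟨h1, h1 ▸ h2⟩
  let e := H.orderEmbOfFin hH
  have hm : ∀ i, e i ∈ H := fun i => H.orderEmbOfFin_mem hH i
  have h01 : e 0 < e 1 := e.strictMono (by decide)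
  have h12 : e 1 < e 2 := e.strictMono (by decide)
  have h23 : e 2 < e 3 := e.strictMono (by decide)
  obtain ⟨k1, hn⟩ := key _ _ _ h01 h12 (hm 0) (hm 1) (hm 2)
  obtain ⟨k2, -⟩ := key _ _ _ h01 (h12.trans h23) (hm 0) (hm 1) (hm 3)
  obtain ⟨k3, -⟩ := key _ _ _ (h01.trans h12) h23 (hm 0) (hm 2) (hm 3)
  obtain ⟨k4, -⟩ := key _ _ _ h12 h23 (hm 1) (hm 2) (hm 3)
  exact hF _ _ _ _ hn k1 k2 k3 k4

/-- The pair colouring, on ordinals. -/
theorem exists_ordinalColouring (hpow : (2 : Cardinal.{0}) ^ aleph Ordinal.omega0.{0} =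
    aleph (Ordinal.omega0.{0} + 1)) :
    ∃ g : Ordinal.{0} → Ordinal.{0} → ℕ,
      (∀ a b c, a < b → b < c → ∀ n, n ≠ 0 → g a b = n → g a c = n → g b c ≠ n) ∧
      ∀ Z : Set Ordinal.{0}, (∀ z ∈ Z, z < (aleph (Ordinal.omega0.{0} + 1)).ord) →
        (∀ p < (aleph (Ordinal.omega0.{0} + 1)).ord, ∃ z ∈ Z, p < z) →
        ∃ p ∈ Z, ∃ q ∈ Z, p < q ∧ g p q ≠ 0 := by
  classical
  set Θ : Ordinal.{0} := (aleph (Ordinal.omega0.{0} + 1)).ord with hΘ
  have hT : #Θ.ToType = aleph (Ordinal.omega0.{0} + 1) := by rw [hΘ, mk_ord_toType]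
  have hT' : ∀ β : Θ.ToType, #(Iio β) ≤ aleph Ordinal.omega0.{0} := by
    intro β
    have h1 : #(Iio β) < aleph (Ordinal.omega0.{0} + 1) := mk_Iio_toType_ord_lt β
    exact Order.lt_succ_iff.mp (h1.trans_eq (succ_aleph _).symm)
  obtain ⟨g, hg1, hg2⟩ := exists_pairColouring hpow Θ.ToType hT hT'
  let en : (p : Ordinal.{0}) → p < Θ → Θ.ToType := fun p hp =>
    Ordinal.enum (α := Θ.ToType) (· < ·) ⟨p, by rwa [mem_Iio, Ordinal.type_toType]⟩
  have hen : ∀ p q (hp : p < Θ) (hq : q < Θ), p < q → en p hp < en q hq := by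
    intro p q hp hq hpq
    exact (Ordinal.enum_lt_enum (α := Θ.ToType) (r := (· < ·))).mpr hpq
  have hen2 : ∀ z : Θ.ToType, en (vl z) (vl_lt z) = z := fun z => Ordinal.enum_typein _ _
  let g' : Ordinal.{0} → Ordinal.{0} → ℕ := fun p q =>
    if h : p < Θ ∧ q < Θ then g (en p h.1) (en q h.2) else 0
  have hg' : ∀ p q (hp : p < Θ) (hq : q < Θ), g' p q = g (en p hp) (en q hq) := by
    intro p q hp hq
    simp only [g', dif_pos (And.intro hp hq)]
  refine ⟨g', ?_, ?_⟩
  · intro a b c hab hbc n hn h1 h2 h3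
    have hc : c < Θ := by
      by_contra hc
      simp only [g', hc, and_false, dite_false] at h2
      exact hn h2.symm
    have hb : b < Θ := hbc.trans hc
    have ha : a < Θ := hab.trans hb
    rw [hg' a b ha hb] at h1
    rw [hg' a c ha hc] at h2
    rw [hg' b c hb hc] at h3
    exact hg1 _ _ _ (hen _ _ ha hb hab) (hen _ _ hb hc hbc) n hn h1 h2 h3
  · intro Z hZ1 hZ2
    obtain ⟨α, hα, β, hβ, hlt, hne⟩ := hg2 {z | vl z ∈ Z} (by
      intro x
      obtain ⟨z, hz, hxz⟩ := hZ2 (vl x) (vl_lt x)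
      have hzΘ := hZ1 z hz
      refine ⟨en z hzΘ, ?_, ?_⟩
      · show vl (en z hzΘ) ∈ Z
        have : vl (en z hzΘ) = z := Ordinal.typein_enum _ _
        rwa [this]
      · rw [← vl_lt_vl]
        have : vl (en z hzΘ) = z := Ordinal.typein_enum _ _
        rwa [this])
    refine ⟨vl α, hα, vl β, hβ, vl_lt_vl.mpr hlt, ?_⟩
    rw [hg' _ _ (vl_lt α) (vl_lt β), hen2, hen2]
    exact hne

/-- Increasing enumeration of the first `κ` elements of a set of cardinality `κ`. -/
theorem exists_enum {L : Ordinal.{0}} {κ : Cardinal.{0}} (H : Set L.ToType) (hH : #H = κ) :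
    ∃ x : Ordinal.{0} → Ordinal.{0}, (∀ ξ η, ξ < η → η < κ.ord → x ξ < x η) ∧
      ∀ ξ < κ.ord, ∃ a ∈ H, vl a = x ξ := by
  classical
  let r : H → H → Prop := fun a b => a < b
  have hr : κ.ord ≤ Ordinal.type r := by
    rw [ord_le, Ordinal.card_type, hH]
  let en : (ξ : Ordinal.{0}) → ξ < κ.ord → H := fun ξ hξ =>
    Ordinal.enum r ⟨ξ, hξ.trans_le hr⟩
  refine ⟨fun ξ => if h : ξ < κ.ord then vl (en ξ h).1 else 0, ?_, ?_⟩
  · intro ξ η hξη hη
    have hξ := hξη.trans hη
    simp only [dif_pos hξ, dif_pos hη]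
    rw [vl_lt_vl]
    have : r (en ξ hξ) (en η hη) := (Ordinal.enum_lt_enum (r := r)).mpr hξη
    exact this
  · intro ξ hξ
    refine ⟨(en ξ hξ).1, (en ξ hξ).2, ?_⟩
    simp only [dif_pos hξ]

/-- `ℵ_{ω+1}` as an ordinal: regularity facts. -/
theorem theta_facts : Order.IsSuccLimit (aleph (Ordinal.omega0.{0} + 1)).ord ∧
    (∀ f : ℕ → Ordinal.{0}, (∀ n, f n < (aleph (Ordinal.omega0.{0} + 1)).ord) →
      ∃ b < (aleph (Ordinal.omega0.{0} + 1)).ord, ∀ n, f n ≤ b) ∧
    (∀ p < (aleph (Ordinal.omega0.{0} + 1)).ord, ∀ f : Ordinal.{0} → Ordinal.{0},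
      (∀ q ≤ p, f q < (aleph (Ordinal.omega0.{0} + 1)).ord) →
      ∃ b < (aleph (Ordinal.omega0.{0} + 1)).ord, ∀ q ≤ p, f q ≤ b) := by
  have hreg : (aleph (Ordinal.omega0.{0} + 1)).IsRegular := by
    rw [← succ_aleph]
    exact isRegular_succ (aleph0_le_aleph _)
  have hcof := hreg.cof_ord
  refine ⟨isSuccLimit_ord (aleph0_le_aleph _), ?_, ?_⟩
  · intro f hf
    refine ⟨⨆ n, f n, ?_, fun n => le_ciSup Ordinal.bddAbove_of_small n⟩
    refine Ordinal.iSup_lt_of_lt_cof ?_ hf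
    rw [hcof, mk_nat, aleph0_lt_aleph]
    simp
  · intro p hp f hf
    let ι := (p + 1).ToType
    have hι : ∀ i : ι, vl i ≤ p := fun i => Order.lt_add_one_iff.mp (vl_lt i)
    refine ⟨⨆ i : ι, f (vl i), ?_, fun q hq => ?_⟩
    · refine Ordinal.iSup_lt_of_lt_cof ?_ fun i => hf _ (hι i)
      rw [hcof, Cardinal.mk_toType, ← lt_ord]
      have h1 := (isSuccLimit_ord (aleph0_le_aleph (Ordinal.omega0.{0} + 1))).succ_lt hp
      rwa [← Ordinal.add_one_eq_succ] at h1
    · have hq' : q < Ordinal.type (α := ι) (· < ·) := by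
        rw [Ordinal.type_toType]
        exact Order.lt_add_one_iff.mpr hq
      have e : vl (Ordinal.enum (α := ι) (· < ·) ⟨q, hq'⟩) = q := Ordinal.typein_enum _ _
      have := le_ciSup (f := fun i : ι => f (vl i)) Ordinal.bddAbove_of_small
        (Ordinal.enum (α := ι) (· < ·) ⟨q, hq'⟩)
      simp only [e] at this
      exact this

/-- A bound for a set of cardinality `κ` in `κ⁺`. -/
theorem exists_bound {κ : Cardinal.{0}} (hκ : ℵ₀ ≤ κ) (H : Set (Order.succ κ).ord.ToType)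
    (hH : #H = κ) : ∃ d < (Order.succ κ).ord, ∀ a ∈ H, vl a < d := by
  have hreg : (Order.succ κ).IsRegular := isRegular_succ hκ
  have hlim := isSuccLimit_ord (hκ.trans (Order.le_succ κ))
  refine ⟨⨆ a : H, Order.succ (vl a.1), ?_, fun a ha => ?_⟩
  · refine Ordinal.iSup_lt_of_lt_cof ?_ fun a => hlim.succ_lt (vl_lt a.1)
    rw [hreg.cof_ord, hH]
    exact Order.lt_succ κ
  · have := le_ciSup (f := fun a : H => Order.succ (vl a.1)) Ordinal.bddAbove_of_small ⟨a, ha⟩
    exact (Order.lt_succ _).trans_le this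

/-! ### The version without square: one additional class -/

/-- A level function exists in ZFC. -/
theorem exists_level {Θ : Ordinal.{0}} (hΘ : Order.IsSuccLimit Θ) :
    ∃ h : Ordinal.{0} → Ordinal.{0} → Ordinal.{0},
    (∀ c a, h c a < Θ) ∧ ∀ c < (Order.succ (aleph Θ)).ord, ∀ ζ,
      #{a | a < c ∧ h c a ≤ ζ} ≤ Cardinal.lift.{1} (aleph ζ) := by
  classical
  have hΘ0 : 0 < Θ := hΘ.bot_lt
  have hemb : ∀ c < (Order.succ (aleph Θ)).ord, Nonempty (Iio c ↪ Iio (aleph Θ).ord) := by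
    intro c hc
    have h1 : c.card ≤ aleph Θ := Order.lt_succ_iff.mp (lt_ord.mp hc)
    have h2 : #(Iio c) ≤ #(Iio (aleph Θ).ord) := by
      rw [mk_Iio_ordinal, mk_Iio_ordinal, card_ord, Cardinal.lift_le]
      exact h1
    exact h2
  let e : ∀ c (_ : c < (Order.succ (aleph Θ)).ord), Iio c ↪ Iio (aleph Θ).ord :=
    fun c hc => (hemb c hc).some
  let h : Ordinal.{0} → Ordinal.{0} → Ordinal.{0} := fun c a =>
    if H : c < (Order.succ (aleph Θ)).ord ∧ a < c then
      sInf {i | (e c H.1 ⟨a, H.2⟩).1 < (aleph i).ord} else 0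
  have key : ∀ c a (H : c < (Order.succ (aleph Θ)).ord ∧ a < c),
      (e c H.1 ⟨a, H.2⟩).1 < (aleph (h c a)).ord ∧ h c a < Θ := by
    intro c a H
    have h1 : (e c H.1 ⟨a, H.2⟩).1 < (aleph Θ).ord := (e c H.1 ⟨a, H.2⟩).2
    have h2 : (e c H.1 ⟨a, H.2⟩).1.card < aleph Θ := lt_ord.mp h1
    have hex : ∃ i < Θ, (e c H.1 ⟨a, H.2⟩).1 < (aleph i).ord := by
      rcases lt_or_ge (e c H.1 ⟨a, H.2⟩).1.card ℵ₀ with h' | h'
      · refine ⟨0, hΘ0, ?_⟩
        rw [lt_ord, aleph_zero]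
        exact h'
      · obtain ⟨i, hi⟩ := mem_range_aleph_iff.mpr h'
        rw [← hi] at h2
        have hi2 := aleph_lt_aleph.mp h2
        refine ⟨Order.succ i, hΘ.succ_lt hi2, ?_⟩
        rw [lt_ord, ← hi]
        exact aleph_lt_aleph.mpr (Order.lt_succ i)
    obtain ⟨i, hi1, hi2⟩ := hex
    have hh : h c a = sInf {i | (e c H.1 ⟨a, H.2⟩).1 < (aleph i).ord} := by
      simp only [h, dif_pos H]
    rw [hh]
    exact ⟨csInf_mem (s := {i | (e c H.1 ⟨a, H.2⟩).1 < (aleph i).ord}) ⟨i, hi2⟩,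
      (csInf_le' (s := {i | (e c H.1 ⟨a, H.2⟩).1 < (aleph i).ord}) hi2).trans_lt hi1⟩
  refine ⟨h, ?_, ?_⟩
  · intro c a
    by_cases H : c < (Order.succ (aleph Θ)).ord ∧ a < c
    · exact (key c a H).2
    · simp only [h, dif_neg H]
      exact hΘ0
  · intro c hc ζ
    have : #{a | a < c ∧ h c a ≤ ζ} ≤ #(Iio (aleph ζ).ord) := by
      refine ⟨⟨fun a => ⟨(e c hc ⟨a.1, a.2.1⟩).1, ?_⟩, ?_⟩⟩
      · exact (key c a.1 ⟨hc, a.2.1⟩).1.trans_le (ord_le_ord.mpr (aleph_le_aleph.mpr a.2.2))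
      · intro a b hab
        have h1 : (e c hc ⟨a.1, a.2.1⟩).1 = (e c hc ⟨b.1, b.2.1⟩).1 :=
          congrArg (fun w : Iio (aleph ζ).ord => w.1) hab
        have h2 := (e c hc).injective (Subtype.ext h1)
        have h3 := congrArg (fun w : Iio c => w.1) h2
        exact Subtype.ext h3
    rwa [mk_Iio_ordinal, card_ord] at this

/-- The combinatorial core of the version without square. -/
theorem core₂ {L Θ : Ordinal.{0}} {h : Ordinal.{0} → Ordinal.{0} → Ordinal.{0}}
    {g : Ordinal.{0} → Ordinal.{0} → ℕ}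
    (hΘlim : Order.IsSuccLimit Θ)
    (hcof : ∀ p < Θ, ∀ f : Ordinal.{0} → Ordinal.{0}, (∀ q ≤ p, f q < (aleph Θ).ord) →
      ∃ b < (aleph Θ).ord, ∀ q ≤ p, f q ≤ b)
    (h1 : ∀ c a, h c a < Θ)
    (h2 : ∀ c < L, ∀ ζ, #{a | a < c ∧ h c a ≤ ζ} ≤ Cardinal.lift.{1} (aleph ζ))
    (hg : ∀ Z : Set Ordinal.{0}, (∀ z ∈ Z, z < Θ) → (∀ p < Θ, ∃ z ∈ Z, p < z) →
      ∃ p ∈ Z, ∃ q ∈ Z, p < q ∧ g p q ≠ 0)
    {x : Ordinal.{0} → Ordinal.{0}}
    (hx : ∀ ξ η, ξ < η → η < (aleph Θ).ord → x ξ < x η)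
    (hxL : ∀ ξ < (aleph Θ).ord, x ξ < L)
    (f0 : ∀ ξ η ρ, ξ < η → η < ρ → ρ < (aleph Θ).ord → h (x η) (x ξ) ≤ h (x ρ) (x ξ))
    (f1 : ∀ ξ η ρ, ξ < η → η < ρ → ρ < (aleph Θ).ord → sy g (h (x ρ) (x ξ)) (h (x ρ) (x η)) = 0)
    (f4 : ∀ ξ η ρ, ξ < η → η < ρ → ρ < (aleph Θ).ord → sy g (h (x η) (x ξ)) (h (x ρ) (x ξ)) = 0) :
    False := by
  classical
  have hω : ∀ {i j : Ordinal.{0}}, i < j → (aleph i).ord < (aleph j).ord := fun h =>
    ord_lt_ord.mpr (aleph_lt_aleph.mpr h)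
  have hκlim : Order.IsSuccLimit (aleph Θ).ord := isSuccLimit_ord (aleph0_le_aleph _)
  -- rows are eventually constant
  have S2 : ∀ ξ < (aleph Θ).ord, ∃ t < Θ, ∃ η₀ < (aleph Θ).ord, ξ < η₀ ∧
      (∀ η, η₀ ≤ η → η < (aleph Θ).ord → h (x η) (x ξ) = t) ∧
      ∀ η, ξ < η → η < (aleph Θ).ord → h (x η) (x ξ) ≤ t := by
    intro ξ hξ
    -- boundedness
    have hbd : ∃ s < Θ, ∀ η, ξ < η → η < (aleph Θ).ord → h (x η) (x ξ) ≤ s := by
      by_contra hcon
      push Not at hcon
      obtain ⟨p, ⟨η, hη1, hη2, hp⟩, q, ⟨η', hη1', hη2', hq⟩, hpq, hne⟩ :=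
        hg {p | ∃ η, ξ < η ∧ η < (aleph Θ).ord ∧ h (x η) (x ξ) = p} (by
          rintro p ⟨η, hη1, hη2, rfl⟩
          exact h1 _ _) (by
          intro p hp
          obtain ⟨η, hη1, hη2, hη3⟩ := hcon p hp
          exact ⟨_, ⟨η, hη1, hη2, rfl⟩, hη3⟩)
      rcases lt_trichotomy η η' with hlt | heq | hgt
      · have := f4 ξ η η' hη1 hlt hη2'
        rw [hp, hq, sy_of_lt hpq] at this
        exact hne this
      · rw [heq, hq] at hp
        exact absurd hp hpq.ne'
      · have := f4 ξ η' η hη1' hgt hη2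
        rw [hp, hq, sy_comm, sy_of_lt hpq] at this
        exact hne this
    obtain ⟨s, hs, hs'⟩ := hbd
    -- the least upper bound is attained
    have hmono : ∀ η η', ξ < η → η ≤ η' → η' < (aleph Θ).ord → h (x η) (x ξ) ≤ h (x η') (x ξ) := by
      intro η η' h1' h2' h3'
      rcases h2'.eq_or_lt with e | e
      · rw [e]
      · exact f0 ξ η η' h1' e h3'
    -- for each value the first place where it is exceeded
    have hex : ∀ q, ∃ η₁ < (aleph Θ).ord, (∃ η, ξ < η ∧ η < (aleph Θ).ord ∧ q < h (x η) (x ξ)) →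
        (ξ < η₁ ∧ q < h (x η₁) (x ξ)) := by
      intro q
      by_cases hq : ∃ η, ξ < η ∧ η < (aleph Θ).ord ∧ q < h (x η) (x ξ)
      · obtain ⟨η, a, b, c⟩ := hq
        exact ⟨η, b, fun _ => ⟨a, c⟩⟩
      · exact ⟨0, hκlim.bot_lt, fun h => absurd h hq⟩
    choose f hf1 hf2 using hex
    obtain ⟨b, hb, hb'⟩ := hcof s hs f fun q _ => hf1 q
    have hm : max ξ b < (aleph Θ).ord := max_lt hξ hb
    refine ⟨h (x (Order.succ (max ξ b))) (x ξ), h1 _ _, Order.succ (max ξ b), hκlim.succ_lt hm,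
      Order.lt_succ_of_le (le_max_left _ _), ?_, ?_⟩
    · intro η hη1 hη2
      refine le_antisymm ?_ (hmono _ _ (Order.lt_succ_of_le (le_max_left _ _)) hη1 hη2)
      by_contra hcon
      push Not at hcon
      have hξη : ξ < η := (Order.lt_succ_of_le (le_max_left _ _)).trans_le hη1
      have hq := hf2 (h (x (Order.succ (max ξ b))) (x ξ)) ⟨η, hξη, hη2, hcon⟩
      have hqs : h (x (Order.succ (max ξ b))) (x ξ) ≤ s :=
        hs' _ (Order.lt_succ_of_le (le_max_left _ _)) (hκlim.succ_lt hm)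
      have hle := hb' _ hqs
      have := hmono _ _ hq.1 (hle.trans ((le_max_right ξ b).trans (Order.le_succ _)))
        (hκlim.succ_lt hm)
      exact absurd (hq.2.trans_le this) (lt_irrefl _)
    · intro η hη1 hη2
      by_contra hcon
      push Not at hcon
      have hq := hf2 (h (x (Order.succ (max ξ b))) (x ξ)) ⟨η, hη1, hη2, hcon⟩
      have hqs : h (x (Order.succ (max ξ b))) (x ξ) ≤ s :=
        hs' _ (Order.lt_succ_of_le (le_max_left _ _)) (hκlim.succ_lt hm)
      have hle := hb' _ hqs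
      have := hmono _ _ hq.1 (hle.trans ((le_max_right ξ b).trans (Order.le_succ _)))
        (hκlim.succ_lt hm)
      exact absurd (hq.2.trans_le this) (lt_irrefl _)
  choose! t ht1 η₀ hη₀1 hη₀2 hη₀3 ht2 using S2
  -- unboundedly many limit values
  have S1 : ∀ j < Θ, ∃ ξ < (aleph Θ).ord, j < t ξ := by
    intro j hj
    by_contra hcon
    push Not at hcon
    have hj1 : Order.succ j < Θ := hΘlim.succ_lt hj
    have hle : #(Iio (aleph (Order.succ j)).ord) ≤
        #{a | a < x (aleph (Order.succ j)).ord ∧ h (x (aleph (Order.succ j)).ord) a ≤ j} := by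
      refine ⟨⟨fun ξ => ⟨x ξ.1, ?_, ?_⟩, ?_⟩⟩
      · exact hx _ _ ξ.2 (hω hj1)
      · exact (ht2 ξ.1 (lt_trans ξ.2 (hω hj1)) _ ξ.2 (hω hj1)).trans
          (hcon ξ.1 (lt_trans ξ.2 (hω hj1)))
      · intro ξ η he
        have he' := congrArg (fun w : ({a | a < x (aleph (Order.succ j)).ord ∧
          h (x (aleph (Order.succ j)).ord) a ≤ j} : Set Ordinal.{0}) => w.1) he
        have he' : x ξ.1 = x η.1 := he'
        refine Subtype.ext ?_
        rcases lt_trichotomy ξ.1 η.1 with h' | h' | h'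
        · exact absurd he' (hx _ _ h' (lt_trans η.2 (hω hj1))).ne
        · exact h'
        · exact absurd he' (hx _ _ h' (lt_trans ξ.2 (hω hj1))).ne'
    rw [mk_Iio_ordinal, card_ord] at hle
    have := hle.trans (h2 _ (hxL _ (hω hj1)) j)
    rw [Cardinal.lift_le, aleph_le_aleph] at this
    exact absurd this (not_le.mpr (Order.lt_succ j))
  obtain ⟨p, ⟨ξ, hξ, rfl⟩, q, ⟨η, hη, rfl⟩, hpq, hne⟩ :=
    hg {p | ∃ ξ < (aleph Θ).ord, t ξ = p} (by
      rintro p ⟨ξ, hξ, rfl⟩
      exact ht1 ξ hξ) (by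
      intro p hp
      obtain ⟨ξ, hξ, hlt⟩ := S1 p hp
      exact ⟨_, ⟨ξ, hξ, rfl⟩, hlt⟩)
  have hρ : max (η₀ ξ) (η₀ η) < (aleph Θ).ord := max_lt (hη₀1 ξ hξ) (hη₀1 η hη)
  have e1 := hη₀3 ξ hξ _ (le_max_left _ _) hρ
  have e2 := hη₀3 η hη _ (le_max_right _ _) hρ
  rcases lt_trichotomy ξ η with hlt | heq | hgt
  · have := f1 ξ η _ hlt ((hη₀2 η hη).trans_le (le_max_right _ _)) hρ
    rw [e1, e2, sy_of_lt hpq] at this
    exact hne this
  · rw [heq] at hpq
    exact absurd hpq (lt_irrefl _)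
  · have := f1 η ξ _ hgt ((hη₀2 ξ hξ).trans_le (le_max_left _ _)) hρ
    rw [e1, e2, sy_comm, sy_of_lt hpq] at this
    exact hne this

theorem theta_cof : ∀ p < (aleph (Ordinal.omega0.{0} + 1)).ord, ∀ f : Ordinal.{0} → Ordinal.{0},
    (∀ q ≤ p, f q < (aleph (aleph (Ordinal.omega0.{0} + 1)).ord).ord) →
      ∃ b < (aleph (aleph (Ordinal.omega0.{0} + 1)).ord).ord, ∀ q ≤ p, f q ≤ b := by
  intro p hp f hf
  have hreg : (aleph (Ordinal.omega0.{0} + 1)).IsRegular := by
    rw [← succ_aleph]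
    exact isRegular_succ (aleph0_le_aleph _)
  have hcof : (aleph (aleph (Ordinal.omega0.{0} + 1)).ord).ord.cof =
      aleph (Ordinal.omega0.{0} + 1) := by
    rw [ord_aleph, Ordinal.cof_omega (isSuccLimit_ord (aleph0_le_aleph _)), hreg.cof_ord]
  let ι := (p + 1).ToType
  have hι : ∀ i : ι, vl i ≤ p := fun i => Order.lt_add_one_iff.mp (vl_lt i)
  refine ⟨⨆ i : ι, f (vl i), ?_, fun q hq => ?_⟩
  · refine Ordinal.iSup_lt_of_lt_cof ?_ fun i => hf _ (hι i)
    rw [hcof, Cardinal.mk_toType, ← lt_ord]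
    have h1 := (isSuccLimit_ord (aleph0_le_aleph (Ordinal.omega0.{0} + 1))).succ_lt hp
    rwa [Order.succ_eq_add_one] at h1
  · have hq' : q < Ordinal.type (α := ι) (· < ·) := by
      rw [Ordinal.type_toType]
      exact Order.lt_add_one_iff.mpr hq
    have e : vl (Ordinal.enum (α := ι) (· < ·) ⟨q, hq'⟩) = q := Ordinal.typein_enum _ _
    have := le_ciSup (f := fun i : ι => f (vl i)) Ordinal.bddAbove_of_small
      (Ordinal.enum (α := ι) (· < ·) ⟨q, hq'⟩)
    simp only [e] at this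
    exact this

/-- An infinite set contains an increasing sequence. -/
theorem exists_increasing {L : Ordinal.{0}} {H : Set L.ToType} (hH : H.Infinite) :
    ∃ x : ℕ → L.ToType, StrictMono x ∧ ∀ n, x n ∈ H := by
  let e := hH.natEmbedding
  obtain ⟨φ, hφ⟩ := exists_increasing_or_nonincreasing_subseq
    (fun a b : L.ToType => a < b) (fun n => (e n).1)
  rcases hφ with h | h
  · exact ⟨fun n => (e (φ n)).1, fun m n hmn => h m n hmn, fun n => (e (φ n)).2⟩
  · exfalso
    have hanti : StrictAnti (fun n => (e (φ n)).1) := by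
      intro m n hmn
      have h1 := h m n hmn
      have h2 : (e (φ m)).1 ≠ (e (φ n)).1 := fun h' =>
        hmn.ne (φ.injective (e.injective (Subtype.ext h')))
      exact lt_of_le_of_ne (not_lt.mp h1) h2.symm
    obtain ⟨_, ⟨n, rfl⟩, hmin⟩ := WellFounded.has_min (wellFounded_lt (α := L.ToType))
      (range fun n => (e (φ n)).1) ⟨_, ⟨0, rfl⟩⟩
    exact hmin _ ⟨n + 1, rfl⟩ (hanti (Nat.lt_succ_self n))

/-- The colouring of triples with the additional class of descents. -/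
noncomputable def td (g : Ordinal.{0} → Ordinal.{0} → ℕ) (h : Ordinal.{0} → Ordinal.{0} → Ordinal.{0})
    (a b c : Ordinal.{0}) : ℕ :=
  open Classical in if h c a < h b a then 1 else tc g h a b c

theorem tc_ne_one {g : Ordinal.{0} → Ordinal.{0} → ℕ}
    {h : Ordinal.{0} → Ordinal.{0} → Ordinal.{0}} {a b c : Ordinal.{0}} : tc g h a b c ≠ 1 := by
  unfold tc
  split_ifs with h1 h2
  · omega
  · omega
  · omega

theorem td_eq {g : Ordinal.{0} → Ordinal.{0} → ℕ}
    {h : Ordinal.{0} → Ordinal.{0} → Ordinal.{0}} {a b c : Ordinal.{0}} {n : ℕ} (hn : n ≠ 1)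
    (H : td g h a b c = n) : tc g h a b c = n ∧ h b a ≤ h c a := by
  unfold td at H
  split_ifs at H with h1
  · exact absurd H.symm hn
  · exact ⟨H, not_lt.mp h1⟩

theorem td_eq_one {g : Ordinal.{0} → Ordinal.{0} → ℕ}
    {h : Ordinal.{0} → Ordinal.{0} → Ordinal.{0}} {a b c : Ordinal.{0}}
    (H : td g h a b c = 1) : h c a < h b a := by
  unfold td at H
  split_ifs at H with h1
  · exact h1
  · exact absurd H tc_ne_one

end Pool.Agent.Lib.MP_69a707_lc
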