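import Pool.Agent.Lib.MP_7295f2_lc.LBridge

/-! The infinite cardinals of the model `L[A]`. -/

open Ordinal Set
open Pool.Agent.Lib.MP_7295f2_lc Pool.Agent.Lib.MP_7295f2_lc.LA

set_option linter.unusedVariables false
set_option linter.unusedSectionVars false

namespace Pool.Agent.Lib.MP_69a707_lc.MQ

variable {A : Ord → Ord → Ord → Prop} {P Q : Set Ord → Env → Prop} {f g h : Set Ord → Env → Ord}

/-- The infinite internal cardinals. -/
def CD (A : Ord → Ord → Ord → Prop) : Set Ord := {μ | ω ≤ μ ∧ MC A μ}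

/-- The `α`-th infinite internal cardinal. -/
noncomputable def al (A : Ord → Ord → Ord → Prop) (α : Ord) : Ord :=
  sInf {μ | μ ∈ CD A ∧ otp (CD A) μ = α}

/-! ### Row mq-A1 -/

@[is_poly] theorem dfn_MC (h1 : DfnF A GG f) : Dfn A GG fun U e => MC A (f U e) := by
  refine Dfn.comp1 (R := fun _ x => MC A x) ?_ h1
  have h2 : Dfn A GG fun U e => ∀ α < e 0, ¬ ∃ x, ∀ w < e 0, ∃ i < α, val A x i = w := by
    apply_rules (transparency := .reducible) (maxDepth := 1000) using is_poly
  exact h2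

@[is_poly] theorem dfn_CD (h1 : DfnF A GG f) : Dfn A GG fun U e => f U e ∈ CD A := by
  refine Dfn.comp1 (R := fun _ x => x ∈ CD A) ?_ h1
  have h2 : Dfn A GG fun U e => ω ≤ e 0 ∧ MC A (e 0) := by
    apply_rules (transparency := .reducible) (maxDepth := 1000) using is_poly
  exact h2

/-- `Sj A α (D A x)` is definable -/
@[is_poly] theorem dfn_SjD (h1 : DfnF A GG f) (h2 : DfnF A GG g) :
    Dfn A GG fun U e => Sj A (f U e) (D A (g U e)) := by
  refine Dfn.comp2 (R := fun _ x y => Sj A x (D A y)) ?_ h1 h2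
  have h3 : Dfn A GG fun U e => ∃ x, ∀ w ∈ D A (e 1), ∃ i < e 0, val A x i = w := by
    apply_rules (transparency := .reducible) (maxDepth := 1000) using is_poly
  exact h3

@[is_poly] theorem dfnF_al (h1 : DfnF A GG f) : DfnF A GG fun U e => al A (f U e) := by
  refine DfnF.comp1 (R := fun _ x => al A x) ?_ h1
  have h2 : DfnF A GG fun U e => sInf {μ | μ ∈ CD A ∧ otp {x | x ∈ CD A} μ = e 0} := by
    apply_rules (transparency := .reducible) (maxDepth := 1000) using is_poly
  exact h2

private theorem mqA1_aleph (α : Ord) : (Cardinal.aleph α).ord ∈ CD A :=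
  ⟨by rw [← Cardinal.ord_aleph0, Cardinal.ord_le_ord]; exact Cardinal.aleph0_le_aleph α,
    mc_of_card⟩

private theorem mqA1_le (α : Ord) : α ≤ otp (CD A) (Cardinal.aleph α).ord := by
  induction α using WellFoundedLT.induction with
  | ind α ih =>
    by_contra hcon
    push Not at hcon
    have h1 := ih _ hcon
    have h2 : (Cardinal.aleph (otp (CD A) (Cardinal.aleph α).ord)).ord <
        (Cardinal.aleph α).ord := by
      rw [Cardinal.ord_lt_ord, Cardinal.aleph_lt_aleph]
      exact hcon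
    have h3 := otp_lt_otp (S := CD A) (mqA1_aleph _) h2
    exact absurd h1 (not_le.mpr h3)

theorem al_spec (α : Ord) : al A α ∈ CD A ∧ otp (CD A) (al A α) = α := by
  apply csInf_mem (s := {μ | μ ∈ CD A ∧ otp (CD A) μ = α})
  have h1 : α < otp (CD A) (Cardinal.aleph (α + 1)).ord :=
    (Order.lt_succ α).trans_le (by
      rw [← Order.succ_eq_add_one]
      exact mqA1_le _)
  obtain ⟨z, hz, _, h2⟩ := exists_otp_eq h1
  exact ⟨z, hz, h2⟩

theorem al_lt_al {α β : Ord} : al A α < al A β ↔ α < β := by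
  have h1 := al_spec (A := A) α
  have h2 := al_spec (A := A) β
  rw [← otp_lt_iff h1.1, h1.2, h2.2]

theorem al_le_al {α β : Ord} : al A α ≤ al A β ↔ α ≤ β := by
  rw [← not_lt, al_lt_al, not_lt]

theorem le_al (α : Ord) : α ≤ al A α := by
  have h1 := otp_le_self (X := CD A) (al A α)
  rwa [(al_spec α).2] at h1

theorem mc_al (α : Ord) : MC A (al A α) := (al_spec α).1.2

theorem omega_le_al (α : Ord) : ω ≤ al A α := (al_spec α).1.1

theorem exists_al {μ : Ord} (h : ω ≤ μ) (hμ : MC A μ) : ∃ α ≤ μ, al A α = μ := by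
  refine ⟨otp (CD A) μ, otp_le_self μ, ?_⟩
  have h1 := al_spec (A := A) (otp (CD A) μ)
  exact (otp_eq_iff h1.1 ⟨h, hμ⟩).mp h1.2

/-! ### Row mq-A2 -/

theorem al_zero : al A 0 = ω := by
  rcases (omega_le_al (A := A) 0).eq_or_lt with h | h
  · exact h.symm
  · have hm : (ω : Ord) ∈ CD A := ⟨le_rfl, mc_omega⟩
    have h1 := otp_lt_otp (S := CD A) hm h
    rw [(al_spec (A := A) 0).2] at h1
    exact absurd h1 (not_lt.mpr zero_le)

theorem al_succ (α : Ord) : al A (α + 1) = sc A (al A α) := by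
  apply le_antisymm
  · obtain ⟨β, -, hβ⟩ := exists_al (A := A)
      ((omega_le_al (A := A) α).trans (lt_sc (A := A) (al A α)).le) (mc_sc (A := A) (al A α))
    rw [← hβ, al_le_al]
    have h1 : al A α < al A β := by
      rw [hβ]
      exact lt_sc _
    rw [al_lt_al] at h1
    exact Order.add_one_le_of_lt h1
  · exact sc_le (al_lt_al.mpr (lt_add_one α)) (mc_al _)

theorem al_one (hA : Good A) : al A 1 = O1 := by
  have h1 := al_succ (A := A) 0
  rw [zero_add, al_zero, sc_omega hA] at h1
  exact h1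

/-- the supremum of internal cardinals is an internal cardinal -/
theorem al_cont {α : Ord} (hα : Order.IsSuccLimit α) {x : Ord} (hx : x < al A α) :
    ∃ β < α, x < al A β := by
  by_contra hcon
  push Not at hcon
  set S : Set Ord := {y | ∀ β < α, al A β ≤ y} with hS
  have hm : sInf S ∈ S := csInf_mem ⟨x, hcon⟩
  have hyx : sInf S ≤ x := csInf_le' (s := S) hcon
  have h0 : 0 < α := pos_iff_ne_zero.mpr (Ordinal.isSuccLimit_iff.mp hα).1
  have hω : ω ≤ sInf S := (omega_le_al (A := A) 0).trans (hm 0 h0)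
  have hmc : MC A (sInf S) := by
    intro γ hγ hSj
    have h1 : γ ∉ S := notMem_of_lt_csInf' hγ
    simp only [hS, Set.mem_ofPred_eq, not_forall, not_le] at h1
    obtain ⟨β, hβ, h2⟩ := h1
    exact mc_al β γ h2 (hSj.mono le_rfl (Iio_subset_Iio (hm β hβ)))
  obtain ⟨δ, -, hδ⟩ := exists_al hω hmc
  have h3 : al A δ < al A α := by
    rw [hδ]
    exact hyx.trans_lt hx
  rw [al_lt_al] at h3
  have h4 := hm (δ + 1) (hα.succ_lt h3)
  rw [← hδ, al_le_al] at h4
  exact absurd h4 (not_le.mpr (lt_add_one δ))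

theorem O1_le_al (hA : Good A) {α : Ord} (hα : 1 ≤ α) : O1 ≤ al A α := by
  rw [← al_one hA]
  exact al_le_al.mpr hα

theorem clos_al (hA : Good A) {α : Ord} (hα : 1 ≤ α) : Clos (al A α) :=
  clos_of_mc (mc_al α) (O1_le_al hA hα)

/-- an infinite internal cardinal is a limit ordinal (it is `ω` or at least `O1`) -/
theorem isLimit_of_mc (hA : Good A) {μ : Ord} (h : ω ≤ μ) (hμ : MC A μ) :
    Order.IsSuccLimit μ := by
  rcases h.eq_or_lt with h1 | h1
  · rw [← h1]
    exact Ordinal.isSuccLimit_omega0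
  · refine (clos_of_mc hμ ?_).isLimit
    by_contra hcon
    exact hμ ω h1 (hA.sj (not_le.mp hcon))

/-- `ℵ_{ω+1}` of the model. -/
noncomputable def th (A : Ord → Ord → Ord → Prop) : Ord := al A (ω + 1)

/-- `ℵ_{ω_{ω+1}}` of the model. -/
noncomputable def kp (A : Ord → Ord → Ord → Prop) : Ord := al A (th A)

theorem th_eq : th A = sc A (al A ω) := al_succ ω

@[is_poly] theorem dfnF_th : DfnF A GG fun _ _ => th A := by
  unfold th
  (apply_rules (transparency := .reducible) (maxDepth := 1000) using is_poly)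

@[is_poly] theorem dfnF_kp : DfnF A GG fun _ _ => kp A := by
  unfold kp
  (apply_rules (transparency := .reducible) (maxDepth := 1000) using is_poly)

theorem O1_le_alom (hA : Good A) : O1 ≤ al A ω :=
  O1_le_al hA Ordinal.one_lt_omega0.le

theorem clos_alom (hA : Good A) : Clos (al A ω) :=
  clos_al hA Ordinal.one_lt_omega0.le

theorem clos_th (hA : Good A) : Clos (th A) :=
  clos_al hA (Ordinal.one_lt_omega0.le.trans (lt_add_one ω).le)

theorem clos_kp (hA : Good A) : Clos (kp A) :=
  clos_al hA ((Ordinal.one_lt_omega0.trans (clos_th hA).1).le)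

theorem O1_le_kp (hA : Good A) : O1 ≤ kp A :=
  O1_le_al hA ((Ordinal.one_lt_omega0.trans (clos_th hA).1).le)

theorem th_lim (hA : Good A) : Order.IsSuccLimit (th A) := (clos_th hA).isLimit

end Pool.Agent.Lib.MP_69a707_lc.MQ
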