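import Pool.Agent.Lib.MP_69a707_lc.MQ1

/-! The walk along the square sequence and the level function. -/

open Ordinal Set
open Pool.Agent.Lib.MP_7295f2_lc Pool.Agent.Lib.MP_7295f2_lc.LA

set_option linter.unusedVariables false
set_option linter.unusedSectionVars false

namespace Pool.Agent.Lib.MP_69a707_lc.MQ

variable {A : Ord → Ord → Ord → Prop} {P Q : Set Ord → Env → Prop} {f g h : Set Ord → Env → Ord}

open Classical in
/-- The maximal weight along the walk from `c` to `a`. -/
noncomputable def mw (C : Ord → Set Ord) : Ord → Ord → Ord :=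
  WellFounded.fix (wellFounded_lt (α := Ord)) fun c ih a =>
    if h : a < c ∧ nx C c a < c then max (otp (C c) a) (ih (nx C c a) h.2 a) else 0

variable {C : Ord → Set Ord} {L κ : Ord}

/-! ### Row mq-W1 -/
/-! Compare `lv_def`, `lv_eq`, `lv_of_le`, `lv_lt`, `lv_local` of
`Pool/Agent/Lib/MP_69a707_lc/Basic.lean`; here the coherence holds at all limit points. -/

theorem mw_def (c a : Ord) : mw C c a =
    open Classical in
    if a < c ∧ nx C c a < c then max (otp (C c) a) (mw C (nx C c a) a) else 0 := by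
  rw [mw, WellFounded.fix_eq]
  simp only [dite_eq_ite]

theorem mw_of_le {c a : Ord} (h : c ≤ a) : mw C c a = 0 := by
  rw [mw_def, if_neg]
  exact fun h' => absurd h'.1 (not_lt.mpr h)

theorem mw_eq (hC : IsCSeq C L κ) {c a : Ord} (hc : c < L) (ha : a < c) :
    mw C c a = max (otp (C c) a) (mw C (nx C c a) a) := by
  rw [mw_def, if_pos ⟨ha, hC.nx_lt hc ha⟩]

theorem mw_lt (hC : IsCSeq C L κ) (hκ : 0 < κ) {c : Ord} (hc : c < L) (a : Ord) :
    mw C c a < κ := by
  induction c using WellFoundedLT.induction with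
  | ind c ih =>
    rcases lt_or_ge a c with ha | ha
    · rw [mw_eq hC hc ha]
      obtain ⟨h1, h2⟩ := hC.nx_mem hc ha
      have h3 := hC.nx_lt hc ha
      exact max_lt ((otp_mono h2).trans_lt (hC.otp_lt c hc _ h1)) (ih _ h3 (h3.trans hc))
    · rw [mw_of_le ha]
      exact hκ

/-- local coherence -/
theorem mw_local (hC : IsCSeq C L κ) {γ : Ord} (hγ : Order.IsSuccLimit γ) {c : Ord} (hc : c < L)
    (hγc : γ < c) : ∃ γ' < γ, ∃ u, ∀ a, γ' ≤ a → a < γ → mw C c a = max u (mw C γ a) := by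
  induction c using WellFoundedLT.induction with
  | ind c ih =>
    obtain ⟨h1, h2⟩ := hC.nx_mem hc hγc
    have h3 := hC.nx_lt hc hγc
    have hγ0 : 0 < γ := hγ.bot_lt
    by_cases hacc : IsAcc (C c) γ
    · have hcoh := (hC.coh c hc γ hγc hacc).2
      refine ⟨0, hγ0, 0, fun a _ ha => ?_⟩
      rw [mw_eq hC hc (ha.trans hγc), mw_eq hC (hγc.trans hc) ha]
      have e1 : otp (C γ) a = otp (C c) a := by
        apply otp_congr
        intro z hz
        rw [hcoh]
        exact ⟨fun h => h.1, fun h => ⟨h, hz.trans ha⟩⟩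
      have e2 : nx C c a = nx C γ a := by
        obtain ⟨y, hy, hay, hyγ⟩ := hacc.2 a ha
        have hlt : nx C c a < γ := (IsCSeq.nx_le hy hay.le).trans_lt hyγ
        obtain ⟨n1, n2⟩ := hC.nx_mem hc (ha.trans hγc)
        obtain ⟨m1, m2⟩ := hC.nx_mem (hγc.trans hc) ha
        refine le_antisymm (IsCSeq.nx_le ?_ m2) (IsCSeq.nx_le ?_ n2)
        · rw [hcoh] at m1
          exact m1.1
        · rw [hcoh]
          exact ⟨n1, hlt⟩
      rw [e1, e2]
      exact (max_eq_right (zero_le)).symm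
    · have hex : ∃ x₀ < γ, ∀ y ∈ C c, x₀ < y → γ ≤ y := by
        by_contra hcon
        push Not at hcon
        exact hacc ⟨hγ0.ne', hcon⟩
      obtain ⟨x₀, hx₀, hgap⟩ := hex
      have hnx : ∀ a, x₀ < a → a < γ → nx C c a = nx C c γ := by
        intro a ha haγ
        obtain ⟨n1, n2⟩ := hC.nx_mem hc (haγ.trans hγc)
        exact le_antisymm (IsCSeq.nx_le h1 (haγ.le.trans h2))
          (IsCSeq.nx_le n1 (hgap _ n1 (ha.trans_le n2)))
      have hint : ∀ a, x₀ < a → a < γ → otp (C c) a = otp (C c) γ := by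
        intro a ha haγ
        exact (otp_eq_of_gap haγ.le fun z hz haz => hgap z hz (ha.trans_le haz)).symm
      rcases h2.eq_or_lt with heq | hlt
      · refine ⟨Order.succ x₀, hγ.succ_lt hx₀, otp (C c) γ, fun a ha haγ => ?_⟩
        have ha' : x₀ < a := (Order.lt_succ _).trans_le ha
        rw [mw_eq hC hc (haγ.trans hγc), hnx a ha' haγ, ← heq, hint a ha' haγ]
      · obtain ⟨γ', hγ', u, hu⟩ := ih _ h3 (h3.trans hc) hlt
        refine ⟨max (Order.succ x₀) γ', max_lt (hγ.succ_lt hx₀) hγ',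
          max (otp (C c) γ) u, fun a ha haγ => ?_⟩
        have ha' : x₀ < a := (Order.lt_succ _).trans_le ((le_max_left _ _).trans ha)
        rw [mw_eq hC hc (haγ.trans hγc), hnx a ha' haγ, hint a ha' haγ,
          hu a ((le_max_right _ _).trans ha) haγ, max_assoc]

/-! ### Row mq-W2 -/
/-! Compare `dfnF_rho`, `sj_PP` of `Pool/Agent/Lib/MP_7295f2_lc/LComb.lean`. -/

@[is_poly] theorem dfnF_mw (h1 : DfnF A GG f) (h2 : DfnF A GG g) (h3 : DfnF A GG h) :
    DfnF A GG fun U e => mw (CSq A (f U e)) (g U e) (h U e) := by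
  refine DfnF.comp3 (R := fun _ k c a => mw (CSq A k) c a) ?_ h1 h2 h3
  set G : Env → Ord → Ord → Ord := fun p γ x =>
    @ite _ (ent γ 0 < ent γ 1 ∧ nx (CSq A (p 0)) (ent γ 1) (ent γ 0) < ent γ 1)
      (Classical.propDecidable _)
      (max (otp (CSq A (p 0) (ent γ 1)) (ent γ 0))
        (val A x (pr (ent γ 0) (nx (CSq A (p 0)) (ent γ 1) (ent γ 0))))) 0 with hG
  have hGd : DfnF A GG fun U e => G (fun i => e (i + 2)) (e 0) (e 1) := by
    refine DfnF.ite (P := fun U e => ent (e 0) 0 < ent (e 0) 1 ∧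
      nx (CSq A (e 2)) (ent (e 0) 1) (ent (e 0) 0) < ent (e 0) 1)
      (by (apply_rules (transparency := .reducible) (maxDepth := 1000) using is_poly)) ?_
      (by (apply_rules (transparency := .reducible) (maxDepth := 1000) using is_poly))
    (apply_rules (transparency := .reducible) (maxDepth := 1000) using is_poly)
  have hv : ∀ k α' β', β' < α' → val A (nm A (graphF A (G fun i => k) α')) β' =
      recF A (G fun i => k) β' := fun k α' β' h => val_nm_graph (G := G) hGd (fun i => k) h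
  have key : ∀ k c a, recF A (G fun i => k) (pr a c) = mw (CSq A k) c a := by
    intro k c
    induction c using WellFoundedLT.induction with
    | ind c ih =>
      intro a
      rw [recF_eq]
      show @ite _ _ (Classical.propDecidable _) _ _ = _
      rw [ent_pr_zero, ent_pr_one, mw_def]
      by_cases hac : a < c ∧ nx (CSq A k) c a < c
      · rw [if_pos hac, if_pos hac, hv, ih _ hac.2]
        apply pr_lt_pr
        rw [max_lt_iff]
        exact ⟨hac.1.trans_le (le_max_right _ _), hac.2.trans_le (le_max_right _ _)⟩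
      · rw [if_neg hac, if_neg hac]
  have h4 : DfnF A GG fun U e => recF A (G fun i => e (i + 0)) (pr (e 2) (e 1)) :=
    recF_dfn' hGd 0 (by (apply_rules (transparency := .reducible) (maxDepth := 1000) using is_poly))
  exact h4.congr fun U hU e he => key (e 0) (e 1) (e 2)

theorem sj_mw (hA : Good A) {κ ν c : Ord} (hκ1 : O1 ≤ κ) (hκ : Clos κ) (hν : Clos ν)
    (hc : c < sc A κ) : Sj A ν {a | a < c ∧ mw (CSq A κ) c a ≤ ν} := by
  induction c using WellFoundedLT.induction with
  | ind c ih =>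
    have hC : IsCSeq (CSq A κ) (sc A κ) κ := isCSeq_CSq hA hκ1 hκ
    have h0 : 0 < ν := Ordinal.omega0_pos.trans hν.1
    have hS : Sj A ν {x | x ∈ CSq A κ c ∧ otp (CSq A κ c) x ≤ ν} := by
      have h1 : DfnF A GG fun U e => enC A (e 1) (e 2) (e 0) := by
        (apply_rules (transparency := .reducible) (maxDepth := 1000) using is_poly)
      have h2 : Sj A (ν + 1) {x | x ∈ CSq A κ c ∧ otp (CSq A κ c) x ≤ ν} := by
        refine Sj.of_fun h1 (cons κ (cons c fun _ => 0)) fun w hw => ?_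
        exact ⟨_, Order.lt_add_one_iff.mpr hw.2, enC_otp hw.1⟩
      exact (Sj.iio_succ hν (Sj.refl ν)).trans h2
    let T : Env → Ord → Set Ord := fun p x =>
      {w | w = x ∨ (w < x ∧ mw (CSq A (p 0)) x w ≤ p 1)}
    have hT : Dfn A GG fun U e => e 0 ∈ T (fun i => e (i + 2)) (e 1) := by
      have : Dfn A GG fun U e => e 0 = e 1 ∨
          (e 0 < e 1 ∧ mw (CSq A (e 2)) (e 1) (e 0) ≤ e 3) := by
        (apply_rules (transparency := .reducible) (maxDepth := 1000) using is_poly)
      exact this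
    refine (Sj.biUnion (T := T) hν hS hT (cons κ fun _ => ν) ?_).mono le_rfl ?_
    · intro x hx
      have h3 := (Sj.singleton (A := A) h0 x).union hν (ih x (hC.sub c hc x hx.1)
        ((hC.sub c hc x hx.1).trans hc))
      exact h3
    · rintro a ⟨hac, ha⟩
      obtain ⟨h1, h2⟩ := hC.nx_mem hc hac
      rw [mw_eq hC hc hac, max_le_iff] at ha
      simp only [Set.mem_iUnion]
      refine ⟨nx (CSq A κ) c a, ⟨h1, ?_⟩, ?_⟩
      · rw [otp_eq_of_gap h2 fun z hz hαz => IsCSeq.nx_le hz hαz]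
        exact ha.1
      · rcases h2.eq_or_lt with h3 | h3
        · exact Or.inl h3
        · exact Or.inr ⟨h3, ha.2⟩

/-! ### Row mq-W3 -/

/-- The index of the least infinite internal cardinal bounding `z`. -/
noncomputable def lvl (A : Ord → Ord → Ord → Prop) (z : Ord) : Ord := sInf {i | z ≤ al A i}

@[is_poly] theorem dfnF_lvl (h1 : DfnF A GG f) : DfnF A GG fun U e => lvl A (f U e) := by
  refine DfnF.comp1 (R := fun _ z => lvl A z) ?_ h1
  have h4 : DfnF A GG fun U e => sInf {i | e 0 ≤ al A i} := by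
    (apply_rules (transparency := .reducible) (maxDepth := 1000) using is_poly)
  exact h4

theorem lvl_le_iff {z i : Ord} : lvl A z ≤ i ↔ z ≤ al A i := by
  constructor
  · intro h
    have h1 : z ≤ al A (lvl A z) := csInf_mem (s := {i | z ≤ al A i}) ⟨z, le_al z⟩
    exact h1.trans (al_le_al.mpr h)
  · intro h
    exact csInf_le' h

theorem lvl_max (a b : Ord) : lvl A (max a b) = max (lvl A a) (lvl A b) := by
  apply eq_of_forall_ge_iff
  intro c
  rw [lvl_le_iff, max_le_iff, max_le_iff, lvl_le_iff, lvl_le_iff]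

theorem lvl_lt {z Θ : Ord} (hΘ : Order.IsSuccLimit Θ) (hz : z < al A Θ) : lvl A z < Θ := by
  obtain ⟨β, hβ, h⟩ := al_cont hΘ hz
  exact (lvl_le_iff.mpr h.le).trans_lt hβ

/-- The level of `a` in `c`. -/
noncomputable def hh (A : Ord → Ord → Ord → Prop) (c a : Ord) : Ord :=
  lvl A (mw (CSq A (kp A)) c a)

@[is_poly] theorem dfnF_hh (h1 : DfnF A GG f) (h2 : DfnF A GG g) :
    DfnF A GG fun U e => hh A (f U e) (g U e) := by
  refine DfnF.comp2 (R := fun _ c a => hh A c a) ?_ h1 h2
  unfold hh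
  (apply_rules (transparency := .reducible) (maxDepth := 1000) using is_poly)

theorem hh_lt (hA : Good A) {c : Ord} (hc : c < sc A (kp A)) (a : Ord) : hh A c a < th A := by
  exact lvl_lt (th_lim hA) (mw_lt (isCSeq_CSq hA (O1_le_kp hA) (clos_kp hA))
    ((clos_kp hA).isLimit.bot_lt) hc a)

theorem hh_local (hA : Good A) {γ : Ord} (hγ : Order.IsSuccLimit γ) {c : Ord}
    (hc : c < sc A (kp A)) (hγc : γ < c) :
    ∃ γ' < γ, ∃ u, ∀ a, γ' ≤ a → a < γ → hh A c a = max u (hh A γ a) := by
  obtain ⟨γ', h1, u, h2⟩ := mw_local (isCSeq_CSq hA (O1_le_kp hA) (clos_kp hA)) hγ hc hγc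
  refine ⟨γ', h1, lvl A u, fun a h3 h4 => ?_⟩
  unfold hh
  rw [h2 a h3 h4, lvl_max]

theorem sj_hh (hA : Good A) {j c : Ord} (hj : 1 ≤ j) (hc : c < sc A (kp A)) :
    Sj A (al A j) {a | a < c ∧ hh A c a ≤ j} := by
  exact (sj_mw hA (O1_le_kp hA) (clos_kp hA) (clos_al hA hj) hc).mono le_rfl
    fun a ha => ⟨ha.1, lvl_le_iff.mp ha.2⟩

end Pool.Agent.Lib.MP_69a707_lc.MQ
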