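import Pool.Agent.Lib.MP_69a707_lc.MQ1

/-! Names of bounded sets; free transversals (internal versions of `exists_bad` and
`exists_transversal` of `Pool/Agent/Lib/MP_69a707_lc/Basic.lean`). -/

open Ordinal Set
open Pool.Agent.Lib.MP_7295f2_lc Pool.Agent.Lib.MP_7295f2_lc.LA

set_option linter.unusedVariables false
set_option linter.unusedSectionVars false

namespace Pool.Agent.Lib.MP_69a707_lc.MQ

variable {A : Ord → Ord → Ord → Prop} {P Q : Set Ord → Env → Prop} {f g h : Set Ord → Env → Ord}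

/-! ### Row mq-N -/

/-- Generalises `gch_name` (LCond.lean). Let `s` be the least name with
`∀ w < β, ∃ i < lam, val A s i = w` and take the hull `X = Hl A σ (pr x s) lam` with `σ` as in
`exists_hc` (LComb.lean) for the functions `val`, `ent`; then `Iio β ⊆ X` and one can argue as in
`gch_name`. -/
theorem gch_name' (hA : Good A) {lam : Ord} (hlam : MC A lam) (h1 : O1 ≤ lam) {β : Ord}
    (hβ : β < sc A lam) {x : Ord} (hx : D A x ⊆ Iio β) :
    ∃ x' < sc A lam, D A x' = D A x := by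
  have hcl : Clos lam := clos_of_mc hlam h1
  obtain ⟨s, hs⟩ := sj_of_lt_sc hβ
  have hval : DfnF A GG fun U e => val A (e 0) (e 1) := by
    (apply_rules (transparency := .reducible) (maxDepth := 1000) using is_poly)
  have hent : DfnF A GG fun U e => ent (e 0) (e 1) := by
    (apply_rules (transparency := .reducible) (maxDepth := 1000) using is_poly)
  obtain ⟨σ, hσ1, hσ, hhc⟩ := exists_hc (A := A)
    [fun U e => val A (e 0) (e 1), fun U e => ent (e 0) (e 1)] (by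
      intro f hf
      rcases List.mem_cons.mp hf with rfl | hf
      · exact hval
      · rcases List.mem_cons.mp hf with rfl | hf
        · exact hent
        · exact absurd hf (by simp)) (max (max lam (pr x s)) (max x β))
  have hpσ : pr x s < σ := ((le_max_right _ _).trans (le_max_left _ _)).trans_lt hσ1
  have hxσ : x < σ := ((le_max_left _ _).trans (le_max_right _ _)).trans_lt hσ1
  have hlσ : lam ≤ σ := (((le_max_left _ _).trans (le_max_left _ _)).trans_lt hσ1).le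
  have h0 : 0 < lam := Ordinal.omega0_pos.trans hcl.1
  have h01 : 1 < lam := Ordinal.one_lt_omega0.trans hcl.1
  set X := Hl A σ (pr x s) lam with hX
  have hclsd : Clsd A σ X := Hl_clsd hσ hpσ hlσ h0
  have hlX : Iio lam ⊆ X := fun i hi => Hl_lt hσ hpσ hlσ h0 hi
  have hpX : pr x s ∈ X := Hl_param hσ hpσ hlσ h0
  have h0X : (0 : Ord) ∈ X := Hl_zero hσ hpσ hlσ h0
  have hc1 : HC A σ fun U e => val A (e 0) (e 1) := hhc _ (by simp)
  have hc2 : HC A σ fun U e => ent (e 0) (e 1) := hhc _ (by simp)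
  have hentX : ∀ i < lam, ent (pr x s) i ∈ X := by
    intro i hi
    refine hc2 (pr x s) hpσ lam hlσ h0 (cons (pr x s) (cons i fun _ => 0)) ?_
    intro k
    match k with
    | 0 => exact hpX
    | 1 => exact hlX hi
    | k + 2 => exact h0X
  have hxX : x ∈ X := by
    have := hentX 0 h0
    rwa [ent_pr_zero] at this
  have hsX : s ∈ X := by
    have := hentX 1 h01
    rwa [ent_pr_one] at this
  have hβX : Iio β ⊆ X := by
    intro w hw
    obtain ⟨i, hi, rfl⟩ := hs w hw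
    refine hc1 (pr x s) hpσ lam hlσ h0 (cons s (cons i fun _ => 0)) ?_
    intro k
    match k with
    | 0 => exact hsX
    | 1 => exact hlX hi
    | k + 2 => exact h0X
  have hcol := hA.ctb.col ((Iio_subset_Iio h1).trans hlX)
  obtain ⟨z, hz⟩ := Hl_int (A := A) hpσ hlσ hcl
  have hsj : Sj A lam (Iio (otp X σ)) := by
    have h2 : DfnF A GG fun U e => otp {y | y ∈ D A (e 1)} (hen A (e 2) (e 3) (e 0)) := by
      (apply_rules (transparency := .reducible) (maxDepth := 1000) using is_poly)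
    refine Sj.of_fun h2 (cons z (cons σ (cons (pr x s) fun _ => 0))) fun w hw => ?_
    obtain ⟨y, hy, _, hyw⟩ := exists_otp_eq (X := X) (y := σ) hw
    have hy' := hy
    rw [hX, Hl_eq_image hpσ hlσ hcl] at hy'
    obtain ⟨c, hc, hcy⟩ := hy'
    refine ⟨c, hc, ?_⟩
    show otp {y | y ∈ D A z} (hen A σ (pr x s) c) = w
    rw [hcy, hz]
    exact hyw
  have h3 : otp X σ < sc A lam := lt_sc_of_sj (lt_sc lam) hsj
  refine ⟨otp X x, (otp_lt_otp hxX hxσ).trans h3, ?_⟩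
  rw [hclsd.D_col hσ hcol hxX]
  ext w
  constructor
  · rintro ⟨v, ⟨hv1, hv2⟩, rfl⟩
    rwa [otp_eq_self ((Iio_subset_Iio (Set.mem_Iio.mp (hx hv1)).le).trans hβX)]
  · intro hw
    refine ⟨w, ⟨hw, hβX (hx hw)⟩, ?_⟩
    exact otp_eq_self ((Iio_subset_Iio (Set.mem_Iio.mp (hx hw)).le).trans hβX)

/-! ### Row mq-T1 -/

variable {μ : Ord}

/-- A bounded union of few small internal sets is small (from `Sj.biUnion`). -/
theorem sj_iUnion_names (hμ : Clos μ) {i n : Ord} (hI : Sj A μ (D A i))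
    (h : ∀ ξ ∈ D A i, Sj A μ (D A (val A n ξ))) :
    Sj A μ {w | ∃ ξ ∈ D A i, w ∈ D A (val A n ξ)} := by
  let T : Env → Ord → Set Ord := fun p ξ => D A (val A (p 0) ξ)
  have hT : Dfn A GG fun U e => e 0 ∈ T (fun i => e (i + 2)) (e 1) := by
    have : Dfn A GG fun U e => e 0 ∈ D A (val A (e 2) (e 1)) := by
      (apply_rules (transparency := .reducible) (maxDepth := 1000) using is_poly)
    exact this
  refine (Sj.biUnion (T := T) hμ hI hT (fun _ => n) h).mono le_rfl ?_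
  rintro w ⟨ξ, hξ, hw⟩
  exact Set.mem_biUnion hξ hw

/-- The step of the recursion in `exists_bad`. -/
private noncomputable def mqT1_G (A : Ord → Ord → Ord → Prop) (μ x k ρ X : Ord) : Ord :=
  sInf {q | (∃ s, ∀ w ∈ D A q, ∃ i < μ, val A s i = w) ∧
    (∀ w ∈ D A q, ¬ ∃ r < ρ, w ∈ D A (val A X r)) ∧
    ∃ s, ∀ y ∈ D A k, (∀ w ∈ D A (val A x y), ¬ w ∈ D A q) → ∃ i < μ, val A s i = y}

/-- The sequence of the sets in `exists_bad`. -/
private noncomputable def mqT1_q (A : Ord → Ord → Ord → Prop) (μ x k ρ : Ord) : Ord :=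
  recF A (mqT1_G A μ x k) ρ

private theorem mqT1_dfnG : DfnF A GG fun U e =>
    (fun p : Env => mqT1_G A (p 0) (p 1) (p 2)) (fun i => e (i + 2)) (e 0) (e 1) := by
  have h4 : DfnF A GG fun U e => sInf {q | (∃ s, ∀ w ∈ D A q, ∃ i < e 2, val A s i = w) ∧
    (∀ w ∈ D A q, ¬ ∃ r < e 0, w ∈ D A (val A (e 1) r)) ∧
    ∃ s, ∀ y ∈ D A (e 4), (∀ w ∈ D A (val A (e 3) y), ¬ w ∈ D A q) →
      ∃ i < e 2, val A s i = y} := by
    (apply_rules (transparency := .reducible) (maxDepth := 1000) using is_poly)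
  exact h4

private theorem mqT1_dfnq {f₁ f₂ f₃ f₄ : Set Ord → Env → Ord} (h1 : DfnF A GG f₁)
    (h2 : DfnF A GG f₂) (h3 : DfnF A GG f₃) (h4 : DfnF A GG f₄) :
    DfnF A GG fun U e => mqT1_q A (f₁ U e) (f₂ U e) (f₃ U e) (f₄ U e) := by
  have h5 : DfnF A GG fun U e => mqT1_q A (e 0) (e 1) (e 2) (e 3) :=
    recF_dfn' (G := fun p : Env => mqT1_G A (p 0) (p 1) (p 2)) mqT1_dfnG 0 (DfnF.var 3)
  exact DfnF.comp4 (R := fun _ a b c d => mqT1_q A a b c d) h5 h1 h2 h3 h4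

private theorem mqT1_spec (hμ : Clos μ) {x k : Ord}
    (hcon : ∀ b, Sj A μ (D A b) → ∃ q, Sj A μ (D A q) ∧ Disjoint (D A q) (D A b) ∧
      Sj A μ {y | y ∈ D A k ∧ Disjoint (D A (val A x y)) (D A q)}) (ρ : Ord) (hρ : ρ < sc A μ) :
    Sj A μ (D A (mqT1_q A μ x k ρ)) ∧
      (∀ w ∈ D A (mqT1_q A μ x k ρ), ∀ r < ρ, w ∉ D A (mqT1_q A μ x k r)) ∧
      Sj A μ {y | y ∈ D A k ∧ ∀ w ∈ D A (val A x y), w ∉ D A (mqT1_q A μ x k ρ)} := by
  induction ρ using WellFoundedLT.induction with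
  | ind ρ ih =>
    -- the union of the earlier sets
    let T : Env → Ord → Set Ord := fun p r => D A (mqT1_q A (p 0) (p 1) (p 2) r)
    have hT : Dfn A GG fun U e => e 0 ∈ T (fun i => e (i + 2)) (e 1) :=
      Dfn.mem (DfnF.var 0) (mqT1_dfnq (DfnF.var 2) (DfnF.var 3) (DfnF.var 4) (DfnF.var 1))
    have hsm : Sj A μ {w | ∃ r < ρ, w ∈ D A (mqT1_q A μ x k r)} := by
      refine (Sj.biUnion (T := T) hμ (sj_of_lt_sc hρ) hT (cons μ (cons x fun _ => k))
        fun r hr => (ih r hr (lt_trans hr hρ)).1).mono le_rfl ?_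
      rintro w ⟨r, hr, hw⟩
      exact Set.mem_biUnion (show r ∈ Iio ρ from hr) hw
    have hint : Int A {w | ∃ r < ρ, w ∈ D A (mqT1_q A μ x k r)} := by
      have h1 : Dfn A GG fun U e => ∃ r < e 1, e 0 ∈ D A (mqT1_q A (e 2) (e 3) (e 4) r) :=
        Dfn.exlt (DfnF.var 1) (Dfn.mem (DfnF.var 1)
          (mqT1_dfnq (DfnF.var 3) (DfnF.var 4) (DfnF.var 5) (DfnF.var 0)))
      obtain ⟨z, hz⟩ := int_of_dfn' h1 (cons ρ (cons μ (cons x fun _ => k)))
        (β := ⨆ r : Iio ρ, mqT1_q A μ x k r.1) (by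
          rintro w ⟨r, hr, hw⟩
          have hr' : r < ρ := hr
          have hw' : w ∈ D A (mqT1_q A μ x k r) := hw
          exact (D_lt_self hw').trans_le (Ordinal.le_iSup
            (fun r : Iio ρ => mqT1_q A μ x k r.1) ⟨r, hr'⟩))
      exact ⟨z, hz⟩
    obtain ⟨b, hb⟩ := hint
    obtain ⟨q, hq1, hq2, hq3⟩ := hcon b (hb ▸ hsm)
    have hv : ∀ r < ρ, val A (nm A (graphF A (mqT1_G A μ x k) ρ)) r = mqT1_q A μ x k r :=
      fun r hr => val_nm_graph (G := fun p : Env => mqT1_G A (p 0) (p 1) (p 2)) mqT1_dfnG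
        (cons μ (cons x fun _ => k)) hr
    set X := nm A (graphF A (mqT1_G A μ x k) ρ) with hX
    have hm := csInf_mem (s := {q | (∃ s, ∀ w ∈ D A q, ∃ i < μ, val A s i = w) ∧
      (∀ w ∈ D A q, ¬ ∃ r < ρ, w ∈ D A (val A X r)) ∧
      ∃ s, ∀ y ∈ D A k, (∀ w ∈ D A (val A x y), ¬ w ∈ D A q) → ∃ i < μ, val A s i = y}) (by
        refine ⟨q, hq1, ?_, ?_⟩
        · rintro w hw ⟨r, hr, hwr⟩
          rw [hv r hr] at hwr
          refine Set.disjoint_left.mp hq2 hw ?_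
          rw [hb]
          exact ⟨r, hr, hwr⟩
        · obtain ⟨s, hs⟩ := hq3
          exact ⟨s, fun y hy hy' => hs y ⟨hy, Set.disjoint_left.mpr hy'⟩⟩)
    have he : mqT1_q A μ x k ρ = sInf {q | (∃ s, ∀ w ∈ D A q, ∃ i < μ, val A s i = w) ∧
      (∀ w ∈ D A q, ¬ ∃ r < ρ, w ∈ D A (val A X r)) ∧
      ∃ s, ∀ y ∈ D A k, (∀ w ∈ D A (val A x y), ¬ w ∈ D A q) →
        ∃ i < μ, val A s i = y} := by
      unfold mqT1_q
      rw [recF_eq]
      rfl
    rw [← he] at hm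
    obtain ⟨h1, h2, s, h3⟩ := hm
    refine ⟨h1, fun w hw r hr hwr => h2 w hw ⟨r, hr, ?_⟩, s, fun y hy => h3 y hy.1 hy.2⟩
    rw [hv r hr]
    exact hwr

/-- A small set `D A b` to be avoided: any small internal set disjoint from it is missed
by many of the sets `D A (val A x y)`, `y ∈ D A k`. Proof: otherwise define by recursion
(`recF`, least names) pairwise disjoint small `D A q_ρ` (`ρ < sc A μ`) such that
`{y ∈ D A k | D A (val A x y) ∩ D A q_ρ = ∅}` is small; the union over `ρ < sc A μ` of these sets is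
an image of `sc A μ`, hence some `y ∈ D A k` is outside; `D A (val A x y)` meets all `D A q_ρ`, which
gives an internal surjection of `μ` onto `sc A μ`. -/
theorem exists_bad (hμ1 : O1 ≤ μ) (hμ : Clos μ) {x k : Ord}
    (hF : ∀ y ∈ D A k, Sj A μ (D A (val A x y))) (hK : ¬ Sj A (sc A μ) (D A k)) :
    ∃ b, Sj A μ (D A b) ∧ ∀ q, Sj A μ (D A q) → Disjoint (D A q) (D A b) →
      ¬ Sj A μ {y | y ∈ D A k ∧ Disjoint (D A (val A x y)) (D A q)} := by
  by_contra hcon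
  push Not at hcon
  have hsp := mqT1_spec (A := A) hμ hcon
  -- the union of the exceptional sets
  let T : Env → Ord → Set Ord := fun p r =>
    {y | y ∈ D A (p 2) ∧ ∀ w ∈ D A (val A (p 1) y), w ∉ D A (mqT1_q A (p 0) (p 1) (p 2) r)}
  have hT : Dfn A GG fun U e => e 0 ∈ T (fun i => e (i + 2)) (e 1) := by
    refine Dfn.and (P := fun U e => e 0 ∈ D A (e 4))
      (Q := fun U e => ∀ w ∈ D A (val A (e 3) (e 0)),
        w ∉ D A (mqT1_q A (e 2) (e 3) (e 4) (e 1))) ?_ ?_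
    · (apply_rules (transparency := .reducible) (maxDepth := 1000) using is_poly)
    · refine Dfn.all_D ?_ (Dfn.not (Dfn.mem (DfnF.var 0)
        (mqT1_dfnq (DfnF.var 3) (DfnF.var 4) (DfnF.var 5) (DfnF.var 2))))
      (apply_rules (transparency := .reducible) (maxDepth := 1000) using is_poly)
  have hE := Sj.biUnion (T := T) (clos_sc hμ1) (Sj.refl (A := A) (sc A μ)) hT
    (cons μ (cons x fun _ => k)) fun r hr => (hsp r hr).2.2.mono (lt_sc μ).le subset_rfl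
  obtain ⟨y, hy, hy'⟩ : ∃ y ∈ D A k, ∀ r < sc A μ, ∃ w ∈ D A (val A x y),
      w ∈ D A (mqT1_q A μ x k r) := by
    by_contra hc
    push Not at hc
    refine hK (hE.mono le_rfl fun y hy => ?_)
    obtain ⟨r, hr, h1⟩ := hc y hy
    exact Set.mem_biUnion (show r ∈ Iio (sc A μ) from hr) ⟨hy, h1⟩
  obtain ⟨x₀, hx₀⟩ := hF y hy
  have hf : DfnF A GG fun U e =>
      sInf {r | val A (e 1) (e 0) ∈ D A (mqT1_q A (e 2) (e 3) (e 4) r)} := by
    apply DfnF.sInf
    refine Dfn.mem ?_ (mqT1_dfnq (DfnF.var 3) (DfnF.var 4) (DfnF.var 5) (DfnF.var 0))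
    (apply_rules (transparency := .reducible) (maxDepth := 1000) using is_poly)
  refine not_sj_of_sc (A := A) (lt_sc μ) (Sj.of_fun hf (cons x₀ (cons μ (cons x fun _ => k)))
    fun r hr => ?_)
  obtain ⟨w, hw, hwr⟩ := hy' r hr
  obtain ⟨i, hi, hiw⟩ := hx₀ w hw
  refine ⟨i, hi, ?_⟩
  show sInf {r | val A x₀ i ∈ D A (mqT1_q A μ x k r)} = r
  rw [hiw]
  apply le_antisymm
  · exact csInf_le' (s := {r | w ∈ D A (mqT1_q A μ x k r)}) hwr
  · by_contra hlt
    push Not at hlt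
    have hmem := csInf_mem (s := {r | w ∈ D A (mqT1_q A μ x k r)}) ⟨r, hwr⟩
    exact (hsp r hr).2.1 w hwr _ hlt hmem

/-! ### Row mq-T2 -/

/-- `b` is as in `exists_bad` for `k` (written out, for the definability) -/
private def T2_Bad (A : Ord → Ord → Ord → Prop) (μ x k b : Ord) : Prop :=
  (∃ s, ∀ w ∈ D A b, ∃ i < μ, val A s i = w) ∧
  ∀ q, (∃ s, ∀ w ∈ D A q, ∃ i < μ, val A s i = w) → (∀ w ∈ D A q, ¬ w ∈ D A b) →
    ¬ ∃ s, ∀ y ∈ D A k, (∀ w ∈ D A q, ¬ w ∈ D A (val A x y)) → ∃ i < μ, val A s i = y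

private theorem T2_bad_dfn : Dfn A GG fun U e => T2_Bad A (e 0) (e 1) (e 2) (e 3) := by
  unfold T2_Bad
  apply_rules (transparency := .reducible) (maxDepth := 1000) using is_poly

/-- the recursion step -/
private noncomputable def T2_G (A : Ord → Ord → Ord → Prop) (p : Env) (α g : Ord) : Ord :=
  sInf {z | z ∈ D A α ∧ ¬ z ∈ D A (p 2) ∧ ∀ η ∈ D A (p 1), η < α →
    (¬ z ∈ D A (val A (p 0) (val A g η)) ∧ ¬ val A g η ∈ D A (val A (p 0) z))}

private theorem T2_G_dfn : DfnF A GG fun U e => T2_G A (fun i => e (i + 2)) (e 0) (e 1) := by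
  show DfnF A GG fun U e => sInf {z | z ∈ D A (e 0) ∧ ¬ z ∈ D A (e 4) ∧ ∀ η ∈ D A (e 3),
    η < e 0 → (¬ z ∈ D A (val A (e 2) (val A (e 1) η)) ∧
      ¬ val A (e 1) η ∈ D A (val A (e 2) z))}
  apply_rules (transparency := .reducible) (maxDepth := 1000) using is_poly

/-- Free transversals. `b_ξ` least as in `exists_bad` for `k = ξ`; `BB` the union of
the `D A b_ξ` (`ξ ∈ D A i`); by recursion (`recF`) `y_ξ` is the least `z ∈ D A ξ`, `z ∉ BB`, such
that for all `η ∈ D A i`, `η < ξ`: `z ∉ D A (val A x y_η)` and `y_η ∉ D A (val A x z)`. -/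
theorem exists_transversal (hμ1 : O1 ≤ μ) (hμ : Clos μ) {x i : Ord} (hI : Sj A μ (D A i))
    (hF : ∀ ξ ∈ D A i, ∀ y ∈ D A ξ, Sj A μ (D A (val A x y)))
    (hK : ∀ ξ ∈ D A i, ¬ Sj A (sc A μ) (D A ξ)) :
    ∃ y, (∀ ξ ∈ D A i, val A y ξ ∈ D A ξ) ∧
      ∀ ξ ∈ D A i, ∀ η ∈ D A i, ξ ≠ η → val A y ξ ∉ D A (val A x (val A y η)) := by
  have hbad : ∀ ξ ∈ D A i, ∃ b, T2_Bad A μ x ξ b := by
    intro ξ hξ
    obtain ⟨b, hb1, hb2⟩ := exists_bad hμ1 hμ (hF ξ hξ) (hK ξ hξ)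
    refine ⟨b, hb1, fun q hq hqb hs =>
      hb2 q hq (Set.disjoint_left.2 fun w h1 h2 => hqb w h1 h2) ?_⟩
    obtain ⟨s, hs⟩ := hs
    exact ⟨s, fun y hy => hs y hy.1 fun w h1 h2 => Set.disjoint_left.1 hy.2 h2 h1⟩
  let B : Ord → Ord := fun ξ => sInf {b | T2_Bad A μ x ξ b}
  have hB : ∀ ξ ∈ D A i, T2_Bad A μ x ξ (B ξ) := fun ξ hξ =>
    csInf_mem (s := {b | T2_Bad A μ x ξ b}) (hbad ξ hξ)
  -- the union of the bad sets
  have hT : Dfn A GG fun U e => e 0 ∈ D A (sInf {b | T2_Bad A (e 2) (e 3) (e 1) b}) := by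
    refine Dfn.mem (DfnF.var 0) (DfnF.sInf ?_)
    exact Dfn.comp4 (R := fun _ a b c d => T2_Bad A a b c d) T2_bad_dfn (DfnF.var 3)
      (DfnF.var 4) (DfnF.var 2) (DfnF.var 0)
  have hBBs : Sj A μ (⋃ ξ ∈ D A i, D A (B ξ)) :=
    Sj.biUnion hμ hI (T := fun p ξ => D A (sInf {b | T2_Bad A (p 0) (p 1) ξ b})) hT
      (cons μ (cons x fun _ => 0)) (fun ξ hξ => (hB ξ hξ).1)
  obtain ⟨bb, hbb⟩ : Int A {w | ∃ ξ ∈ D A i, w ∈ D A (B ξ)} := by
    have h1 : Dfn A GG fun U e => ∃ ξ ∈ D A (e 3),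
        e 0 ∈ D A (sInf {b | T2_Bad A (e 1) (e 2) ξ b}) := by
      refine Dfn.ex_D (DfnF.var 3) (Dfn.mem (DfnF.var 1) (DfnF.sInf ?_))
      exact Dfn.comp4 (R := fun _ a b c d => T2_Bad A a b c d) T2_bad_dfn (DfnF.var 3)
        (DfnF.var 4) (DfnF.var 1) (DfnF.var 0)
    refine int_of_dfn' h1 (cons μ (cons x (cons i fun _ => 0)))
      (β := ⨆ ξ : Iio i, Order.succ (B ξ.1)) ?_
    rintro w ⟨ξ, hξ, hw⟩
    exact (D_lt_self hw).trans ((Order.lt_succ (B ξ)).trans_le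
      (Ordinal.le_iSup (fun ξ : Iio i => Order.succ (B ξ.1)) ⟨ξ, D_lt_self hξ⟩))
  -- the recursion
  let p : Env := cons x (cons i (cons bb fun _ => 0))
  let Y : Ord → Ord := fun α => recF A (T2_G A p) α
  have hY : ∀ α, Y α = sInf {z | z ∈ D A α ∧ ¬ z ∈ D A bb ∧ ∀ η ∈ D A i, η < α →
      (¬ z ∈ D A (val A x (Y η)) ∧ ¬ Y η ∈ D A (val A x z))} := by
    intro α
    show recF A (T2_G A p) α = _
    rw [recF_eq]
    show sInf {z | z ∈ D A α ∧ ¬ z ∈ D A bb ∧ ∀ η ∈ D A i, η < α →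
      (¬ z ∈ D A (val A x (val A (nm A (graphF A (T2_G A p) α)) η)) ∧
        ¬ val A (nm A (graphF A (T2_G A p) α)) η ∈ D A (val A x z))} = _
    congr 1
    ext z
    refine and_congr_right fun _ => and_congr_right fun _ => forall₂_congr fun η _ =>
      forall_congr' fun hη => ?_
    rw [val_nm_graph (G := T2_G A) T2_G_dfn p hη]
  have key : ∀ ξ, ξ ∈ D A i → Y ξ ∈ D A ξ ∧ ¬ Y ξ ∈ D A bb ∧ ∀ η ∈ D A i, η < ξ →
      (¬ Y ξ ∈ D A (val A x (Y η)) ∧ ¬ Y η ∈ D A (val A x (Y ξ))) := by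
    intro ξ
    induction ξ using WellFoundedLT.induction with
    | ind ξ ih =>
      intro hξ
      have hS : Sj A μ {η | η ∈ D A i ∧ η < ξ} := hI.mono le_rfl fun η h => h.1
      have hU : Sj A μ (⋃ η ∈ {η | η ∈ D A i ∧ η < ξ}, D A (val A x (Y η))) :=
        Sj.biUnion hμ hS (T := fun e η => D A (val A (e 0) (recF A (T2_G A e) η)))
          (Dfn.mem (DfnF.var 0) (DfnF.val (DfnF.var 2)
            (recF_dfn' (G := T2_G A) T2_G_dfn 2 (DfnF.var 1)))) p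
          (fun η hη => hF η hη.1 _ (ih η hη.2 hη.1).1)
      have hV : Sj A μ (⋃ η ∈ {η | η ∈ D A i ∧ η < ξ}, {w | w = Y η}) :=
        Sj.biUnion hμ hS (T := fun e η => {w | w = recF A (T2_G A e) η})
          (Dfn.eq (DfnF.var 0) (recF_dfn' (G := T2_G A) T2_G_dfn 2 (DfnF.var 1))) p
          (fun η hη => Sj.singleton (Ordinal.omega0_pos.trans hμ.1) _)
      obtain ⟨q, hq⟩ : Int A {w | ∃ η ∈ D A i, η < ξ ∧ w = Y η} := by
        have h1 : Dfn A GG fun U e => ∃ η ∈ D A (e 3), η < e 1 ∧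
            e 0 = recF A (T2_G A fun j => e (j + 2)) η := by
          refine Dfn.ex_D (DfnF.var 3) (Dfn.and (Dfn.lt (DfnF.var 0) (DfnF.var 2))
            (Dfn.eq (DfnF.var 1) ?_))
          exact recF_dfn' (G := T2_G A) T2_G_dfn 3 (DfnF.var 0)
        refine int_of_dfn' h1 (cons ξ p) (β := ⨆ η : Iio ξ, Order.succ (Y η.1)) ?_
        rintro w ⟨η, hη, hηξ, hw⟩
        have hw' : w = Y η := hw
        have hηξ' : η < ξ := hηξ
        rw [hw']
        exact (Order.lt_succ (Y η)).trans_le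
          (Ordinal.le_iSup (fun η : Iio ξ => Order.succ (Y η.1)) ⟨η, hηξ'⟩)
      have hqs : Sj A μ (D A q) := by
        refine hV.mono le_rfl fun w hw => ?_
        rw [hq] at hw
        obtain ⟨η, h1, h2, h3⟩ := hw
        exact Set.mem_biUnion (show η ∈ {η | η ∈ D A i ∧ η < ξ} from ⟨h1, h2⟩) h3
      have hqd : ∀ w ∈ D A q, ¬ w ∈ D A (B ξ) := by
        intro w hw hwB
        rw [hq] at hw
        obtain ⟨η, h1, h2, rfl⟩ := hw
        apply (ih η h2 h1).2.1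
        rw [hbb]
        exact ⟨ξ, hξ, hwB⟩
      have hex : ∃ z, z ∈ D A ξ ∧ ¬ z ∈ D A bb ∧ ∀ η ∈ D A i, η < ξ →
          (¬ z ∈ D A (val A x (Y η)) ∧ ¬ Y η ∈ D A (val A x z)) := by
        by_contra hne
        apply (hB ξ hξ).2 q hqs hqd
        obtain ⟨s, hs⟩ := hBBs.union hμ hU
        refine ⟨s, fun y hy hyq => hs y ?_⟩
        by_contra hyn
        apply hne
        refine ⟨y, hy, fun h1 => ?_, fun η hη hηξ => ⟨fun h1 => ?_, fun h1 => ?_⟩⟩
        · rw [hbb] at h1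
          obtain ⟨ζ, hζ, h2⟩ := h1
          exact hyn (Or.inl (Set.mem_biUnion hζ h2))
        · exact hyn (Or.inr (Set.mem_biUnion
            (show η ∈ {η | η ∈ D A i ∧ η < ξ} from ⟨hη, hηξ⟩) h1))
        · refine hyq (Y η) ?_ h1
          rw [hq]
          exact ⟨η, hη, hηξ, rfl⟩
      have hm := csInf_mem (s := {z | z ∈ D A ξ ∧ ¬ z ∈ D A bb ∧ ∀ η ∈ D A i, η < ξ →
          (¬ z ∈ D A (val A x (Y η)) ∧ ¬ Y η ∈ D A (val A x z))}) hex
      rw [← hY ξ] at hm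
      exact hm
  obtain ⟨y, hy⟩ := exists_val (recF_dfn (G := T2_G A) T2_G_dfn) p i
  have hy' : ∀ ξ ∈ D A i, val A y ξ = Y ξ := fun ξ hξ => hy ξ (D_lt_self hξ)
  refine ⟨y, fun ξ hξ => ?_, fun ξ hξ η hη hne => ?_⟩
  · rw [hy' ξ hξ]
    exact (key ξ hξ).1
  · rw [hy' ξ hξ, hy' η hη]
    rcases lt_or_gt_of_ne hne with h1 | h1
    · exact ((key η hη).2.2 ξ hξ h1).2
    · exact ((key ξ hξ).2.2 η hη h1).1

end Pool.Agent.Lib.MP_69a707_lc.MQ
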