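import Pool.Agent.Lib.MP_69a707_lc.MQ3

/-! The set mappings and the colouring of the pairs of `ℵ_{ω+1}` of the model (internal version of
`exists_setMapping`, `exists_pairColouring` of `Pool/Agent/Lib/MP_69a707_lc/Basic.lean`). The sets
`K_ξ` are the sets `D A ξ`. -/

open Ordinal Set
open Pool.Agent.Lib.MP_7295f2_lc Pool.Agent.Lib.MP_7295f2_lc.LA

set_option linter.unusedVariables false
set_option linter.unusedSectionVars false

namespace Pool.Agent.Lib.MP_69a707_lc.MQ

variable {A : Ord → Ord → Ord → Prop} {P Q : Set Ord → Env → Prop} {f g h : Set Ord → Env → Ord}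

/-- The least name of a map of `ℵ_ω` onto `β`. -/
noncomputable def sf (A : Ord → Ord → Ord → Prop) (β : Ord) : Ord :=
  sInf {s | ∀ w < β, ∃ i < al A ω, val A s i = w}

/-- The names of the sets to be met by the set assigned to `β` in the colour `n`. -/
def II (A : Ord → Ord → Ord → Prop) (n β : Ord) : Set Ord :=
  {ξ | (∃ i < al A (n + 1), val A (sf A β) i = ξ) ∧ (∀ w ∈ D A ξ, w < β) ∧
    ¬ Sj A (al A (n + 1 + 1)) (D A ξ)}

/-- `y` is a free transversal at `β`; the sets assigned to the smaller ordinals are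
`D A (val A x z)`. -/
def TV (A : Ord → Ord → Ord → Prop) (n β x y : Ord) : Prop :=
  (∀ ξ ∈ II A n β, val A y ξ ∈ D A ξ) ∧
    ∀ ξ ∈ II A n β, ∀ η ∈ II A n β, ξ ≠ η → val A y ξ ∉ D A (val A x (val A y η))

/-- The recursion step. -/
noncomputable def Gs (A : Ord → Ord → Ord → Prop) (p : Env) (β x : Ord) : Ord :=
  nm A {w | ∃ ξ ∈ II A (p 0) β, w = val A (sInf {y | TV A (p 0) β x y}) ξ}

/-- The name of the set assigned to `β` in the colour `n`. -/
noncomputable def FF (A : Ord → Ord → Ord → Prop) (n β : Ord) : Ord :=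
  recF A (Gs A fun _ => n) β

/-! ### Row mq-F1 -/

@[is_poly] theorem dfnF_sf (h1 : DfnF A GG f) : DfnF A GG fun U e => sf A (f U e) := by
  refine DfnF.comp1 (R := fun _ b => sf A b) ?_ h1
  unfold sf
  (apply_rules (transparency := .reducible) (maxDepth := 1000) using is_poly)

@[is_poly] theorem dfn_II (h1 : DfnF A GG f) (h2 : DfnF A GG g) (h3 : DfnF A GG h) :
    Dfn A GG fun U e => f U e ∈ II A (g U e) (h U e) := by
  refine Dfn.comp3 (R := fun _ x n b => x ∈ II A n b) ?_ h1 h2 h3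
  have h4 : Dfn A GG fun U e => (∃ i < al A (e 1 + 1), val A (sf A (e 2)) i = e 0) ∧
      (∀ w ∈ D A (e 0), w < e 2) ∧ ¬ Sj A (al A (e 1 + 1 + 1)) (D A (e 0)) := by
    (apply_rules (transparency := .reducible) (maxDepth := 1000) using is_poly)
  exact h4

theorem int_II (n β : Ord) : Int A (II A n β) := by
  have h1 : Dfn A GG fun U e => e 0 ∈ II A (e 1) (e 2) := by
    (apply_rules (transparency := .reducible) (maxDepth := 1000) using is_poly)
  exact int_of_dfn' h1 (cons n (cons β fun _ => 0))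
    (β := ⨆ i : Iio (al A (n + 1)), Order.succ (val A (sf A β) i.1)) (by
      rintro w ⟨⟨i, hi, hw⟩, _⟩
      have hi' : i < al A (n + 1) := hi
      have hw' : val A (sf A β) i = w := hw
      rw [← hw']
      exact (Order.lt_succ _).trans_le (Ordinal.le_iSup
        (fun i : Iio (al A (n + 1)) => Order.succ (val A (sf A β) i.1)) ⟨i, hi'⟩))

private theorem mq_F1_TV {f₁ f₂ f₃ f₄ : Set Ord → Env → Ord} (h1 : DfnF A GG f₁)
    (h2 : DfnF A GG f₂) (h3 : DfnF A GG f₃) (h4 : DfnF A GG f₄) :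
    Dfn A GG fun U e => TV A (f₁ U e) (f₂ U e) (f₃ U e) (f₄ U e) := by
  refine Dfn.comp4 (R := fun _ n b x y => TV A n b x y) ?_ h1 h2 h3 h4
  have h6 : Dfn A GG fun U e => (∀ ξ, ξ ∈ II A (e 0) (e 1) → val A (e 3) ξ ∈ D A ξ) ∧
      ∀ ξ, ξ ∈ II A (e 0) (e 1) → ∀ η, η ∈ II A (e 0) (e 1) → ¬ ξ = η →
        ¬ val A (e 3) ξ ∈ D A (val A (e 2) (val A (e 3) η)) := by
    (apply_rules (transparency := .reducible) (maxDepth := 1000) using is_poly)
  exact h6

theorem dfnF_Gs : DfnF A GG fun U e => Gs A (fun i => e (i + 2)) (e 0) (e 1) := by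
  have h1 : DfnF A GG fun U e => nm A {w | ∃ ξ, ξ ∈ II A (e 2) (e 0) ∧
      w = val A (sInf {y | TV A (e 2) (e 0) (e 1) y}) ξ} := by
    apply DfnF.nm
    refine Dfn.exG (Dfn.and ?_ (Dfn.eq ?_ (DfnF.val (DfnF.sInf ?_) ?_)))
    · (apply_rules (transparency := .reducible) (maxDepth := 1000) using is_poly)
    · (apply_rules (transparency := .reducible) (maxDepth := 1000) using is_poly)
    · exact mq_F1_TV (DfnF.var 5) (DfnF.var 3) (DfnF.var 4) (DfnF.var 0)
    · (apply_rules (transparency := .reducible) (maxDepth := 1000) using is_poly)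
  exact h1

@[is_poly] theorem dfnF_FF (h1 : DfnF A GG f) (h2 : DfnF A GG g) :
    DfnF A GG fun U e => FF A (f U e) (g U e) := by
  refine DfnF.comp2 (R := fun _ n b => FF A n b) ?_ h1 h2
  have h3 := recF_dfn' (G := Gs A) dfnF_Gs 0 (f := fun U e => e 1) (DfnF.var 1)
  exact h3

/-! ### Row mq-F2 -/

theorem sf_spec (hA : Good A) {β : Ord} (hβ : β < th A) :
    ∀ w < β, ∃ i < al A ω, val A (sf A β) i = w := by
  have h : ∃ s, ∀ w < β, ∃ i < al A ω, val A s i = w := by
    obtain ⟨x, hx⟩ := sj_of_lt_sc (A := A) (κ := al A ω) (α := β) (by rw [← th_eq]; exact hβ)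
    exact ⟨x, fun w hw => hx w hw⟩
  exact csInf_mem (s := {s | ∀ w < β, ∃ i < al A ω, val A s i = w}) h

theorem sj_II (hA : Good A) {n β : Ord} : Sj A (al A (n + 1)) (II A n β) :=
  ⟨sf A β, fun _ hw => hw.1⟩

private theorem mqF2_dfn : Dfn A GG fun U e => ∃ ξ, ξ ∈ II A (e 1) (e 2) ∧
    e 0 = val A (sInf {y | TV A (e 1) (e 2) (e 3) y}) ξ := by
  unfold TV
  apply_rules (transparency := .reducible) (maxDepth := 1000) using is_poly

private theorem mqF2_int (n β x : Ord) :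
    Int A {w | ∃ ξ ∈ II A n β, w = val A (sInf {y | TV A n β x y}) ξ} := by
  obtain ⟨γ, hγ⟩ : ∃ γ : Ord, ∀ ξ ∈ II A n β, val A (sInf {y | TV A n β x y}) ξ < γ := by
    refine ⟨⨆ i : Iio (al A (n + 1)), Order.succ (val A (sInf {y | TV A n β x y})
      (val A (sf A β) i.1)), fun ξ hξ => ?_⟩
    obtain ⟨i, hi, h1⟩ := hξ.1
    have h2 := Ordinal.le_iSup (fun i : Iio (al A (n + 1)) => Order.succ (val A
      (sInf {y | TV A n β x y}) (val A (sf A β) i.1))) ⟨i, hi⟩
    rw [← h1]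
    exact (Order.lt_succ _).trans_le h2
  have h := int_of_dfn' (mqF2_dfn (A := A)) (cons n (cons β (cons x fun _ => 0))) (β := γ) (by
    rintro w ⟨ξ, h1, h2⟩
    have h2' : w = val A (sInf {y | TV A n β x y}) ξ := h2
    rw [h2']
    exact hγ ξ h1)
  exact h

/-- `D_recF` for `FF`: unfold with `recF_eq`, `D_nm`, `val_nm_graph` -/
theorem D_FF (n β : Ord) : ∃ x, (∀ z < β, val A x z = FF A n z) ∧
    D A (FF A n β) = {w | ∃ ξ ∈ II A n β, w = val A (sInf {y | TV A n β x y}) ξ} := by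
  refine ⟨nm A (graphF A (Gs A fun _ => n) β), fun z hz => ?_, ?_⟩
  · exact val_nm_graph (G := Gs A) dfnF_Gs (fun _ => n) hz
  · rw [FF, recF_eq]
    exact D_nm (mqF2_int n β _)

/-! ### Row mq-F3 -/

/-- The properties of the sets `D A (FF A n β)` (induction on `β`, `exists_transversal` with
`μ = al A (n + 1)`, `sc A μ = al A (n + 1 + 1)`). -/
theorem FF_spec (hA : Good A) (n : Ord) (β : Ord) :
    (∀ w ∈ D A (FF A n β), w < β) ∧ Sj A (al A (n + 1)) (D A (FF A n β)) ∧
      (∀ a ∈ D A (FF A n β), ∀ b ∈ D A (FF A n β), a ∉ D A (FF A n b)) ∧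
      ∀ ξ ∈ II A n β, ∃ w ∈ D A (FF A n β), w ∈ D A ξ := by
  induction β using WellFoundedLT.induction with
  | ind β ih =>
  obtain ⟨x, hx1, hx2⟩ := D_FF (A := A) n β
  obtain ⟨i, hi⟩ := int_II (A := A) n β
  have hn1 : (1 : Ord) ≤ n + 1 := le_add_self
  have hIID : ∀ ξ ∈ II A n β, ∀ y ∈ D A ξ, y < β := fun ξ hξ => hξ.2.1
  have htr : ∃ y, TV A n β x y := by
    obtain ⟨y, hy1, hy2⟩ := exists_transversal (A := A) (O1_le_al hA hn1) (clos_al hA hn1)
      (x := x) (i := i) (by rw [hi]; exact sj_II hA)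
      (by
        intro ξ hξ y hy
        rw [hi] at hξ
        have hyβ := hIID ξ hξ y hy
        rw [hx1 y hyβ]
        exact (ih y hyβ).2.1)
      (by
        intro ξ hξ
        rw [hi] at hξ
        rw [← al_succ]
        exact hξ.2.2)
    rw [hi] at hy1 hy2
    exact ⟨y, hy1, hy2⟩
  have hTV : TV A n β x (sInf {y | TV A n β x y}) := csInf_mem (s := {y | TV A n β x y}) htr
  set y := sInf {y | TV A n β x y} with hy
  have h1 : ∀ w ∈ D A (FF A n β), w < β := by
    intro w hw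
    rw [hx2] at hw
    obtain ⟨ξ, hξ, rfl⟩ := hw
    exact hIID ξ hξ _ (hTV.1 ξ hξ)
  refine ⟨h1, ?_, ?_, ?_⟩
  · obtain ⟨s, hs⟩ := sj_II (A := A) hA (n := n) (β := β)
    have hf : DfnF A GG fun U e => val A (e 1) (val A (e 2) (e 0)) := by
      (apply_rules (transparency := .reducible) (maxDepth := 1000) using is_poly)
    refine Sj.of_fun hf (cons y (cons s fun _ => 0)) fun w hw => ?_
    rw [hx2] at hw
    obtain ⟨ξ, hξ, rfl⟩ := hw
    obtain ⟨j, hj, hjξ⟩ := hs ξ hξ
    refine ⟨j, hj, ?_⟩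
    show val A y (val A s j) = val A y ξ
    rw [hjξ]
  · intro a ha b hb hab
    have hbβ := h1 b hb
    rw [hx2] at ha hb
    obtain ⟨ξ, hξ, rfl⟩ := ha
    obtain ⟨η, hη, rfl⟩ := hb
    by_cases hne : ξ = η
    · subst hne
      exact lt_irrefl _ ((ih _ hbβ).1 _ hab)
    · rw [← hx1 _ hbβ] at hab
      exact hTV.2 ξ hξ η hη hne hab
  · intro ξ hξ
    refine ⟨val A y ξ, ?_, hTV.1 ξ hξ⟩
    rw [hx2]
    exact ⟨ξ, hξ, rfl⟩

/-! ### Row mq-P1 -/

/-- The colouring of pairs. -/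
noncomputable def pc (A : Ord → Ord → Ord → Prop) (a b : Ord) : Ord :=
  sInf {m | ∃ n < ω, m = n + 1 ∧ a ∈ D A (FF A n b)}

@[is_poly] theorem dfnF_pc (h1 : DfnF A GG f) (h2 : DfnF A GG g) :
    DfnF A GG fun U e => pc A (f U e) (g U e) := by
  refine DfnF.comp2 (R := fun _ x y => pc A x y) ?_ h1 h2
  unfold pc
  apply_rules (transparency := .reducible) (maxDepth := 1000) using is_poly

private theorem P1_mem {a b : Ord} (h : pc A a b ≠ 0) :
    ∃ n < ω, pc A a b = n + 1 ∧ a ∈ D A (FF A n b) := by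
  have hne : {m : Ord | ∃ n < ω, m = n + 1 ∧ a ∈ D A (FF A n b)}.Nonempty := by
    by_contra hem
    rw [not_nonempty_iff_eq_empty] at hem
    apply h
    unfold pc
    rw [hem, sInf_empty]
  exact csInf_mem hne

theorem pc_lt_omega (a b : Ord) : pc A a b < ω := by
  by_cases h : pc A a b = 0
  · rw [h]
    exact omega0_pos
  · obtain ⟨n, hn, h1, -⟩ := P1_mem h
    rw [h1]
    exact isSuccLimit_omega0.succ_lt hn

theorem pc_ne_zero {n a b : Ord} (hn : n < ω) (h : a ∈ D A (FF A n b)) : pc A a b ≠ 0 := by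
  have hne : {m : Ord | ∃ n < ω, m = n + 1 ∧ a ∈ D A (FF A n b)}.Nonempty := ⟨n + 1, n, hn, rfl, h⟩
  obtain ⟨k, -, h1, -⟩ := csInf_mem hne
  have h2 : pc A a b = k + 1 := h1
  rw [h2]
  exact Order.succ_ne_bot k

theorem pc_tri (hA : Good A) {a b c m : Ord} (hab : a < b) (hbc : b < c)
    (hm : m ≠ 0) (h1 : pc A a b = m) (h2 : pc A a c = m) (h3 : pc A b c = m) : False := by
  obtain ⟨n1, -, e1, k1⟩ := P1_mem (h1.symm ▸ hm)
  obtain ⟨n2, -, e2, k2⟩ := P1_mem (h2.symm ▸ hm)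
  obtain ⟨n3, -, e3, k3⟩ := P1_mem (h3.symm ▸ hm)
  have e12 : n1 = n2 := Order.succ_injective (by
    show n1 + 1 = n2 + 1
    rw [← e1, ← e2, h1, h2])
  have e13 : n1 = n3 := Order.succ_injective (by
    show n1 + 1 = n3 + 1
    rw [← e1, ← e3, h1, h3])
  subst e12 e13
  exact (FF_spec hA n1 c).2.2.1 a k2 b k3 k1

/-- The symmetric version. -/
noncomputable def sy (A : Ord → Ord → Ord → Prop) (p q : Ord) : Ord :=
  sInf {m | (p < q ∧ m = pc A p q) ∨ (q < p ∧ m = pc A q p)}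

@[is_poly] theorem dfnF_sy (h1 : DfnF A GG f) (h2 : DfnF A GG g) :
    DfnF A GG fun U e => sy A (f U e) (g U e) := by
  refine DfnF.comp2 (R := fun _ x y => sy A x y) ?_ h1 h2
  unfold sy
  apply_rules (transparency := .reducible) (maxDepth := 1000) using is_poly

theorem sy_of_lt {p q : Ord} (h : p < q) : sy A p q = pc A p q := by
  have e : {m : Ord | (p < q ∧ m = pc A p q) ∨ (q < p ∧ m = pc A q p)} = {pc A p q} := by
    ext m
    constructor
    · rintro (⟨-, h2⟩ | ⟨h1, -⟩)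
      · exact h2
      · exact absurd h1 (lt_asymm h)
    · intro h2
      exact Or.inl ⟨h, h2⟩
  unfold sy
  rw [e, csInf_singleton]

theorem sy_comm (p q : Ord) : sy A p q = sy A q p := by
  unfold sy
  congr 1
  ext m
  exact or_comm

theorem sy_self (p : Ord) : sy A p p = 0 := by
  have e : {m : Ord | (p < p ∧ m = pc A p p) ∨ (p < p ∧ m = pc A p p)} = ∅ := by
    ext m
    constructor
    · rintro (⟨h1, -⟩ | ⟨h1, -⟩)
      · exact absurd h1 (lt_irrefl p)
      · exact absurd h1 (lt_irrefl p)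
    · intro h
      exact absurd h (notMem_empty m)
  unfold sy
  rw [e, sInf_empty]

theorem sy_lt_omega (p q : Ord) : sy A p q < ω := by
  rcases lt_trichotomy p q with h | h | h
  · rw [sy_of_lt h]
    exact pc_lt_omega p q
  · rw [h, sy_self]
    exact omega0_pos
  · rw [sy_comm, sy_of_lt h]
    exact pc_lt_omega q p

private theorem P1_sorted (hA : Good A) {m a b c : Ord} (hm : m ≠ 0) (hab : a < b) (hbc : b < c)
    (h1 : sy A a b = m) (h2 : sy A a c = m) (h3 : sy A b c = m) : False := by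
  rw [sy_of_lt hab] at h1
  rw [sy_of_lt (hab.trans hbc)] at h2
  rw [sy_of_lt hbc] at h3
  exact pc_tri hA hab hbc hm h1 h2 h3

theorem sy_tri (hA : Good A) {m p q r : Ord} (hm : m ≠ 0) (h1 : sy A p q = m)
    (h2 : sy A p r = m) (h3 : sy A q r = m) : False := by
  have n1 : p ≠ q := fun h => by rw [h, sy_self] at h1; exact hm h1.symm
  have n2 : p ≠ r := fun h => by rw [h, sy_self] at h2; exact hm h2.symm
  have n3 : q ≠ r := fun h => by rw [h, sy_self] at h3; exact hm h3.symm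
  have h1' : sy A q p = m := by rw [sy_comm]; exact h1
  have h2' : sy A r p = m := by rw [sy_comm]; exact h2
  have h3' : sy A r q = m := by rw [sy_comm]; exact h3
  rcases lt_or_gt_of_ne n1 with k1 | k1
  · rcases lt_or_gt_of_ne n3 with k3 | k3
    · exact P1_sorted hA hm k1 k3 h1 h2 h3
    · rcases lt_or_gt_of_ne n2 with k2 | k2
      · exact P1_sorted hA hm k2 k3 h2 h1 h3'
      · exact P1_sorted hA hm k2 k1 h2' h3' h1
  · rcases lt_or_gt_of_ne n2 with k2 | k2
    · exact P1_sorted hA hm k1 k2 h1' h3 h2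
    · rcases lt_or_gt_of_ne n3 with k3 | k3
      · exact P1_sorted hA hm k3 k2 h3 h1' h2'
      · exact P1_sorted hA hm k3 k1 h3' h2' h1'

/-! ### Row mq-P2 -/

/-- The `i`-th element of `D A z`. -/
private noncomputable def mqP2_en (A : Ord → Ord → Ord → Prop) (z i : Ord) : Ord :=
  sInf {x | x ∈ D A z ∧ otp {y | y ∈ D A z} x = i}

private theorem mqP2_dfn : DfnF A GG fun U e => mqP2_en A (e 1) (e 0) := by
  unfold mqP2_en
  apply_rules (transparency := .reducible) (maxDepth := 1000) using is_poly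

private theorem mqP2_en_otp {z x : Ord} (hx : x ∈ D A z) :
    mqP2_en A z (otp {y | y ∈ D A z} x) = x := by
  unfold mqP2_en
  have : {v | v ∈ D A z ∧ otp {y | y ∈ D A z} v = otp {y | y ∈ D A z} x} = {x} := by
    ext y
    simp only [Set.mem_ofPred_eq, Set.mem_singleton_iff]
    constructor
    · rintro ⟨h1, h2⟩
      exact otp_injOn _ h1 hx h2
    · rintro rfl
      exact ⟨hx, rfl⟩
  rw [this, csInf_singleton]

/-- A set of ordinals of order type `al A ω` is not small. -/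
theorem exists_initial (hA : Good A) {z : Ord} (hz : ∀ w ∈ D A z, w < th A)
    (hu : ∀ w < th A, ∃ v ∈ D A z, w < v) :
    ∃ ξ < th A, ∃ b < th A, (∀ w ∈ D A ξ, w ∈ D A z ∧ w < b) ∧
      ∀ n < ω, ¬ Sj A (al A (n + 1 + 1)) (D A ξ) := by
  have hth : th A = sc A (al A ω) := th_eq
  have hcl : Clos (al A ω) := clos_alom hA
  have h0 : al A ω < otp {y | y ∈ D A z} (th A) := by
    by_contra hcon
    have hcon' := not_lt.1 hcon
    have hS : Sj A (al A ω) (D A z) := by
      refine Sj.of_fun mqP2_dfn (cons z fun _ => 0) fun w hw => ?_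
      refine ⟨otp {y | y ∈ D A z} w, ?_, mqP2_en_otp hw⟩
      have hw' : w ∈ {y | y ∈ D A z} := hw
      exact (otp_lt_otp hw' (hz w hw)).trans_le hcon'
    have hid : DfnF A GG fun U e => e 0 := by
      apply_rules (transparency := .reducible) (maxDepth := 1000) using is_poly
    obtain ⟨b, hb, hb'⟩ := sup_lt hcl hid (fun _ => 0) hS ⟨z, rfl⟩ (lt_sc _) (by
      intro w hw
      rw [← hth]
      exact hz w hw)
    rw [← hth] at hb
    obtain ⟨v, hv, hbv⟩ := hu b hb
    exact absurd (hb' v hv) (not_le.2 hbv)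
  obtain ⟨c, hc, hcth, hco⟩ := exists_otp_eq h0
  have hc' : c ∈ D A z := hc
  have hP : Dfn A GG fun U e => e 0 ∈ D A (e 1) := by
    apply_rules (transparency := .reducible) (maxDepth := 1000) using is_poly
  obtain ⟨x, hx⟩ := int_of_dfn hP (cons z fun _ => 0) c
  have hx1 : D A x = {w | w < c ∧ w ∈ D A z} := hx
  have hsub : D A x ⊆ Iio c := by
    intro w hw
    rw [hx1] at hw
    exact hw.1
  obtain ⟨ξ, hξ, hξx⟩ := gch_name' hA (mc_al ω) (O1_le_alom hA) (hth ▸ hcth) hsub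
  refine ⟨ξ, by rw [hth]; exact hξ, c, hcth, ?_, ?_⟩
  · intro w hw
    rw [hξx, hx1] at hw
    exact ⟨hw.2, hw.1⟩
  · intro n hn hSj
    have h1 := hSj.otp (ζ := c) ⟨ξ, rfl⟩
    have h2 : otp (D A ξ) c = al A ω := by
      rw [← hco]
      refine otp_congr fun w hw => ?_
      rw [hξx, hx1]
      exact ⟨fun h => h.2, fun h => ⟨hw, h⟩⟩
    rw [h2] at h1
    refine mc_al ω _ ?_ h1
    rw [al_lt_al]
    have hl : Order.IsSuccLimit ω := isSuccLimit_omega0
    have h3 : n + 1 < ω := by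
      rw [← Order.succ_eq_add_one]
      exact hl.succ_lt hn
    rw [← Order.succ_eq_add_one (n + 1)]
    exact hl.succ_lt h3

/-! ### Row mq-P3 -/

/-- Every unbounded internal subset of `ℵ_{ω+1}` contains a pair of nonzero colour: take `ξ`, `b`
of `exists_initial`, `β ∈ D A z` above them, and `n < ω` with `ξ ∈ II A n β` (`sf_spec`,
`al_cont`), `FF_spec`. -/
theorem pc_unb (hA : Good A) {z : Ord} (hz : ∀ w ∈ D A z, w < th A)
    (hu : ∀ w < th A, ∃ v ∈ D A z, w < v) :
    ∃ a ∈ D A z, ∃ b ∈ D A z, a < b ∧ pc A a b ≠ 0 := by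
  obtain ⟨ξ, hξ, b, hb, h1, h2⟩ := exists_initial hA hz hu
  obtain ⟨v, hv, hmax⟩ := hu (max ξ b) (max_lt hξ hb)
  have hξv : ξ < v := lt_of_le_of_lt (le_max_left ξ b) hmax
  have hbv : b < v := lt_of_le_of_lt (le_max_right ξ b) hmax
  obtain ⟨i, hi, hval⟩ := sf_spec hA (hz v hv) ξ hξv
  obtain ⟨n, hn, hin⟩ := al_cont (A := A) Ordinal.isSuccLimit_omega0 hi
  have hle : al A n ≤ al A (n + 1) := al_le_al.2 le_self_add
  have hII : ξ ∈ II A n v :=
    ⟨⟨i, lt_of_lt_of_le hin hle, hval⟩, fun w hw => (h1 w hw).2.trans hbv, h2 n hn⟩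
  obtain ⟨w, hw1, hw2⟩ := (FF_spec hA n v).2.2.2 ξ hII
  exact ⟨w, (h1 w hw2).1, v, hv, (FF_spec hA n v).1 w hw1, pc_ne_zero hn hw1⟩

end Pool.Agent.Lib.MP_69a707_lc.MQ
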