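import Pool.Agent.Lib.MP_69a707_lc.MQ2
import Pool.Agent.Lib.MP_69a707_lc.MQ4

/-! The colouring of triples and the combinatorial core inside the model. -/

open Ordinal Set
open Pool.Agent.Lib.MP_7295f2_lc Pool.Agent.Lib.MP_7295f2_lc.LA

set_option linter.unusedVariables false
set_option linter.unusedSectionVars false

namespace Pool.Agent.Lib.MP_69a707_lc.MQ

variable {A : Ord → Ord → Ord → Prop} {P Q : Set Ord → Env → Prop} {f g h : Set Ord → Env → Ord}

/-! ### Row mq-D -/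

/-- Doubling of natural numbers. -/
noncomputable def dbl (A : Ord → Ord → Ord → Prop) (m : Ord) : Ord :=
  recF A (fun α x => sSup {v | ∃ β < α, v = val A x β + 1 + 1}) m

private theorem mqD_G : DfnF A GG fun U e => (fun (_ : Env) (α x : Ord) =>
    sSup {v | ∃ β < α, v = val A x β + 1 + 1}) (fun i => e (i + 2)) (e 0) (e 1) := by
  apply DfnF.sSup
  (apply_rules (transparency := .reducible) (maxDepth := 1000) using is_poly)

@[is_poly] theorem dfnF_dbl (h1 : DfnF A GG f) : DfnF A GG fun U e => dbl A (f U e) :=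
  recF_dfn' (G := fun (_ : Env) (α x : Ord) => sSup {v | ∃ β < α, v = val A x β + 1 + 1})
    mqD_G 0 h1

private theorem mqD_dbl_eq (α : Ord) :
    dbl A α = sSup {v | ∃ β < α, v = dbl A β + 1 + 1} := by
  unfold dbl
  rw [recF_eq]
  congr 1
  ext u
  have hv : ∀ β < α, val A (nm A (graphF A (fun α x =>
      sSup {v | ∃ β < α, v = val A x β + 1 + 1}) α)) β =
      recF A (fun α x => sSup {v | ∃ β < α, v = val A x β + 1 + 1}) β := fun β hβ =>
    val_nm_graph (G := fun (_ : Env) (α x : Ord) => sSup {v | ∃ β < α, v = val A x β + 1 + 1})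
      mqD_G (fun _ => 0) hβ
  constructor
  · rintro ⟨β, hβ, rfl⟩
    exact ⟨β, hβ, by rw [hv β hβ]⟩
  · rintro ⟨β, hβ, rfl⟩
    exact ⟨β, hβ, by rw [hv β hβ]⟩

theorem dbl_nat (n : ℕ) : dbl A (n : Ord) = ((2 * n : ℕ) : Ord) := by
  induction n using Nat.strong_induction_on with
  | _ n ih =>
    rw [mqD_dbl_eq]
    rcases n with _ | k
    · have h1 : {v : Ord | ∃ β < ((0 : ℕ) : Ord), v = dbl A β + 1 + 1} = ∅ := by
        ext v
        simp
      rw [h1, csSup_empty]
      simp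
    · apply le_antisymm
      · apply csSup_le'
        rintro v ⟨β, hβ, rfl⟩
        obtain ⟨j, rfl⟩ := Ordinal.lt_omega0.mp (hβ.trans (Ordinal.natCast_lt_omega0 _))
        have hj : j < k + 1 := by exact_mod_cast hβ
        rw [ih j hj]
        have h2 : (((2 * j : ℕ) : Ord) + 1 + 1) = ((2 * j + 1 + 1 : ℕ) : Ord) := by push_cast; rfl
        rw [h2]
        exact_mod_cast (by omega : 2 * j + 1 + 1 ≤ 2 * (k + 1))
      · apply le_csSup
        · refine ⟨((2 * (k + 1) : ℕ) : Ord), ?_⟩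
          rintro v ⟨β, hβ, rfl⟩
          obtain ⟨j, rfl⟩ := Ordinal.lt_omega0.mp (hβ.trans (Ordinal.natCast_lt_omega0 _))
          have hj : j < k + 1 := by exact_mod_cast hβ
          rw [ih j hj]
          have h2 : (((2 * j : ℕ) : Ord) + 1 + 1) = ((2 * j + 1 + 1 : ℕ) : Ord) := by
            push_cast; rfl
          rw [h2]
          exact_mod_cast (by omega : 2 * j + 1 + 1 ≤ 2 * (k + 1))
        · refine ⟨(k : Ord), by exact_mod_cast Nat.lt_succ_self k, ?_⟩
          rw [ih k (Nat.lt_succ_self k)]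
          have h3 : 2 * (k + 1) = 2 * k + 1 + 1 := by ring
          rw [h3]
          push_cast
          rfl

/-- The colour of the triple `a < b < c`. -/
noncomputable def tcol (A : Ord → Ord → Ord → Prop) (a b c : Ord) : Ord :=
  sInf {v | (sy A (hh A c a) (hh A c b) ≠ 0 ∧ v = dbl A (sy A (hh A c a) (hh A c b))) ∨
    (sy A (hh A c a) (hh A c b) = 0 ∧ sy A (hh A b a) (hh A c a) ≠ 0 ∧
      v = dbl A (sy A (hh A b a) (hh A c a)) + 1)}

@[is_poly] theorem dfnF_tcol (h1 : DfnF A GG f) (h2 : DfnF A GG g) (h3 : DfnF A GG h) :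
    DfnF A GG fun U e => tcol A (f U e) (g U e) (h U e) := by
  refine DfnF.comp3 (R := fun _ a b c => tcol A a b c) ?_ h1 h2 h3
  unfold tcol
  unfold Ne
  (apply_rules (transparency := .reducible) (maxDepth := 1000) using is_poly)

private theorem mqD_cases (a b c : Ord) :
    (∃ m : ℕ, m ≠ 0 ∧ sy A (hh A c a) (hh A c b) = (m : Ord) ∧
      tcol A a b c = ((2 * m : ℕ) : Ord)) ∨
    (∃ m : ℕ, m ≠ 0 ∧ sy A (hh A b a) (hh A c a) = (m : Ord) ∧
      tcol A a b c = ((2 * m + 1 : ℕ) : Ord)) ∨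
    (sy A (hh A c a) (hh A c b) = 0 ∧ sy A (hh A b a) (hh A c a) = 0 ∧ tcol A a b c = 0) := by
  obtain ⟨m, hm⟩ := Ordinal.lt_omega0.mp (sy_lt_omega (A := A) (hh A c a) (hh A c b))
  obtain ⟨k, hk⟩ := Ordinal.lt_omega0.mp (sy_lt_omega (A := A) (hh A b a) (hh A c a))
  unfold tcol
  rw [hm, hk, dbl_nat, dbl_nat]
  by_cases hm0 : m = 0
  · subst hm0
    by_cases hk0 : k = 0
    · subst hk0
      right; right
      refine ⟨by simp, by simp, ?_⟩
      have h1 : {v : Ord | (((0 : ℕ) : Ord) ≠ 0 ∧ v = ((2 * 0 : ℕ) : Ord)) ∨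
          (((0 : ℕ) : Ord) = 0 ∧ ((0 : ℕ) : Ord) ≠ 0 ∧ v = ((2 * 0 : ℕ) : Ord) + 1)} = ∅ := by
        ext v
        simp
      rw [h1]
      exact Ordinal.sInf_empty
    · right; left
      refine ⟨k, hk0, rfl, ?_⟩
      have hk1 : ((k : ℕ) : Ord) ≠ 0 := by exact_mod_cast hk0
      have h1 : {v : Ord | (((0 : ℕ) : Ord) ≠ 0 ∧ v = ((2 * 0 : ℕ) : Ord)) ∨
          (((0 : ℕ) : Ord) = 0 ∧ ((k : ℕ) : Ord) ≠ 0 ∧ v = ((2 * k : ℕ) : Ord) + 1)} =
          {((2 * k + 1 : ℕ) : Ord)} := by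
        ext v
        simp only [Set.mem_ofPred_eq, Set.mem_singleton_iff]
        constructor
        · rintro (⟨h, -⟩ | ⟨-, -, h⟩)
          · exact absurd (by simp) h
          · rw [h]; push_cast; rfl
        · intro h
          exact Or.inr ⟨by simp, hk1, by rw [h]; push_cast; rfl⟩
      rw [h1]
      exact csInf_singleton _
  · left
    refine ⟨m, hm0, rfl, ?_⟩
    have hm1 : ((m : ℕ) : Ord) ≠ 0 := by exact_mod_cast hm0
    have h1 : {v : Ord | (((m : ℕ) : Ord) ≠ 0 ∧ v = ((2 * m : ℕ) : Ord)) ∨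
        (((m : ℕ) : Ord) = 0 ∧ ((k : ℕ) : Ord) ≠ 0 ∧ v = ((2 * k : ℕ) : Ord) + 1)} =
        {((2 * m : ℕ) : Ord)} := by
      ext v
      simp only [Set.mem_ofPred_eq, Set.mem_singleton_iff]
      constructor
      · rintro (⟨-, h⟩ | ⟨h, -⟩)
        · exact h
        · exact absurd h hm1
      · intro h
        exact Or.inl ⟨hm1, h⟩
    rw [h1]
    exact csInf_singleton _

theorem tcol_lt_omega (a b c : Ord) : tcol A a b c < ω := by
  rcases mqD_cases (A := A) a b c with ⟨m, -, -, h⟩ | ⟨m, -, -, h⟩ | ⟨-, -, h⟩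
  · rw [h]; exact Ordinal.natCast_lt_omega0 _
  · rw [h]; exact Ordinal.natCast_lt_omega0 _
  · rw [h]; exact Ordinal.omega0_pos

theorem tcol_eq_zero {a b c : Ord} (h : tcol A a b c = 0) :
    sy A (hh A c a) (hh A c b) = 0 ∧ sy A (hh A b a) (hh A c a) = 0 := by
  rcases mqD_cases (A := A) a b c with ⟨m, h0, -, h1⟩ | ⟨m, h0, -, h1⟩ | ⟨h1, h2, -⟩
  · exfalso
    rw [h] at h1
    have h2 : 0 = 2 * m := by exact_mod_cast h1
    omega
  · exfalso
    rw [h] at h1
    have h2 : 0 = 2 * m + 1 := by exact_mod_cast h1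
    omega
  · exact ⟨h1, h2⟩

/-- the nonzero classes contain no four-element set -/
theorem tcol_four (hA : Good A) {x y z w n : Ord} (hn : n ≠ 0) (h1 : tcol A x y z = n)
    (h2 : tcol A x y w = n) (h3 : tcol A x z w = n) (h4 : tcol A y z w = n) : False := by
  have key : ∀ {a b c : Ord} (m : ℕ), m ≠ 0 → tcol A a b c = ((2 * m : ℕ) : Ord) →
      sy A (hh A c a) (hh A c b) = (m : Ord) := by
    intro a b c m hm h
    rcases mqD_cases (A := A) a b c with ⟨k, h0, h5, h6⟩ | ⟨k, h0, h5, h6⟩ | ⟨-, -, h6⟩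
    · rw [h6] at h
      have h7 : 2 * k = 2 * m := by exact_mod_cast h
      rw [h5]
      have h8 : k = m := by omega
      rw [h8]
    · exfalso
      rw [h6] at h
      have h7 : 2 * k + 1 = 2 * m := by exact_mod_cast h
      omega
    · exfalso
      rw [h6] at h
      have h7 : 0 = 2 * m := by exact_mod_cast h
      omega
  have key' : ∀ {a b c : Ord} (m : ℕ), m ≠ 0 → tcol A a b c = ((2 * m + 1 : ℕ) : Ord) →
      sy A (hh A b a) (hh A c a) = (m : Ord) := by
    intro a b c m hm h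
    rcases mqD_cases (A := A) a b c with ⟨k, h0, h5, h6⟩ | ⟨k, h0, h5, h6⟩ | ⟨-, -, h6⟩
    · exfalso
      rw [h6] at h
      have h7 : 2 * k = 2 * m + 1 := by exact_mod_cast h
      omega
    · rw [h6] at h
      have h7 : 2 * k + 1 = 2 * m + 1 := by exact_mod_cast h
      rw [h5]
      have h8 : k = m := by omega
      rw [h8]
    · exfalso
      rw [h6] at h
      have h7 : 0 = 2 * m + 1 := by exact_mod_cast h
      omega
  rcases mqD_cases (A := A) x y z with ⟨m, h0, -, h6⟩ | ⟨m, h0, -, h6⟩ | ⟨-, -, h6⟩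
  · have hm1 : (m : Ord) ≠ 0 := by exact_mod_cast h0
    have e : n = ((2 * m : ℕ) : Ord) := by rw [← h1, h6]
    exact sy_tri hA hm1 (key m h0 (h2.trans e)) (key m h0 (h3.trans e)) (key m h0 (h4.trans e))
  · have hm1 : (m : Ord) ≠ 0 := by exact_mod_cast h0
    have e : n = ((2 * m + 1 : ℕ) : Ord) := by rw [← h1, h6]
    exact sy_tri hA hm1 (key' m h0 (h1.trans e)) (key' m h0 (h2.trans e)) (key' m h0 (h3.trans e))
  · exact hn (by rw [← h1, h6])

/-! ### Row mq-E -/

/-- The `i`-th element of `D A H`. -/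
noncomputable def en (A : Ord → Ord → Ord → Prop) (H i : Ord) : Ord :=
  sInf {w | w ∈ D A H ∧ otp (D A H) w = i}

@[is_poly] theorem dfnF_en (h1 : DfnF A GG f) (h2 : DfnF A GG g) :
    DfnF A GG fun U e => en A (f U e) (g U e) := by
  refine DfnF.comp2 (R := fun _ x y => en A x y) ?_ h1 h2
  have h4 : DfnF A GG fun U e =>
      sInf {w | w ∈ D A (e 0) ∧ otp {x | x ∈ D A (e 0)} w = e 1} := by
    (apply_rules (transparency := .reducible) (maxDepth := 1000) using is_poly)
  exact h4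

/-- The situation of the core: `D A H` has at least `kp A` elements, is bounded by `d` below the
successor of `kp A`, and all its triples have the colour zero. -/
structure Core (A : Ord → Ord → Ord → Prop) (H d : Ord) : Prop where
  good : Good A
  bd : ∀ w ∈ D A H, w < d
  hd : d < sc A (kp A)
  big : kp A ≤ otp (D A H) d
  f1 : ∀ a ∈ D A H, ∀ b ∈ D A H, ∀ c ∈ D A H, a < b → b < c →
    sy A (hh A c a) (hh A c b) = 0
  f4 : ∀ a ∈ D A H, ∀ b ∈ D A H, ∀ c ∈ D A H, a < b → b < c →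
    sy A (hh A b a) (hh A c a) = 0

variable {H d : Ord}

theorem Core.en_spec (hC : Core A H d) {i : Ord} (hi : i < kp A) :
    en A H i ∈ D A H ∧ otp (D A H) (en A H i) = i := by
  obtain ⟨z, hz, _, hzi⟩ := exists_otp_eq (hi.trans_le hC.big)
  exact csInf_mem (s := {w | w ∈ D A H ∧ otp (D A H) w = i}) ⟨z, hz, hzi⟩

theorem Core.en_lt (hC : Core A H d) {i j : Ord} (hij : i < j) (hj : j < kp A) :
    en A H i < en A H j := by
  have h1 := hC.en_spec (hij.trans hj)
  have h2 := hC.en_spec hj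
  rw [← otp_lt_iff h1.1, h1.2, h2.2]
  exact hij

theorem Core.en_le (hC : Core A H d) {i j : Ord} (hij : i ≤ j) (hj : j < kp A) :
    en A H i ≤ en A H j := by
  rcases hij.eq_or_lt with h | h
  · rw [h]
  · exact (hC.en_lt h hj).le

theorem Core.al_lt (hC : Core A H d) {j : Ord} (hj : j < th A) : al A j < kp A := by
  exact al_lt_al.mpr hj

/-! ### Row mq-S1 -/
/-! Representatives of the blocks; compare `S1` in `core`, Basic.lean. -/

theorem Core.exists_rep (hC : Core A H d) {j : Ord} (hj : j < th A) :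
    ∃ ξ, al A (j + 1) ≤ ξ ∧ ξ < al A (j + 1 + 1) ∧ j < hh A d (en A H ξ) := by
  by_contra hcon
  push Not at hcon
  have hA := hC.good
  have hj1 : j + 1 < th A := by
    have := (th_lim hA).succ_lt hj
    simpa using this
  have hj2 : j + 1 + 1 < th A := by
    have := (th_lim hA).succ_lt hj1
    simpa using this
  have hlt : al A (j + 1 + 1) < kp A := hC.al_lt hj2
  have h1j : (1 : Ord) ≤ j + 1 := le_add_self
  obtain ⟨x, hx⟩ := sj_hh hA (j := j + 1) (c := d) h1j hC.hd
  have hsj : Sj A (al A (j + 1)) {ξ | al A (j + 1) ≤ ξ ∧ ξ < al A (j + 1 + 1)} := by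
    have h1 : DfnF A GG fun U e =>
      Pool.Agent.Lib.MP_7295f2_lc.otp {y | y ∈ D A (e 1)} (val A (e 2) (e 0)) := by
      (apply_rules (transparency := .reducible) (maxDepth := 1000) using is_poly)
    refine Sj.of_fun h1 (cons H (cons x fun _ => 0)) fun w hw => ?_
    have hwk : w < kp A := hw.2.trans hlt
    obtain ⟨e1, e2⟩ := hC.en_spec hwk
    have h3 : en A H w ∈ {a | a < d ∧ hh A d a ≤ j + 1} :=
      ⟨hC.bd _ e1, (hcon w hw.1 hw.2).trans le_self_add⟩
    obtain ⟨i, hi, hiw⟩ := hx _ h3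
    refine ⟨i, hi, ?_⟩
    show otp (D A H) (val A x i) = w
    rw [hiw]
    exact e2
  have hall : Sj A (al A (j + 1)) (Iio (sc A (al A (j + 1)))) := by
    refine ((Sj.refl (al A (j + 1))).union (clos_al hA h1j) hsj).mono le_rfl ?_
    intro w hw
    rcases lt_or_ge w (al A (j + 1)) with h | h
    · exact Or.inl h
    · refine Or.inr ⟨h, ?_⟩
      rw [al_succ]
      exact hw
  exact not_sj_of_sc (lt_sc _) hall

/-- The representative of the block `j`. -/
noncomputable def XX (A : Ord → Ord → Ord → Prop) (H d j : Ord) : Ord :=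
  sInf {ξ | al A (j + 1) ≤ ξ ∧ ξ < al A (j + 1 + 1) ∧ j < hh A d (en A H ξ)}

@[is_poly] theorem dfnF_XX (h1 : DfnF A GG f) (h2 : DfnF A GG g) (h3 : DfnF A GG h) :
    DfnF A GG fun U e => XX A (f U e) (g U e) (h U e) := by
  refine DfnF.comp3 (R := fun _ x y z => XX A x y z) ?_ h1 h2 h3
  unfold XX
  apply_rules (transparency := .reducible) (maxDepth := 1000) using is_poly

theorem Core.XX_spec (hC : Core A H d) {j : Ord} (hj : j < th A) :
    al A (j + 1) ≤ XX A H d j ∧ XX A H d j < al A (j + 1 + 1) ∧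
      j < hh A d (en A H (XX A H d j)) :=
  csInf_mem (s := {ξ | al A (j + 1) ≤ ξ ∧ ξ < al A (j + 1 + 1) ∧ j < hh A d (en A H ξ)})
    (hC.exists_rep hj)

/-! ### Row mq-S2 -/
/-! Rows are bounded; compare `S2` in `core`. -/

/-- The bound of the row of `ξ`. -/
noncomputable def ss (A : Ord → Ord → Ord → Prop) (H ξ : Ord) : Ord :=
  sInf {s | ∀ η < kp A, ξ < η → hh A (en A H η) (en A H ξ) ≤ s}

@[is_poly] theorem dfnF_ss (h1 : DfnF A GG f) (h2 : DfnF A GG g) :
    DfnF A GG fun U e => ss A (f U e) (g U e) := by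
  refine DfnF.comp2 (R := fun _ x y => ss A x y) ?_ h1 h2
  unfold ss
  (apply_rules (transparency := .reducible) (maxDepth := 1000) using is_poly)

theorem Core.ss_spec (hC : Core A H d) {ξ : Ord} (hξ : ξ < kp A) :
    ss A H ξ < th A ∧ ∀ η < kp A, ξ < η → hh A (en A H η) (en A H ξ) ≤ ss A H ξ := by
  have hlt : ∀ η < kp A, hh A (en A H η) (en A H ξ) < th A := fun η hη =>
    hh_lt hC.good ((hC.bd _ (hC.en_spec hη).1).trans hC.hd) _
  have key : ∃ s < th A, ∀ η < kp A, ξ < η → hh A (en A H η) (en A H ξ) ≤ s := by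
    by_contra hcon
    push Not at hcon
    have h1 : Dfn A GG fun U e => ∃ η < kp A, e 1 < η ∧
        e 0 = hh A (en A (e 2) η) (en A (e 2) (e 1)) := by
      (apply_rules (transparency := .reducible) (maxDepth := 1000) using is_poly)
    obtain ⟨z, hz⟩ := int_of_dfn' h1 (cons ξ (cons H fun _ => 0)) (β := th A) (by
      rintro w ⟨η, hη1, hη2, hη3⟩
      have hη3 : w = hh A (en A H η) (en A H ξ) := hη3
      rw [hη3]
      exact hlt η hη1)
    have hz' : ∀ w, w ∈ D A z ↔ ∃ η < kp A, ξ < η ∧ w = hh A (en A H η) (en A H ξ) := by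
      intro w
      rw [hz]
      exact Iff.rfl
    obtain ⟨p, hp, q, hq, hpq, hne⟩ := pc_unb hC.good (z := z) (by
      intro w hw
      obtain ⟨η, hη1, hη2, rfl⟩ := (hz' w).mp hw
      exact hlt η hη1) (by
      intro w hw
      obtain ⟨η, hη1, hη2, hη3⟩ := hcon w hw
      exact ⟨_, (hz' _).mpr ⟨η, hη1, hη2, rfl⟩, hη3⟩)
    obtain ⟨η, hη1, hη2, rfl⟩ := (hz' p).mp hp
    obtain ⟨η', hη1', hη2', rfl⟩ := (hz' q).mp hq
    rcases lt_trichotomy η η' with hlt' | heq | hgt
    · have := hC.f4 _ (hC.en_spec hξ).1 _ (hC.en_spec hη1).1 _ (hC.en_spec hη1').1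
        (hC.en_lt hη2 hη1) (hC.en_lt hlt' hη1')
      rw [sy_of_lt hpq] at this
      exact hne this
    · rw [heq] at hpq
      exact absurd hpq (lt_irrefl _)
    · have := hC.f4 _ (hC.en_spec hξ).1 _ (hC.en_spec hη1').1 _ (hC.en_spec hη1).1
        (hC.en_lt hη2' hη1') (hC.en_lt hgt hη1)
      rw [sy_comm, sy_of_lt hpq] at this
      exact hne this
  obtain ⟨s, hs1, hs2⟩ := key
  have hmem : s ∈ {s | ∀ η < kp A, ξ < η → hh A (en A H η) (en A H ξ) ≤ s} := hs2
  refine ⟨lt_of_le_of_lt (csInf_le' hmem) hs1, ?_⟩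
  exact csInf_mem (s := {s | ∀ η < kp A, ξ < η → hh A (en A H η) (en A H ξ) ≤ s}) ⟨s, hs2⟩

/-! ### Row mq-S3 -/
/-! Compare `S3` in `core`. -/

/-- Above `e` the levels of the first `al A i` elements in `d` and in the element `al A i` are the
same. -/
def PP' (A : Ord → Ord → Ord → Prop) (H d i e : Ord) : Prop :=
  ∀ ξ < al A i, al A e ≤ ξ → e < hh A d (en A H ξ) →
    hh A (en A H (al A i)) (en A H ξ) = hh A d (en A H ξ)

theorem dfn_PP' {f₁ f₂ f₃ f₄ : Set Ord → Env → Ord} (h1 : DfnF A GG f₁) (h2 : DfnF A GG f₂)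
    (h3 : DfnF A GG f₃) (h4 : DfnF A GG f₄) :
    Dfn A GG fun U e => PP' A (f₁ U e) (f₂ U e) (f₃ U e) (f₄ U e) := by
  refine Dfn.comp4 (R := fun _ H d i e => PP' A H d i e) ?_ h1 h2 h3 h4
  unfold PP'
  apply_rules (transparency := .reducible) (maxDepth := 1000) using is_poly

/-- two `max` identities -/
private theorem mqS3_max {v w z : Ord} (h : v < z) (hz : z = max v w) : w = z := by
  rcases le_total v w with h' | h'
  · rw [hz, max_eq_right h']
  · rw [hz, max_eq_left h'] at h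
    exact absurd h (lt_irrefl _)

theorem Core.exists_exc (hC : Core A H d) {i : Ord} (hi : i < th A) (hlim : Order.IsSuccLimit i)
    (hcl : ∀ j < i, ss A H (XX A H d j) < i ∧ hh A d (en A H (XX A H d j)) < i) :
    ∃ e < i, PP' A H d i e := by
  have hA := hC.good
  have hiκ : al A i < kp A := hC.al_lt hi
  have hlt : ∀ {ξ}, ξ < al A i → ξ < kp A := fun h => h.trans hiκ
  have hmem : en A H (al A i) ∈ {y : Ord | ∀ ξ < al A i, en A H ξ < y} := fun ξ hξ =>
    hC.en_lt hξ hiκ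
  obtain ⟨γ, hγ⟩ : ∃ γ : Ord, γ = sInf {y : Ord | ∀ ξ < al A i, en A H ξ < y} := ⟨_, rfl⟩
  have hltγ : ∀ ξ < al A i, en A H ξ < γ := by
    have h0 := csInf_mem (⟨_, hmem⟩ : {y : Ord | ∀ ξ < al A i, en A H ξ < y}.Nonempty)
    rw [← hγ] at h0
    exact h0
  have hγc : γ ≤ en A H (al A i) := by
    rw [hγ]
    exact csInf_le' hmem
  have hγex : ∀ y < γ, ∃ ξ < al A i, y ≤ en A H ξ := by
    intro y hy
    rw [hγ] at hy
    have h0 := notMem_of_lt_csInf' hy
    by_contra hcon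
    push Not at hcon
    exact h0 hcon
  have hγd : γ < d := hγc.trans_lt (hC.bd _ (hC.en_spec hiκ).1)
  have hμlim : Order.IsSuccLimit (al A i) := isLimit_of_mc hA (omega_le_al i) (mc_al i)
  have hγlim : Order.IsSuccLimit γ := by
    rcases Ordinal.zero_or_succ_or_isSuccLimit γ with h0 | ⟨b, hb⟩ | h0
    · have := hltγ 0 hμlim.bot_lt
      rw [h0] at this
      exact absurd this (not_lt.mpr (zero_le))
    · exfalso
      obtain ⟨ξ, hξ, hbξ⟩ := hγex b (by rw [← hb]; exact Order.lt_succ b)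
      have h1 := hltγ _ (hμlim.succ_lt hξ)
      rw [← hb] at h1
      have h2 := hC.en_lt (Order.lt_succ ξ) (hlt (hμlim.succ_lt hξ))
      exact absurd ((Order.lt_succ_iff.mp h1).trans hbξ) (not_le.mpr h2)
    · exact h0
  -- coherence with `d` and with the element `al A i`
  obtain ⟨γ₁, hγ₁, v, hv⟩ := hh_local hA hγlim hC.hd hγd
  have hcd : en A H (al A i) < sc A (kp A) := (hC.bd _ (hC.en_spec hiκ).1).trans hC.hd
  have hcc : ∃ γ' < γ, ∃ u, ∀ a, γ' ≤ a → a < γ →
      hh A (en A H (al A i)) a = max u (hh A γ a) := by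
    rcases hγc.eq_or_lt with e | e
    · refine ⟨0, hγlim.bot_lt, 0, fun a _ _ => ?_⟩
      rw [← e]
      simp
    · exact hh_local hA hγlim hcd e
  obtain ⟨γ₂, hγ₂, u, hu⟩ := hcc
  obtain ⟨ξ₀, hξ₀, hge₀⟩ := hγex (max γ₁ γ₂) (max_lt hγ₁ hγ₂)
  obtain ⟨j, hj, hξj⟩ := al_cont hlim hξ₀
  -- the test point
  have hjΘ : j < th A := hj.trans hi
  have hj2 : j + 1 + 1 < i := by
    have := hlim.succ_lt (hlim.succ_lt hj)
    simpa using this
  obtain ⟨hX1, hX2, hX3⟩ := hC.XX_spec hjΘ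
  have hXi : XX A H d j < al A i := hX2.trans (al_lt_al.mpr hj2)
  have hXγ : en A H (XX A H d j) < γ := hltγ _ hXi
  have hjX : al A j ≤ XX A H d j := (al_le_al.mpr (le_self_add)).trans hX1
  have hge : max γ₁ γ₂ ≤ en A H (XX A H d j) :=
    hge₀.trans (hC.en_le (hξj.le.trans hjX) (hlt hXi))
  have hvlt : v < i := by
    have e := hv _ ((le_max_left _ _).trans hge) hXγ
    have e' := (hcl _ hj).2
    rw [e] at e'
    exact (le_max_left _ _).trans_lt e'
  have hult : u < i := by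
    have e := hu _ ((le_max_right _ _).trans hge) hXγ
    have e' := ((hC.ss_spec (hlt hXi)).2 (al A i) hiκ hXi).trans_lt (hcl _ hj).1
    rw [e] at e'
    exact (le_max_left _ _).trans_lt e'
  refine ⟨max j (max u v), max_lt hj (max_lt hult hvlt), ?_⟩
  intro ξ hξ2 hξ1 hξ3
  have hξγ : en A H ξ < γ := hltγ ξ hξ2
  have hξge : max γ₁ γ₂ ≤ en A H ξ :=
    hge₀.trans (hC.en_le (hξj.le.trans ((al_le_al.mpr (le_max_left _ _)).trans hξ1)) (hlt hξ2))
  have ev := hv _ ((le_max_left _ _).trans hξge) hξγ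
  have eu := hu _ ((le_max_right _ _).trans hξge) hξγ
  have hvξ : v < hh A d (en A H ξ) := ((le_max_right _ _).trans (le_max_right _ _)).trans_lt hξ3
  have huξ : u < hh A d (en A H ξ) := ((le_max_left _ _).trans (le_max_right _ _)).trans_lt hξ3
  have e1 : hh A γ (en A H ξ) = hh A d (en A H ξ) := mqS3_max hvξ ev
  rw [eu, e1, max_eq_right huξ.le]

/-! ### Row mq-S4 -/
/-! Compare `S4` in `core`; closure points: `exists_clpt`, LSquare.lean, with
`th A = sc A (al A ω)`. -/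

/-- the bound of the indices which are good for `e` -/
private noncomputable def mqS4b (A : Ord → Ord → Ord → Prop) (H d e : Ord) : Ord :=
  sInf {b | ∀ i < th A, b < i → ¬ PP' A H d i e}

private theorem mqS4_dfn {f₁ f₂ f₃ : Set Ord → Env → Ord} (h1 : DfnF A GG f₁) (h2 : DfnF A GG f₂)
    (h3 : DfnF A GG f₃) : DfnF A GG fun U e => mqS4b A (f₁ U e) (f₂ U e) (f₃ U e) := by
  refine DfnF.comp3 (R := fun _ x y z => mqS4b A x y z) ?_ h1 h2 h3
  unfold mqS4b
  apply_rules (transparency := .reducible) (maxDepth := 1000) [dfn_PP'] using is_poly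

theorem Core.fixed (hC : Core A H d) :
    ∃ e < th A, ∀ b < th A, ∃ i, b < i ∧ i < th A ∧ PP' A H d i e := by
  by_contra hcon
  push Not at hcon
  have hlt := th_lim hC.good
  have hsucc : ∀ x, x < th A → x + 1 < th A := fun x hx => by
    have := hlt.succ_lt hx
    rwa [Order.succ_eq_add_one] at this
  -- the bound
  have hb : ∀ e < th A, mqS4b A H d e < th A ∧ ∀ i < th A, mqS4b A H d e < i → ¬ PP' A H d i e := by
    intro e he
    obtain ⟨b, hb1, hb2⟩ := hcon e he
    have hmem : b ∈ {b | ∀ i < th A, b < i → ¬ PP' A H d i e} := fun i hi hbi => hb2 i hbi hi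
    exact ⟨(csInf_le' hmem).trans_lt hb1, csInf_mem ⟨b, hmem⟩⟩
  have hXκ : ∀ j < th A, XX A H d j < kp A := fun j hj =>
    (hC.XX_spec hj).2.1.trans (hC.al_lt (hsucc _ (hsucc _ hj)))
  have hg : DfnF A GG fun U e => max (mqS4b A (e 1) (e 2) (e 0)) (max (e 0 + 1)
      (max (ss A (e 1) (XX A (e 1) (e 2) (e 0)))
        (hh A (e 2) (en A (e 1) (XX A (e 1) (e 2) (e 0)))))) := by
    apply_rules (transparency := .reducible) (maxDepth := 1000) [mqS4_dfn] using is_poly
  obtain ⟨δ, h1, h2, h3⟩ := exists_clpt (clos_alom hC.good) hg (cons H (cons d fun _ => 0)) (by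
    intro γ hγ
    rw [← th_eq] at hγ ⊢
    refine max_lt (hb γ hγ).1 (max_lt (hsucc γ hγ) (max_lt ?_ ?_))
    · exact (hC.ss_spec (hXκ γ hγ)).1
    · exact hh_lt hC.good hC.hd _) (b := 0) (by
    rw [← th_eq]
    exact hlt.bot_lt)
  rw [← th_eq] at h1
  have hcl : ∀ γ < δ, mqS4b A H d γ < δ ∧ γ + 1 < δ ∧ ss A H (XX A H d γ) < δ ∧
      hh A d (en A H (XX A H d γ)) < δ := by
    intro γ hγ
    have h4 := h3 γ hγ
    have h5 : max (mqS4b A H d γ) (max (γ + 1) (max (ss A H (XX A H d γ))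
        (hh A d (en A H (XX A H d γ))))) < δ := h4
    rw [max_lt_iff, max_lt_iff, max_lt_iff] at h5
    exact h5
  have hlim : Order.IsSuccLimit δ := by
    rw [Ordinal.isSuccLimit_iff]
    refine ⟨h2.ne', Order.isSuccPrelimit_of_succ_lt fun x hx => ?_⟩
    rw [Order.succ_eq_add_one]
    exact (hcl x hx).2.1
  obtain ⟨e, he, hP⟩ := hC.exists_exc h1 hlim fun j hj => ⟨(hcl j hj).2.2.1, (hcl j hj).2.2.2⟩
  exact (hb e (he.trans h1)).2 δ h1 (hcl e he).1 hP

/-! ### Row mq-S5 -/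

private theorem mqS5_int (H d e : Ord) : Int A {w | w < th A ∧
    ∃ j < th A, e < j ∧ w = hh A d (en A H (XX A H d j))} := by
  have h4 : Dfn A GG fun U e => ∃ y < th A, e 1 < y ∧
      e 0 = hh A (e 3) (en A (e 2) (XX A (e 2) (e 3) y)) := by
    apply_rules (transparency := .reducible) (maxDepth := 1000) using is_poly
  exact int_of_dfn h4 (cons e (cons H (cons d fun _ => 0))) (th A)

theorem Core.false (hC : Core A H d) : False := by
  have hlt := th_lim hC.good
  have hsucc : ∀ x, x < th A → x + 1 < th A := fun x hx => by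
    have := hlt.succ_lt hx
    rwa [Order.succ_eq_add_one] at this
  obtain ⟨e, he, hPe⟩ := hC.fixed
  obtain ⟨z, hz⟩ := mqS5_int (A := A) H d e
  obtain ⟨p, hp, q, hq, hpq, hne⟩ := pc_unb hC.good (z := z) (by
    intro w hw
    rw [hz] at hw
    exact hw.1) (by
    intro w hw
    have hm : max e w < th A := max_lt he hw
    have hm' := hsucc _ hm
    refine ⟨hh A d (en A H (XX A H d (max e w + 1))), ?_, ?_⟩
    · rw [hz]
      refine ⟨hh_lt hC.good hC.hd _, _, hm', ?_, rfl⟩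
      exact Order.lt_add_one_iff.mpr (le_max_left _ _)
    · exact (Order.lt_add_one_iff.mpr (le_max_right e w)).trans (hC.XX_spec hm').2.2)
  rw [hz] at hp hq
  obtain ⟨_, j, hj2, hj1, rfl⟩ := hp
  obtain ⟨_, k, hk2, hk1, rfl⟩ := hq
  obtain ⟨i, hi1, hi2, hPi⟩ := hPe (max j k + 1 + 1) (hsucc _ (hsucc _ (max_lt hj2 hk2)))
  have hiκ : al A i < kp A := hC.al_lt hi2
  have hval : ∀ r, e < r → r < th A → r ≤ max j k →
      hh A (en A H (al A i)) (en A H (XX A H d r)) = hh A d (en A H (XX A H d r)) ∧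
        XX A H d r < al A i := by
    intro r hr1 hr2 hr3
    obtain ⟨hX1, hX2, hX3⟩ := hC.XX_spec hr2
    have hXr : XX A H d r < al A i := by
      refine hX2.trans (al_lt_al.mpr ?_)
      refine lt_of_le_of_lt ?_ hi1
      gcongr
    refine ⟨hPi _ hXr ?_ (hr1.trans hX3), hXr⟩
    exact (al_le_al.mpr (hr1.le.trans (le_self_add))).trans hX1
  obtain ⟨ej, hXj⟩ := hval j hj1 hj2 (le_max_left _ _)
  obtain ⟨ek, hXk⟩ := hval k hk1 hk2 (le_max_right _ _)
  have hmem : ∀ ξ, ξ < al A i → en A H ξ ∈ D A H := fun ξ hξ => (hC.en_spec (hξ.trans hiκ)).1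
  have hmi : en A H (al A i) ∈ D A H := (hC.en_spec hiκ).1
  rcases lt_trichotomy (XX A H d j) (XX A H d k) with hlt' | heq | hgt
  · have := hC.f1 _ (hmem _ hXj) _ (hmem _ hXk) _ hmi (hC.en_lt hlt' (hXk.trans hiκ))
      (hC.en_lt hXk hiκ)
    rw [ej, ek, sy_of_lt hpq] at this
    exact hne this
  · rw [heq] at hpq
    exact absurd hpq (lt_irrefl _)
  · have := hC.f1 _ (hmem _ hXk) _ (hmem _ hXj) _ hmi (hC.en_lt hgt (hXj.trans hiκ))
      (hC.en_lt hXj hiκ)
    rw [ej, ek, sy_comm, sy_of_lt hpq] at this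
    exact hne this

end Pool.Agent.Lib.MP_69a707_lc.MQ
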