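import Pool.Agent.Lib.MP_69a707_lc.Model
import Pool.Agent.Lib.MP_69a707_lc.MQ5

/-! The relation in the model. Compare the last section of
`Pool/Agent/Lib/MP_7295f2_lc/LBridge.lean` (`not_arrow_MM`). -/

open Ordinal Set
open Pool.Agent.Lib.MP_7295f2_lc Pool.Agent.Lib.MP_7295f2_lc.LA

set_option linter.unusedVariables false
set_option linter.unusedSectionVars false

namespace Pool.Agent.Lib.MP_69a707_lc.MQ

variable {A : Ord → Ord → Ord → Prop} {P Q : Set Ord → Env → Prop} {f g h : Set Ord → Env → Ord}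

/-! ### Row mq-B1 -/

theorem isInfCard_oz (hA : Good A) {μ : Ord} :
    IsInfCard (EE A) (oz A μ) ↔ ω ≤ μ ∧ MC A μ := by
  constructor
  · intro h
    exact ⟨omega_le_of_infCard h, isCard_oz.mp h.1⟩
  · rintro ⟨h1, h2⟩
    refine ⟨isCard_oz.mpr h2, ⟨oz A 0, oz_mem_iff.mpr (Ordinal.omega0_pos.trans_le h1)⟩,
      fun y hy => ?_⟩
    obtain ⟨α, hα, rfl⟩ := mem_oz.mp hy
    exact ⟨_, oz_mem_iff.mpr ((isLimit_of_mc hA h1 h2).succ_lt hα),
      oz_mem_iff.mpr (Order.lt_succ α)⟩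

theorem isAlephOf_oz (hA : Good A) (α : Ord) : IsAlephOf (EE A) (oz A α) (oz A (al A α)) := by
  refine ⟨(isInfCard_oz hA).mpr (al_spec α).1, ?_⟩
  have hs : DfnF A GG fun U e => on A (e 0) := by
    (apply_rules (transparency := .reducible) (maxDepth := 1000) using is_poly)
  have ht : DfnF A GG fun U e => on A (al A (e 0)) := by
    (apply_rules (transparency := .reducible) (maxDepth := 1000) using is_poly)
  have hC : Dfn A GG fun U e => e 0 = e 0 := by
    (apply_rules (transparency := .reducible) (maxDepth := 1000) using is_poly)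
  obtain ⟨F, hF⟩ := exists_fun hC hs ht (fun _ => 0) α
  have hF₁ : ∀ q, EE A q F ↔ ∃ i < α, (i = i) ∧ q = km A (op A (on A i) (on A (al A i))) := hF
  have hF' := fun (a b : MM A) => hasPair_fun (A := A) (F := F) (a := a) (b := b)
    (C' := fun i => i = i) (s' := fun i => on A i) (t' := fun i => on A (al A i)) (α := α) hF₁
  refine ⟨F, ?_, ?_, ?_, ?_⟩
  · intro q hq
    obtain ⟨i, hi, _, rfl⟩ := (hF₁ q).mp hq
    exact ⟨oz A i, oz A (al A i), oz_mem_iff.mpr hi, oz_mem_iff.mpr (al_lt_al.mpr hi),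
      (isInfCard_oz hA).mpr (al_spec i).1, isPair_op _ _⟩
  · intro a ha
    obtain ⟨i, hi, rfl⟩ := mem_oz.mp ha
    exact ⟨_, (hF' _ _).mpr ⟨i, hi, rfl, rfl, rfl⟩⟩
  · intro b hb hb'
    obtain ⟨μ, hμ, rfl⟩ := mem_oz.mp hb
    obtain ⟨h1, h2⟩ := (isInfCard_oz hA).mp hb'
    obtain ⟨i, _, rfl⟩ := exists_al h1 h2
    exact ⟨_, (hF' _ _).mpr ⟨i, al_lt_al.mp hμ, rfl, rfl, rfl⟩⟩
  · intro a b a' b' h h'
    obtain ⟨i, hi, _, h1, h2⟩ := (hF' _ _).mp h
    obtain ⟨i', hi', _, h3, h4⟩ := (hF' _ _).mp h'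
    rw [← h1, ← h2, ← h3, ← h4]
    exact (oz_mem_iff.trans al_lt_al.symm).trans oz_mem_iff.symm

theorem isSucc_oz (α : Ord) : IsSucc (EE A) (oz A α) (oz A (α + 1)) := by
  intro z
  rw [mem_oz, mem_oz]
  constructor
  · rintro ⟨β, hβ, rfl⟩
    rcases (Order.lt_add_one_iff.mp hβ).lt_or_eq with h | h
    · exact Or.inl ⟨β, h, rfl⟩
    · exact Or.inr (by rw [h])
  · rintro (⟨β, hβ, rfl⟩ | rfl)
    · exact ⟨β, hβ.trans (Order.lt_add_one_iff.mpr le_rfl), rfl⟩
    · exact ⟨α, Order.lt_add_one_iff.mpr le_rfl, rfl⟩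

/-! ### Row mq-B2 -/

/-- The name of the set `{a, b, c}`. -/
noncomputable def fn3 (A : Ord → Ord → Ord → Prop) (a b c : Ord) : Ord :=
  nm A {w | w = on A a ∨ w = on A b ∨ w = on A c}

theorem dfnF_fn3 (h1 : DfnF A GG f) (h2 : DfnF A GG g) (h3 : DfnF A GG h) :
    DfnF A GG fun U e => fn3 A (f U e) (g U e) (h U e) := by
  refine DfnF.comp3 (R := fun _ a b c => fn3 A a b c) ?_ h1 h2 h3
  unfold fn3
  apply DfnF.nm
  (apply_rules (transparency := .reducible) (maxDepth := 1000) using is_poly)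

theorem mem_fn3 {a b c : Ord} {z : MM A} : EE A z (km A (fn3 A a b c)) ↔
    z = oz A a ∨ z = oz A b ∨ z = oz A c := by
  have hint : Int A {w | w = on A a ∨ w = on A b ∨ w = on A c} := by
    have h1 : Dfn A GG fun U e => e 0 = e 1 ∨ e 0 = e 2 ∨ e 0 = e 3 := by (apply_rules (transparency := .reducible) (maxDepth := 1000) using is_poly)
    refine int_of_dfn' h1 (cons (on A a) (cons (on A b) (cons (on A c) fun _ => 0)))
      (β := max (max (on A a) (on A b)) (on A c) + 1) ?_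
    rintro w (h | h | h)
    · have h' : w = on A a := h
      rw [h']
      exact Order.lt_add_one_iff.mpr ((le_max_left _ _).trans (le_max_left _ _))
    · have h' : w = on A b := h
      rw [h']
      exact Order.lt_add_one_iff.mpr ((le_max_right _ _).trans (le_max_left _ _))
    · have h' : w = on A c := h
      rw [h']
      exact Order.lt_add_one_iff.mpr (le_max_right _ _)
  unfold fn3
  rw [EE_iff, D_nm hint]
  constructor
  · rintro ⟨w, rfl | rfl | rfl, rfl⟩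
    · exact Or.inl rfl
    · exact Or.inr (Or.inl rfl)
    · exact Or.inr (Or.inr rfl)
  · rintro (rfl | rfl | rfl)
    · exact ⟨_, Or.inl rfl, rfl⟩
    · exact ⟨_, Or.inr (Or.inl rfl), rfl⟩
    · exact ⟨_, Or.inr (Or.inr rfl), rfl⟩

private theorem mqB2_le {a b c a' b' c' : Ord} (h1 : a < b) (h2 : b < c)
    (h1' : a' < b') (h2' : b' < c')
    (h : ∀ x, (x = a ∨ x = b ∨ x = c) → (x = a' ∨ x = b' ∨ x = c')) :
    a' ≤ a ∧ b' ≤ b ∧ c' ≤ c := by
  have ha : a' ≤ a := by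
    rcases h a (Or.inl rfl) with g | g | g <;> rw [g]
    · exact h1'.le
    · exact (h1'.trans h2').le
  have hb : b' ≤ b := by
    rcases h b (Or.inr (Or.inl rfl)) with g | g | g
    · rw [g] at h1
      exact absurd ha (not_le.mpr h1)
    · rw [g]
    · rw [g]
      exact h2'.le
  have hc : c' ≤ c := by
    rcases h c (Or.inr (Or.inr rfl)) with g | g | g
    · rw [g] at h2
      exact absurd (ha.trans h1.le) (not_le.mpr h2)
    · rw [g] at h2
      exact absurd hb (not_le.mpr h2)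
    · rw [g]
  exact ⟨ha, hb, hc⟩

theorem fn3_inj {a b c a' b' c' : Ord} (h1 : a < b) (h2 : b < c) (h1' : a' < b') (h2' : b' < c')
    (h : km A (fn3 A a b c) = km A (fn3 A a' b' c')) : a = a' ∧ b = b' ∧ c = c' := by
  have h3 : ∀ x, (x = a ∨ x = b ∨ x = c) ↔ (x = a' ∨ x = b' ∨ x = c') := by
    intro x
    have h5 : EE A (oz A x) (km A (fn3 A a b c)) ↔ EE A (oz A x) (km A (fn3 A a' b' c')) := by
      rw [h]
    rw [mem_fn3, mem_fn3] at h5
    have h6 : ∀ y, oz A x = oz A y ↔ x = y := fun y => ⟨oz_inj, fun h => by rw [h]⟩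
    simpa only [h6] using h5
  obtain ⟨g1, g2, g3⟩ := mqB2_le h1 h2 h1' h2' fun x => (h3 x).mp
  obtain ⟨g4, g5, g6⟩ := mqB2_le h1' h2' h1 h2 fun x => (h3 x).mpr
  exact ⟨le_antisymm g4 g1, le_antisymm g5 g2, le_antisymm g6 g3⟩

theorem subsetOfSize_fn3 {X : MM A} {a b c : Ord} (h1 : a < b) (h2 : b < c)
    (ha : EE A (oz A a) X) (hb : EE A (oz A b) X) (hc : EE A (oz A c) X) :
    IsSubsetOfSize (EE A) 3 X (km A (fn3 A a b c)) := by
  refine ⟨![oz A a, oz A b, oz A c], ?_, ?_, fun z => ?_⟩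
  · have hmono : StrictMono ![a, b, c] := by
      rw [Fin.strictMono_iff_lt_succ]
      intro i
      fin_cases i
      · exact h1
      · exact h2
    have : ![oz A a, oz A b, oz A c] = fun i => oz A (![a, b, c] i) := by
      funext i
      fin_cases i <;> rfl
    rw [this]
    intro i j hij
    exact hmono.injective (oz_inj hij)
  · intro i
    fin_cases i
    · exact ha
    · exact hb
    · exact hc
  · rw [mem_fn3]
    constructor
    · rintro (rfl | rfl | rfl)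
      · exact ⟨0, rfl⟩
      · exact ⟨1, rfl⟩
      · exact ⟨2, rfl⟩
    · rintro ⟨i, rfl⟩
      fin_cases i
      · exact Or.inl rfl
      · exact Or.inr (Or.inl rfl)
      · exact Or.inr (Or.inr rfl)

private theorem mqB2_sorted (α : Fin 3 → Ord) (hα : Function.Injective α) :
    ∃ a b c : Ord, a < b ∧ b < c ∧ ∀ x, (∃ i, α i = x) ↔ (x = a ∨ x = b ∨ x = c) := by
  classical
  set S : Finset Ord := Finset.univ.image α with hS
  have hcard : S.card = 3 := by
    rw [hS, Finset.card_image_of_injective _ hα]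
    simp
  set e := S.orderEmbOfFin hcard with he
  refine ⟨e 0, e 1, e 2, ?_, ?_, fun x => ?_⟩
  · exact (OrderEmbedding.lt_iff_lt _).mpr (by decide)
  · exact (OrderEmbedding.lt_iff_lt _).mpr (by decide)
  · have h1 : Set.range e = (S : Set Ord) := Finset.range_orderEmbOfFin S hcard
    have h2 : (∃ i, α i = x) ↔ x ∈ (S : Set Ord) := by
      rw [hS]
      simp
    rw [h2, ← h1]
    constructor
    · rintro ⟨i, rfl⟩
      fin_cases i
      · exact Or.inl rfl
      · exact Or.inr (Or.inl rfl)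
      · exact Or.inr (Or.inr rfl)
    · rintro (rfl | rfl | rfl)
      · exact ⟨0, rfl⟩
      · exact ⟨1, rfl⟩
      · exact ⟨2, rfl⟩

/-- every `3`-element subset of the ordinal `L` -/
theorem exists_fn3 {L : Ord} {s : MM A} (hs : IsSubsetOfSize (EE A) 3 (oz A L) s) :
    ∃ a b c, a < b ∧ b < c ∧ c < L ∧ s = km A (fn3 A a b c) := by
  obtain ⟨l, hl1, hl2, hl3⟩ := hs
  have : ∀ i, ∃ α < L, l i = oz A α := fun i => mem_oz.mp (hl2 i)
  choose α hα1 hα2 using this
  have hinj : Function.Injective α := by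
    intro i j hij
    apply hl1
    rw [hα2, hα2, hij]
  obtain ⟨a, b, c, h1, h2, h4⟩ := mqB2_sorted α hinj
  have hc : c < L := by
    obtain ⟨i, hi⟩ := (h4 c).mpr (Or.inr (Or.inr rfl))
    rw [← hi]
    exact hα1 i
  refine ⟨a, b, c, h1, h2, hc, ?_⟩
  apply ext_MM
  intro w
  rw [mem_fn3, hl3]
  constructor
  · rintro ⟨j, rfl⟩
    rw [hα2]
    rcases (h4 (α j)).mp ⟨j, rfl⟩ with h | h | h
    · rw [h]
      exact Or.inl rfl
    · rw [h]
      exact Or.inr (Or.inl rfl)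
    · rw [h]
      exact Or.inr (Or.inr rfl)
  · rintro (rfl | rfl | rfl)
    · obtain ⟨j, hj⟩ := (h4 a).mpr (Or.inl rfl)
      exact ⟨j, by rw [hα2, hj]⟩
    · obtain ⟨j, hj⟩ := (h4 b).mpr (Or.inr (Or.inl rfl))
      exact ⟨j, by rw [hα2, hj]⟩
    · obtain ⟨j, hj⟩ := (h4 c).mpr (Or.inr (Or.inr rfl))
      exact ⟨j, by rw [hα2, hj]⟩

/-- every `4`-element subset of the ordinal `L` -/
theorem exists_four {L : Ord} {s : MM A} (hs : IsSubsetOfSize (EE A) 4 (oz A L) s) :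
    ∃ x y z w, x < y ∧ y < z ∧ z < w ∧ w < L ∧ EE A (oz A x) s ∧ EE A (oz A y) s ∧
      EE A (oz A z) s ∧ EE A (oz A w) s := by
  obtain ⟨l, hl1, hl2, hl3⟩ := hs
  have : ∀ i, ∃ α < L, l i = oz A α := fun i => mem_oz.mp (hl2 i)
  choose α hα1 hα2 using this
  have hinj : Function.Injective α := by
    intro i j hij
    apply hl1
    rw [hα2, hα2, hij]
  obtain ⟨a, b, c, d, h1, h2, h3, h4⟩ := exists_sorted α hinj
  have hd : d < L := by
    obtain ⟨i, hi⟩ := (h4 d).mpr (Or.inr (Or.inr (Or.inr rfl)))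
    rw [← hi]
    exact hα1 i
  have hm : ∀ x, (x = a ∨ x = b ∨ x = c ∨ x = d) → EE A (oz A x) s := by
    intro x hx
    obtain ⟨i, hi⟩ := (h4 x).mpr hx
    rw [hl3]
    exact ⟨i, by rw [hα2, hi]⟩
  exact ⟨a, b, c, d, h1, h2, h3, hd, hm a (Or.inl rfl), hm b (Or.inr (Or.inl rfl)),
    hm c (Or.inr (Or.inr (Or.inl rfl))), hm d (Or.inr (Or.inr (Or.inr rfl)))⟩

/-! ### Row mq-B3 -/

/-- use `exists_fun` with the indices `pr (pr a b) c < sc A (kp A)` -/
theorem exists_colouring (hA : Good A) : ∃ F : MM A,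
    IsColouring (EE A) (oz A (sc A (kp A))) (oz A ω) F ∧
      ∀ a b c t, a < b → b < c → c < sc A (kp A) →
        HasPair (EE A) F (km A (fn3 A a b c)) t → t = oz A (tcol A a b c) := by
  have cL : Clos (sc A (kp A)) := clos_sc (A := A) (O1_le_kp hA)
  -- the coordinates of an index
  set ca : Ord → Ord := fun i => ent (ent i 0) 0 with hca
  set cb : Ord → Ord := fun i => ent (ent i 0) 1 with hcb
  set cc : Ord → Ord := fun i => ent i 1 with hcc
  have hC : Dfn A GG fun U e => ent (ent (e 0) 0) 0 < ent (ent (e 0) 0) 1 ∧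
      ent (ent (e 0) 0) 1 < ent (e 0) 1 := by
    (apply_rules (transparency := .reducible) (maxDepth := 1000) using is_poly)
  have hs : DfnF A GG fun U e => fn3 A (ent (ent (e 0) 0) 0) (ent (ent (e 0) 0) 1)
      (ent (e 0) 1) :=
    dfnF_fn3 (by (apply_rules (transparency := .reducible) (maxDepth := 1000) using is_poly))
      (by (apply_rules (transparency := .reducible) (maxDepth := 1000) using is_poly))
      (by (apply_rules (transparency := .reducible) (maxDepth := 1000) using is_poly))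
  have ht : DfnF A GG fun U e => on A (tcol A (ent (ent (e 0) 0) 0) (ent (ent (e 0) 0) 1)
      (ent (e 0) 1)) := by
    (apply_rules (transparency := .reducible) (maxDepth := 1000) using is_poly)
  obtain ⟨F, hF⟩ := exists_fun hC hs ht (fun _ => 0) (sc A (kp A))
  have hF₁ : ∀ q, EE A q F ↔ ∃ i < sc A (kp A), (ca i < cb i ∧ cb i < cc i) ∧
      q = km A (op A (fn3 A (ca i) (cb i) (cc i)) (on A (tcol A (ca i) (cb i) (cc i)))) := hF
  have hF' := fun (a b : MM A) => hasPair_fun (A := A) (F := F) (a := a) (b := b)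
    (C' := fun i => ca i < cb i ∧ cb i < cc i)
    (s' := fun i => fn3 A (ca i) (cb i) (cc i))
    (t' := fun i => on A (tcol A (ca i) (cb i) (cc i))) (α := sc A (kp A)) hF₁
  have hlt : ∀ i < sc A (kp A), ca i < sc A (kp A) ∧ cb i < sc A (kp A) ∧
      cc i < sc A (kp A) := fun i hi =>
    ⟨(ent_le _ _).trans_lt ((ent_le _ _).trans_lt hi), (ent_le _ _).trans_lt
      ((ent_le _ _).trans_lt hi), (ent_le _ _).trans_lt hi⟩
  have hexi : ∀ a b c : Ord, a < b → b < c → c < sc A (kp A) → ∃ i < sc A (kp A),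
      ca i = a ∧ cb i = b ∧ cc i = c := by
    intro a b c h1 h2 h3
    refine ⟨pr (pr a b) c, ?_, ?_, ?_, ?_⟩
    · exact cL.pr_lt (cL.pr_lt ((h1.trans h2).trans h3) (h2.trans h3)) h3
    · simp only [hca, ent_pr_zero]
    · simp only [hcb, ent_pr_zero, ent_pr_one]
    · simp only [hcc, ent_pr_one]
  refine ⟨F, ⟨?_, ?_, ?_⟩, ?_⟩
  · intro q hq
    obtain ⟨i, hi, ⟨h1, h2⟩, rfl⟩ := (hF₁ q).mp hq
    obtain ⟨g1, g2, g3⟩ := hlt i hi
    exact ⟨_, _, subsetOfSize_fn3 h1 h2 (oz_mem_iff.mpr g1) (oz_mem_iff.mpr g2)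
      (oz_mem_iff.mpr g3), oz_mem_iff.mpr (tcol_lt_omega _ _ _), isPair_op _ _⟩
  · intro s hs
    obtain ⟨a, b, c, h1, h2, h3, rfl⟩ := exists_fn3 hs
    obtain ⟨i, hi, e1, e2, e3⟩ := hexi a b c h1 h2 h3
    refine ⟨_, (hF' _ _).mpr ⟨i, hi, ⟨?_, ?_⟩, ?_, rfl⟩⟩
    · rw [e1, e2]
      exact h1
    · rw [e2, e3]
      exact h2
    · rw [e1, e2, e3]
  · intro s t t' h1 h2
    obtain ⟨i, hi, ⟨g1, g2⟩, g4, g5⟩ := (hF' _ _).mp h1
    obtain ⟨i', hi', ⟨g1', g2'⟩, g4', g5'⟩ := (hF' _ _).mp h2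
    obtain ⟨e1, e2, e3⟩ := fn3_inj g1 g2 g1' g2' (g4.trans g4'.symm)
    rw [← g5, ← g5']
    simp only [e1, e2, e3]
  · intro a b c t h1 h2 h3 ht
    obtain ⟨i, hi, ⟨g1, g2⟩, g4, g5⟩ := (hF' _ _).mp ht
    obtain ⟨e1, e2, e3⟩ := fn3_inj g1 g2 h1 h2 g4
    rw [← g5]
    simp only [e1, e2, e3]
    rfl

/-! ### Row mq-B4 -/

/-- A set of ordinals of the model of cardinality `kp A` contained in the successor of `kp A`:
the name of its ordinals, a bound, and the order type. -/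
theorem exists_name (hA : Good A) {H : MM A} (hH : ∀ z, EE A z H → EE A z (oz A (sc A (kp A))))
    (hc : HasCard (EE A) H (oz A (kp A))) :
    ∃ y d, (∀ α, α ∈ D A y ↔ EE A (oz A α) H) ∧ (∀ w ∈ D A y, w < d) ∧ d < sc A (kp A) ∧
      kp A ≤ otp (D A y) d := by
  obtain ⟨xH, rfl⟩ := km_surj H
  obtain ⟨⟨g, hg⟩, ⟨k, hk⟩⟩ := hc
  have hXint : Int A {w | w < sc A (kp A) ∧ EE A (oz A w) (km A xH)} := by
    have h1 : Dfn A GG fun U e => e 0 < e 1 ∧ EE A (km A (on A (e 0))) (km A (e 2)) := by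
      (apply_rules (transparency := .reducible) (maxDepth := 1000) using is_poly)
    exact int_of_dfn' h1 (cons (sc A (kp A)) fun _ => xH) (β := sc A (kp A)) fun w hw => hw.1
  have hXint' := hXint
  obtain ⟨y, hy⟩ := hXint'
  have hmem : ∀ α, α ∈ D A y ↔ EE A (oz A α) (km A xH) := by
    intro α
    rw [hy]
    constructor
    · intro h
      exact h.2
    · intro h
      exact ⟨oz_mem_iff.mp (hH _ h), h⟩
  have hlt : ∀ w ∈ D A y, w < sc A (kp A) := fun w hw => oz_mem_iff.mp (hH _ ((hmem w).mp hw))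
  have hSj : Sj A (kp A) (D A y) := by
    refine sj_of_inj (F := g) (x := g) (α := kp A) (fun w hw => ?_) hg.inj
    obtain ⟨b, p, hp, hpair⟩ := hg.total _ ((hmem w).mp hw)
    obtain ⟨a', b', _, h2, h3⟩ := hg.pairs p hp
    obtain ⟨_, h4⟩ := isPair_inj hpair h3
    rw [← h4] at h2
    obtain ⟨i, hi, rfl⟩ := mem_oz.mp h2
    exact ⟨i, hi, p, hp, hpair⟩
  have hd0 : DfnF A GG fun U e => e 0 := by
    (apply_rules (transparency := .reducible) (maxDepth := 1000) using is_poly)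
  obtain ⟨b, hb, hb'⟩ := sup_lt (clos_kp hA) hd0 (fun _ => 0) hSj ⟨y, rfl⟩ (lt_sc (kp A)) hlt
  have hbd : ∀ w ∈ D A y, w < b + 1 := fun w hw => by
    have h1 : w ≤ b := hb' w hw
    exact h1.trans_lt (lt_add_one b)
  refine ⟨y, b + 1, hmem, hbd, (clos_sc (O1_le_kp hA)).succ_lt hb, ?_⟩
  by_contra hcon
  push Not at hcon
  have h1 : DfnF A GG fun U e => sInf {α | ∃ v ∈ D A (e 1), otp {w | w ∈ D A (e 1)} v = e 0 ∧
      HasPair (EE A) (km A (e 2)) (km A (on A α)) (km A (on A v))} := by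
    (apply_rules (transparency := .reducible) (maxDepth := 1000) using is_poly)
  obtain ⟨xk, rfl⟩ := km_surj k
  refine mc_al (A := A) (th A) _ hcon
    (Sj.of_fun h1 (cons y fun _ => xk) fun w hw => ?_)
  obtain ⟨c, p, hp, hpair⟩ := hk.total _ (oz_mem_iff.mpr hw)
  obtain ⟨a', b', _, h2, h3⟩ := hk.pairs p hp
  obtain ⟨_, h4⟩ := isPair_inj hpair h3
  rw [← h4] at h2
  obtain ⟨β, hβ, rfl⟩ := mem_oz.mp (hH _ h2)
  have hβD : β ∈ D A y := (hmem β).mpr h2
  refine ⟨otp (D A y) β, otp_lt_otp hβD (hbd β hβD), ?_⟩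
  show sInf {α | ∃ v ∈ D A y, otp {w | w ∈ D A y} v = otp (D A y) β ∧
      HasPair (EE A) (km A xk) (oz A α) (oz A v)} = w
  have h5 : {α | ∃ v ∈ D A y, otp {w | w ∈ D A y} v = otp (D A y) β ∧
      HasPair (EE A) (km A xk) (oz A α) (oz A v)} = {w} := by
    ext α
    simp only [Set.mem_ofPred_eq, Set.mem_singleton_iff]
    constructor
    · rintro ⟨v, hv, h6, h7⟩
      have h8 : v = β := otp_injOn (D A y) hv hβD h6
      subst h8
      exact oz_inj (hk.inj _ _ _ h7 ⟨p, hp, hpair⟩)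
    · rintro rfl
      exact ⟨β, hβD, rfl, p, hp, hpair⟩
  rw [h5, csInf_singleton]

/-! ### Row mq-B5 -/

theorem not_arrow3 (hA : Good A) :
    ¬ Arrow3 (EE A) (oz A (sc A (kp A))) (oz A (kp A)) (oz A ω) := by
  intro harrow
  obtain ⟨F, hFc, hFt⟩ := exists_colouring hA
  have hrefl : CardLe (EE A) (oz A (sc A (kp A))) (oz A (sc A (kp A))) :=
    cardLe_oz.mpr (Sj.refl _)
  rcases harrow _ F ⟨hrefl, hrefl⟩ hFc with
    ⟨H, t, hHS, hHc, ht, hhom⟩ | ⟨H, t, hH4, ht, hhom⟩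
  · obtain ⟨y, d, hy, hbd, hd, hbig⟩ := exists_name hA hHS hHc
    have key : ∀ a ∈ D A y, ∀ b ∈ D A y, ∀ c ∈ D A y, a < b → b < c → tcol A a b c = 0 := by
      intro a ha b hb c hc hab hbc
      have ha' := (hy a).mp ha
      have hb' := (hy b).mp hb
      have hc' := (hy c).mp hc
      have hcS : c < sc A (kp A) := oz_mem_iff.mp (hHS _ hc')
      have h1 := hhom _ (subsetOfSize_fn3 hab hbc ha' hb' hc')
      have h2 := hFt a b c t hab hbc hcS h1
      by_contra hne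
      refine ht (oz A 0) ?_
      rw [h2]
      exact oz_mem_iff.mpr (pos_iff_ne_zero.mpr hne)
    have hcore : Core A y d := by
      refine ⟨hA, hbd, hd, hbig, ?_, ?_⟩
      · intro a ha b hb c hc hab hbc
        exact (tcol_eq_zero (key a ha b hb c hc hab hbc)).1
      · intro a ha b hb c hc hab hbc
        exact (tcol_eq_zero (key a ha b hb c hc hab hbc)).2
    exact hcore.false
  · obtain ⟨x, y, z, w, hxy, hyz, hzw, hw, hx', hy', hz', hw'⟩ := exists_four hH4
    have e1 := hFt x y z t hxy hyz (hzw.trans hw) (hhom _ (subsetOfSize_fn3 hxy hyz hx' hy' hz'))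
    have e2 := hFt x y w t hxy (hyz.trans hzw) hw
      (hhom _ (subsetOfSize_fn3 hxy (hyz.trans hzw) hx' hy' hw'))
    have e3 := hFt x z w t (hxy.trans hyz) hzw hw
      (hhom _ (subsetOfSize_fn3 (hxy.trans hyz) hzw hx' hz' hw'))
    have e4 := hFt y z w t hyz hzw hw (hhom _ (subsetOfSize_fn3 hyz hzw hy' hz' hw'))
    have hn : tcol A y z w ≠ 0 := by
      intro h0
      obtain ⟨u, hu⟩ := ht
      rw [e4, h0] at hu
      obtain ⟨v, hv, _⟩ := mem_oz.mp hu
      exact absurd hv (not_lt_of_ge (zero_le' (a := v)))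
    exact tcol_four hA hn (oz_inj (e1.symm.trans e4)) (oz_inj (e2.symm.trans e4))
      (oz_inj (e3.symm.trans e4)) rfl

/-- The model. -/
theorem main_model : ModelsZFC (EE Af) ∧ GCH (EE Af) ∧
    ∃ w w' θ κ κ', IsAleph (EE Af) 0 w ∧ IsSucc (EE Af) w w' ∧ IsAlephOf (EE Af) w' θ ∧
      IsAlephOf (EE Af) θ κ ∧ IsSuccCard (EE Af) κ κ' ∧ ¬ Arrow3 (EE Af) κ' κ w :=
  ⟨modelsZFC Af, gch_MM good_Af, _, _, _, _, _, isAleph_zero, isSucc_oz ω,
    isAlephOf_oz good_Af (ω + 1), isAlephOf_oz good_Af (th Af), isSuccCard_sc (kp Af),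
    not_arrow3 good_Af⟩

end Pool.Agent.Lib.MP_69a707_lc.MQ
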