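import Pool.Agent.Lib.MP_7295f2_lc.Stmt

/-!
# The relation of Q1 inside a model of set theory

Everything is first order over `(M, E)`; `E x y` is read `x ∈ y`.
-/

open Pool.Agent.Lib.MP_7295f2_lc

namespace Pool.Agent.Lib.MP_69a707_lc

universe u

variable {M : Type u} (E : M → M → Prop)

/-- `y = x ∪ {x}`. -/
def IsSucc (x y : M) : Prop := ∀ z, E z y ↔ E z x ∨ z = x

/-- `f` is an order isomorphism of the ordinal `α` onto the set of the infinite cardinals below
`x`. -/
structure IsEnum (α x f : M) : Prop where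
  pairs : ∀ p, E p f → ∃ a b, E a α ∧ E b x ∧ IsInfCard E b ∧ IsPair E p a b
  total : ∀ a, E a α → ∃ b, HasPair E f a b
  onto : ∀ b, E b x → IsInfCard E b → ∃ a, HasPair E f a b
  mono : ∀ a b a' b', HasPair E f a b → HasPair E f a' b' → (E a a' ↔ E b b')

/-- `x = ℵ_α` for the ordinal `α`: `x` is an infinite cardinal and the set of the infinite
cardinals below `x` has order type `α`. -/
def IsAlephOf (α x : M) : Prop := IsInfCard E x ∧ ∃ f, IsEnum E α x f

/-- `f` is a function assigning to each `3`-element subset of `S` an element of `w`. -/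
structure IsColouring (S w f : M) : Prop where
  pairs : ∀ p, E p f → ∃ s t, IsSubsetOfSize E 3 S s ∧ E t w ∧ IsPair E p s t
  total : ∀ s, IsSubsetOfSize E 3 S s → ∃ t, HasPair E f s t
  func : ∀ s t t', HasPair E f s t → HasPair E f s t' → t = t'

/-- `f` takes the value `t` at all `3`-element subsets of `H`. -/
def IsHom (f H t : M) : Prop := ∀ s, IsSubsetOfSize E 3 H s → HasPair E f s t

/-- The relation `κ' → (κ, (4)_{ℵ₀})³` in the model, where `w` is `ω`: for every partition of the
`3`-element subsets of a set `S` of cardinality `κ'` into classes `Δ_t` (`t ∈ ω`) there is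
`H ⊆ S` of cardinality `κ` with all `3`-element subsets in `Δ_∅`, or `t ≠ ∅` and a `4`-element
`H ⊆ S` with all `3`-element subsets in `Δ_t`. -/
def Arrow3 (κ' κ w : M) : Prop := ∀ S f, HasCard E S κ' → IsColouring E S w f →
  (∃ H t, (∀ z, E z H → E z S) ∧ HasCard E H κ ∧ (∀ z, ¬ E z t) ∧ IsHom E f H t) ∨
  ∃ H t, IsSubsetOfSize E 4 S H ∧ (∃ z, E z t) ∧ IsHom E f H t

end Pool.Agent.Lib.MP_69a707_lc
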